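import Pool.Agent.H26.Big.Fam

/-!
# The number of the pairs with a very short polynomial
-/

set_option autoImplicit false

open Module NumberField Polynomial

namespace Pool.Agent.H26.Big

open Pool.Agent.Helper313LB Pool.Agent.H26.Mass

section

/-- the number of the divisors of a number of polynomial size -/
theorem exists_divisors_le (F : Type) [Field F] [NumberField F] (N : ℕ) {K ε : ℝ} (hK : 0 < K)
    (hε : 0 < ε) :
    ∃ C : ℝ, 1 ≤ C ∧ ∀ T : ℝ, 1 ≤ T → ∀ D : 𝓞 F, D ≠ 0 →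
      (∀ σ : F →+* ℂ, ‖σ (D : F)‖ ≤ K * T ^ N) →
      ({J | J ∣ Ideal.span {D}}.ncard : ℝ) ≤ C * T ^ ε := by
  set d := finrank ℚ F with hd
  have hd0 : 0 < d := finrank_pos
  have hdR : (0 : ℝ) < d := by exact_mod_cast hd0
  set ε' : ℝ := ε / (d * (N + 1)) with hε'
  have hε'0 : 0 < ε' := by positivity
  obtain ⟨C, hC, hdiv⟩ := exists_ncard_dvd_le F hε'0
  refine ⟨max 1 (C * (K ^ d) ^ ε'), le_max_left _ _, ?_⟩
  intro T hT D hD hsize
  have hT0 : 0 < T := by linarith
  have hD0 : Ideal.span {D} ≠ 0 := fun h => hD (Ideal.span_singleton_eq_bot.1 h)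
  have h1 := hdiv _ hD0
  have h2 := absNorm_span_le hsize
  have h3 : (Ideal.absNorm (Ideal.span {D}) : ℝ) ^ ε' ≤ (K ^ d) ^ ε' * T ^ ε := by
    refine (Real.rpow_le_rpow (by positivity) h2 (by positivity)).trans ?_
    rw [mul_pow, Real.mul_rpow (by positivity) (by positivity)]
    refine mul_le_mul_of_nonneg_left ?_ (by positivity)
    rw [← pow_mul, ← Real.rpow_natCast, ← Real.rpow_mul hT0.le]
    refine Real.rpow_le_rpow_of_exponent_le hT ?_
    rw [hε', ← hd]
    push_cast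
    rw [mul_div_assoc', div_le_iff₀ (by positivity)]
    nlinarith [mul_pos hdR hε]
  calc ({J | J ∣ Ideal.span {D}}.ncard : ℝ) ≤ C * (Ideal.absNorm (Ideal.span {D}) : ℝ) ^ ε' := h1
    _ ≤ C * ((K ^ d) ^ ε' * T ^ ε) := mul_le_mul_of_nonneg_left h3 (by linarith)
    _ = (C * (K ^ d) ^ ε') * T ^ ε := by ring
    _ ≤ _ := mul_le_mul_of_nonneg_right (le_max_right _ _) (by positivity)

/-- the number of the divisors in a family -/
theorem exists_lead_le (F : Type) [Field F] [NumberField F] (N : ℕ) {K ε : ℝ} (hK : 0 < K)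
    (hε : 0 < ε) :
    ∃ C : ℝ, 1 ≤ C ∧ ∀ T : ℝ, 1 ≤ T → ∀ D : 𝓞 F, D ≠ 0 →
      (∀ σ : F →+* ℂ, ‖σ (D : F)‖ ≤ K * T ^ N) → ∀ A : Finset (𝓞 F), ∀ H : ℝ, 0 < H →
      (∀ a ∈ A, a ∣ D ∧ ∀ σ : F →+* ℂ, H / 2 ≤ ‖σ (a : F)‖ ∧ ‖σ (a : F)‖ ≤ H) →
      (A.card : ℝ) ≤ C * T ^ ε := by
  obtain ⟨C, hC, h⟩ := exists_divisors_le F N hK hε
  have hB : (1 : ℝ) ≤ (Box F 2).ncard := by
    have : 0 < (Box F 2).ncard := by
      rw [Set.ncard_pos (finite_Box F 2)]
      exact ⟨0, fun σ => by simp⟩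
    exact_mod_cast this
  refine ⟨(Box F 2).ncard * C, by nlinarith, ?_⟩
  intro T hT D hD hsize A H hH hA
  have h1 := card_lead_le hD A hH hA
  have h2 : (A.card : ℝ) ≤ ((Box F 2).ncard : ℝ) * ({J | J ∣ Ideal.span {D}}.ncard : ℝ) := by
    exact_mod_cast h1
  refine h2.trans ?_
  rw [mul_assoc]
  exact mul_le_mul_of_nonneg_left (h T hT D hD hsize) (by positivity)

/-- the number of the pairs with a very short polynomial -/
theorem exists_bad_le (F : Type) [Field F] [NumberField F] (n d N : ℕ) (hdn : 2 * d + 1 ≤ n)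
    {ε : ℝ} (hε : 0 < ε) :
    ∃ C : ℝ, 1 ≤ C ∧ ∀ T : ℝ, 1 ≤ T → ∀ P : ℝ, 1 ≤ P → P ≤ T ^ N → ∀ δ : ℝ, 1 / T ≤ δ → δ ≤ 1 →
      ∀ A R : Finset (𝓞 F), (∀ m ∈ A, ∀ σ : F →+* ℂ, P / 2 ≤ ‖σ (m : F)‖ ∧ ‖σ (m : F)‖ ≤ P) →
      (∀ r ∈ R, r ∈ Box F P) → ∀ S : Finset (𝓞 F × 𝓞 F),
      (∀ x ∈ S, x.1 ∈ A ∧ x.2 ∈ R ∧ ∃ v : Fin (d + 1) → 𝓞 F, v ≠ 0 ∧ v ∈ SmI F n d T δ x.1 x.2) →
      (S.card : ℝ) ≤ C * (δ ^ (finrank ℚ F * (d + 1)) * T ^ (finrank ℚ F * kap n d)) *
        (P ^ finrank ℚ F * T ^ ε) := by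
  classical
  set D := finrank ℚ F with hD
  have hD0 : 0 < D := finrank_pos
  obtain ⟨C₁, hC₁, hlead⟩ := exists_lead_le F (n + N * d) (K := d + 1) (by positivity) hε
  refine ⟨5 ^ (D * (d + 1)) * (d * 5 ^ D + 5 ^ D * C₁), ?_, ?_⟩
  · have h1 : (1 : ℝ) ≤ 5 ^ (D * (d + 1)) := one_le_pow₀ (by norm_num)
    have h2 : (1 : ℝ) ≤ 5 ^ D := one_le_pow₀ (by norm_num)
    have h3 : (1 : ℝ) ≤ 5 ^ D * C₁ := by nlinarith
    have h4 : (0 : ℝ) ≤ d * 5 ^ D := by positivity
    nlinarith
  intro T hT P hP hPT δ hδT hδ1 A R hA hR S hS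
  have hT0 : 0 < T := by linarith
  have hP0 : 0 < P := by linarith
  have hδ0 : 0 < δ := lt_of_lt_of_le (by positivity) hδT
  have hTε : 1 ≤ T ^ ε := Real.one_le_rpow hT hε.le
  have hAc : (A.card : ℝ) ≤ (5 * P) ^ D := by
    refine le_trans ?_ (ncard_Box_le F hP)
    rw [← Set.ncard_coe_finset]
    exact_mod_cast Set.ncard_le_ncard (fun m hm σ => (hA m hm σ).2) (finite_Box F P)
  have hRc : (R.card : ℝ) ≤ (5 * P) ^ D := by
    refine le_trans ?_ (ncard_Box_le F hP)
    rw [← Set.ncard_coe_finset]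
    exact_mod_cast Set.ncard_le_ncard (fun m hm => hR m hm) (finite_Box F P)
  let B : Fin (d + 1) → Finset (𝓞 F) := fun i => (finite_Box F (δ * T ^ (n - 2 * (i : ℕ)))).toFinset
  let V : Finset (Fin (d + 1) → 𝓞 F) := Fintype.piFinset B
  have hV : ∀ v, v ∈ V ↔ ∀ i : Fin (d + 1), v i ∈ Box F (δ * T ^ (n - 2 * (i : ℕ))) := by
    intro v
    rw [Fintype.mem_piFinset]
    exact forall_congr' fun i => Set.Finite.mem_toFinset _
  have hVc : (V.card : ℝ) ≤ 5 ^ (D * (d + 1)) * (δ ^ (D * (d + 1)) * T ^ (D * kap n d)) := by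
    rw [Fintype.card_piFinset, Nat.cast_prod]
    have h1 : ∀ i ∈ Finset.univ, ((B i).card : ℝ) ≤ (5 * (δ * T ^ (n - 2 * (i : ℕ)))) ^ D := by
      intro i _
      have h2 : 1 ≤ δ * T ^ (n - 2 * (i : ℕ)) := by
        have hi := i.2
        have h3 : T ≤ T ^ (n - 2 * (i : ℕ)) := le_self_pow₀ hT (by omega)
        calc (1 : ℝ) = 1 / T * T := by field_simp
          _ ≤ δ * T ^ (n - 2 * (i : ℕ)) := mul_le_mul hδT h3 hT0.le hδ0.le
      have h4 := ncard_Box_le F h2
      rwa [Set.ncard_eq_toFinset_card _ (finite_Box F _)] at h4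
    refine (Finset.prod_le_prod (fun i _ => by positivity) h1).trans (le_of_eq ?_)
    have h2 : ∀ i : Fin (d + 1), (5 * (δ * T ^ (n - 2 * (i : ℕ)))) ^ D =
        (5 * δ) ^ D * T ^ (D * (n - 2 * (i : ℕ))) := by
      intro i
      rw [← mul_assoc, mul_pow, ← pow_mul, mul_comm D]
    simp only [h2]
    rw [Finset.prod_mul_distrib, Finset.prod_const, Finset.card_univ, Fintype.card_fin,
      Finset.prod_pow_eq_pow_sum, ← Finset.mul_sum, kap, ← pow_mul, mul_pow]
    ring
  -- the number of the pairs for a polynomial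
  have hone : ∀ v ∈ V, v ≠ 0 → ((S.filter fun x => x.1 ∣ (pol v).eval x.2).card : ℝ) ≤
      (d * 5 ^ D + 5 ^ D * C₁) * (P ^ D * T ^ ε) := by
    intro v hv hv0
    have hpv : pol v ≠ 0 := by
      intro h
      apply hv0
      apply pol_injective
      rw [h]
      refine (Polynomial.ext fun j => ?_)
      rw [coeff_pol]
      simp
    have hdeg : (pol v).natDegree ≤ d := by
      have h1 := degree_pol_lt v
      have h2 : (pol v).natDegree < d + 1 := by
        rw [natDegree_lt_iff_degree_lt hpv]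
        exact h1
      omega
    let S' := S.filter fun x => x.1 ∣ (pol v).eval x.2
    have hS' : S' ⊆ ((A ×ˢ (R.filter fun r => (pol v).eval r = 0)) ∪
        ((A ×ˢ (R.filter fun r => (pol v).eval r ≠ 0)).filter fun x => x.1 ∣ (pol v).eval x.2)) := by
      intro x hx
      obtain ⟨hx1, hx2⟩ := Finset.mem_filter.1 hx
      obtain ⟨h1, h2, -⟩ := hS x hx1
      rw [Finset.mem_union]
      by_cases h : (pol v).eval x.2 = 0
      · exact Or.inl (Finset.mem_product.2 ⟨h1, Finset.mem_filter.2 ⟨h2, h⟩⟩)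
      · exact Or.inr (Finset.mem_filter.2 ⟨Finset.mem_product.2 ⟨h1, Finset.mem_filter.2 ⟨h2, h⟩⟩, hx2⟩)
    have h1 : ((R.filter fun r => (pol v).eval r = 0).card : ℝ) ≤ d := by
      have h2 : (R.filter fun r => (pol v).eval r = 0) ⊆ (pol v).roots.toFinset := by
        intro r hr
        rw [Multiset.mem_toFinset, mem_roots hpv]
        exact (Finset.mem_filter.1 hr).2
      have h3 := (Finset.card_le_card h2).trans ((Multiset.toFinset_card_le _).trans
        ((card_roots' _).trans hdeg))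
      exact_mod_cast h3
    have h2 : (((A ×ˢ (R.filter fun r => (pol v).eval r ≠ 0)).filter
        fun x => x.1 ∣ (pol v).eval x.2).card : ℝ) ≤ (5 * P) ^ D * (C₁ * T ^ ε) := by
      set S₂ := (A ×ˢ (R.filter fun r => (pol v).eval r ≠ 0)).filter
        fun x => x.1 ∣ (pol v).eval x.2 with hS₂
      have h3 : S₂.card = ∑ r ∈ S₂.image Prod.snd, (S₂.filter fun x => x.2 = r).card :=
        Finset.card_eq_sum_card_fiberwise (fun p hp => Finset.mem_image_of_mem _ hp)
      have h4 : (S₂.card : ℝ) = ∑ r ∈ S₂.image Prod.snd, ((S₂.filter fun x => x.2 = r).card : ℝ) := by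
        exact_mod_cast h3
      have h5 : ∀ r ∈ S₂.image Prod.snd, ((S₂.filter fun x => x.2 = r).card : ℝ) ≤ C₁ * T ^ ε := by
        intro r hr
        obtain ⟨x, hx, rfl⟩ := Finset.mem_image.1 hr
        obtain ⟨hx1, hx2⟩ := Finset.mem_filter.1 hx
        obtain ⟨hx3, hx4⟩ := Finset.mem_product.1 hx1
        obtain ⟨hx5, hx6⟩ := Finset.mem_filter.1 hx4
        have h6 : (S₂.filter fun y => y.2 = x.2).card =
            ((S₂.filter fun y => y.2 = x.2).image Prod.fst).card := by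
          rw [Finset.card_image_of_injOn]
          intro y hy z hz hyz
          have hy1 := (Finset.mem_filter.1 hy).2
          have hz1 := (Finset.mem_filter.1 hz).2
          exact Prod.ext hyz (hy1.trans hz1.symm)
        rw [h6]
        refine hlead T hT ((pol v).eval x.2) hx6 ?_ _ P hP0 ?_
        · intro σ
          rw [eval_pol]
          have h7 : σ ((∑ i, v i * x.2 ^ (i : ℕ) : 𝓞 F) : F) =
              ∑ i, σ (v i : F) * σ (x.2 : F) ^ (i : ℕ) := by simp
          rw [h7]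
          refine (norm_sum_le _ _).trans ?_
          have h8 : ∀ i ∈ (Finset.univ : Finset (Fin (d + 1))),
              ‖σ (v i : F) * σ (x.2 : F) ^ (i : ℕ)‖ ≤ T ^ (n + N * d) := by
            intro i _
            rw [norm_mul, norm_pow, pow_add]
            refine mul_le_mul ?_ ?_ (by positivity) (by positivity)
            · refine ((hV v).1 hv i σ).trans ?_
              calc δ * T ^ (n - 2 * (i : ℕ)) ≤ 1 * T ^ n :=
                    mul_le_mul hδ1 (pow_le_pow_right₀ hT (by omega)) (by positivity) zero_le_one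
                _ = T ^ n := one_mul _
            · calc ‖σ (x.2 : F)‖ ^ (i : ℕ) ≤ P ^ (i : ℕ) :=
                    pow_le_pow_left₀ (norm_nonneg _) (hR _ hx5 σ) _
                _ ≤ P ^ d := pow_le_pow_right₀ hP (by have := i.2; omega)
                _ ≤ (T ^ N) ^ d := pow_le_pow_left₀ hP0.le hPT _
                _ = T ^ (N * d) := (pow_mul _ _ _).symm
          refine (Finset.sum_le_sum h8).trans (le_of_eq ?_)
          rw [Finset.sum_const, Finset.card_univ, Fintype.card_fin, nsmul_eq_mul]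
          push_cast
          ring
        · intro m hm
          obtain ⟨y, hy, rfl⟩ := Finset.mem_image.1 hm
          obtain ⟨hy1, hy2⟩ := Finset.mem_filter.1 hy
          obtain ⟨hy3, hy4⟩ := Finset.mem_filter.1 hy1
          rw [← hy2]
          exact ⟨hy4, fun σ => hA _ (Finset.mem_product.1 hy3).1 σ⟩
      have h6 : ((S₂.image Prod.snd).card : ℝ) ≤ (5 * P) ^ D := by
        refine le_trans ?_ hRc
        have h7 : S₂.image Prod.snd ⊆ R := by
          intro r hr
          obtain ⟨x, hx, rfl⟩ := Finset.mem_image.1 hr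
          exact (Finset.mem_filter.1 (Finset.mem_product.1 (Finset.mem_filter.1 hx).1).2).1
        exact_mod_cast Finset.card_le_card h7
      rw [h4]
      refine (Finset.sum_le_sum h5).trans ?_
      rw [Finset.sum_const, nsmul_eq_mul]
      exact mul_le_mul_of_nonneg_right h6 (by positivity)
    have h3 : (S'.card : ℝ) ≤ (A.card : ℝ) * ((R.filter fun r => (pol v).eval r = 0).card : ℝ) +
        (((A ×ˢ (R.filter fun r => (pol v).eval r ≠ 0)).filter
          fun x => x.1 ∣ (pol v).eval x.2).card : ℝ) := by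
      have h4 := (Finset.card_le_card hS').trans (Finset.card_union_le _ _)
      rw [Finset.card_product] at h4
      exact_mod_cast h4
    refine h3.trans ?_
    have h5 : (A.card : ℝ) * ((R.filter fun r => (pol v).eval r = 0).card : ℝ) ≤
        (5 * P) ^ D * d * T ^ ε := by
      calc (A.card : ℝ) * ((R.filter fun r => (pol v).eval r = 0).card : ℝ) ≤ (5 * P) ^ D * d :=
            mul_le_mul hAc h1 (by positivity) (by positivity)
        _ ≤ _ := le_mul_of_one_le_right (by positivity) hTε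
    refine (add_le_add h5 h2).trans (le_of_eq ?_)
    rw [mul_pow]
    ring
  -- the sum
  have hsub : S ⊆ (V.filter fun v => v ≠ 0).biUnion fun v => S.filter fun x => x.1 ∣ (pol v).eval x.2 := by
    intro x hx
    obtain ⟨h1, h2, v, hv0, hv⟩ := hS x hx
    rw [Finset.mem_biUnion]
    refine ⟨v, Finset.mem_filter.2 ⟨(hV v).2 fun i σ => hv.1 i σ, hv0⟩, Finset.mem_filter.2 ⟨hx, hv.2⟩⟩
  have h1 : (S.card : ℝ) ≤ ∑ v ∈ V.filter fun v => v ≠ 0,
      ((S.filter fun x => x.1 ∣ (pol v).eval x.2).card : ℝ) := by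
    exact_mod_cast (Finset.card_le_card hsub).trans Finset.card_biUnion_le
  refine h1.trans ?_
  refine (Finset.sum_le_sum fun v hv => hone v (Finset.mem_filter.1 hv).1
    (Finset.mem_filter.1 hv).2).trans ?_
  rw [Finset.sum_const, nsmul_eq_mul]
  have h2 : ((V.filter fun v => v ≠ 0).card : ℝ) ≤ V.card := by
    exact_mod_cast Finset.card_filter_le _ _
  have h3 : (0 : ℝ) ≤ (d * 5 ^ D + 5 ^ D * C₁) * (P ^ D * T ^ ε) := by positivity
  calc _ ≤ (5 ^ (D * (d + 1)) * (δ ^ (D * (d + 1)) * T ^ (D * kap n d))) *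
        ((d * 5 ^ D + 5 ^ D * C₁) * (P ^ D * T ^ ε)) :=
        mul_le_mul_of_nonneg_right (h2.trans hVc) h3
    _ = _ := by ring

end

end Pool.Agent.H26.Big
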