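import Pool.Agent.H26.Big.Pol
import Pool.Graph.R_pool_sql_team_seeded_620a6dc7.Helper313WR.A6

/-!
# Congruence classes of monic polynomials
-/

set_option autoImplicit false

open Module NumberField Polynomial IntermediateField

namespace Pool.Agent.H26.Big

open Pool.Agent.Helper313LB Pool.Agent.Helper313SN

section

variable {R : Type*} [CommRing R]

theorem comp_coeff_mod (f : R[X]) {t q : R} (h : q ∣ t) (k : ℕ) :
    q ∣ (f.comp (X - C t)).coeff k - f.coeff k := by
  have h1 := sub_dvd_eval_sub (X - C t) X (f.map C)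
  rw [eval_map, eval_map] at h1
  have h2 : f.eval₂ C (X - C t) = f.comp (X - C t) := rfl
  have h3 : f.eval₂ C X = f := eval₂_C_X
  rw [h2, h3, sub_sub_cancel_left, neg_dvd] at h1
  have h4 := (C_dvd_iff_dvd_coeff _ _).1 h1 k
  rw [coeff_sub] at h4
  exact h.trans h4

theorem comp_monic {n : ℕ} [Nontrivial R] (a : Fin n → R) (t : R) :
    ((mp a).comp (X - C t)).Monic := by
  refine (mp_monic a).comp (monic_X_sub_C t) ?_
  rw [natDegree_X_sub_C]
  exact one_ne_zero

theorem comp_natDegree {n : ℕ} [IsDomain R] (a : Fin n → R) (t : R) :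
    ((mp a).comp (X - C t)).natDegree = n := by
  rw [natDegree_comp, mp_natDegree, natDegree_X_sub_C, mul_one]

theorem coeff_X_sub_C_pow' (r : R) (n k : ℕ) :
    ((X - C r) ^ n).coeff k = (-r) ^ (n - k) * (n.choose k : R) := by
  rw [sub_eq_add_neg, ← C_neg, coeff_X_add_C_pow]

theorem comp_coeff_pred {n : ℕ} (hn : 1 ≤ n) (a : Fin n → R) (t : R) :
    ((mp a).comp (X - C t)).coeff (n - 1) = a ⟨n - 1, by omega⟩ - n * t := by
  have h1 : (mp a).comp (X - C t) = (X - C t) ^ n + ∑ i : Fin n, C (a i) * (X - C t) ^ (i : ℕ) := by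
    simp [mp, pol, Polynomial.sum_comp]
  rw [h1, coeff_add, coeff_X_sub_C_pow', finsetSum_coeff]
  have h2 : ∀ i ∈ (Finset.univ : Finset (Fin n)), (C (a i) * (X - C t) ^ (i : ℕ)).coeff (n - 1) =
      if i = (⟨n - 1, by omega⟩ : Fin n) then a i else 0 := by
    intro i _
    rw [coeff_C_mul, coeff_X_sub_C_pow']
    split_ifs with h
    · have : (i : ℕ) = n - 1 := by rw [h]
      rw [this, Nat.sub_self, pow_zero, Nat.choose_self, Nat.cast_one, mul_one, mul_one]
    · have h3 : (i : ℕ) < n - 1 := by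
        have h4 : (i : ℕ) ≠ n - 1 := fun h' => h (Fin.ext h')
        have := i.2
        omega
      rw [Nat.choose_eq_zero_of_lt h3, Nat.cast_zero, mul_zero, mul_zero]
  rw [Finset.sum_congr rfl h2, Finset.sum_ite_eq' , if_pos (Finset.mem_univ _)]
  have h3 : n - (n - 1) = 1 := by omega
  have h4 : n.choose (n - 1) = n := by
    rw [Nat.choose_symm (by omega : 1 ≤ n), Nat.choose_one_right]
  rw [h3, h4, pow_one]
  ring

end

section

variable {F : Type} [Field F] [NumberField F] {Ω : Type} [Field Ω] [CharZero Ω] [Algebra F Ω]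

/-- A congruence class of monic polynomials whose roots generate extensions with property `Q`. -/
theorem exists_class {Q : IntermediateField F Ω → Prop} {n : ℕ} (hn : 2 ≤ n)
    (hB : Pool.Agent.Helper313WR.Base Q n) :
    ∃ (a₀ : Fin n → 𝓞 F) (M : ℕ), 1 ≤ M ∧ ∀ h : Fin n → 𝓞 F, (∀ k, (M : 𝓞 F) ∣ h k - a₀ k) →
      Irreducible ((mp h).map (algebraMap (𝓞 F) F)) ∧
        ∀ α : Ω, (minpoly F α = (mp h).map (algebraMap (𝓞 F) F)) → Q F⟮α⟯ := by
  obtain ⟨a, q, hq1, hbase⟩ := hB
  refine ⟨fun k => if h : (k : ℕ) < n - 1 then a ⟨k, h⟩ else 0, n * q,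
    Nat.mul_pos (by omega) hq1, ?_⟩
  intro h hh
  have hlast : ∃ t : 𝓞 F, h ⟨n - 1, by omega⟩ = n * (q * t) := by
    obtain ⟨t, ht⟩ := hh ⟨n - 1, by omega⟩
    refine ⟨t, ?_⟩
    simp only [lt_irrefl, dite_false, sub_zero] at ht
    rw [ht]
    push_cast
    ring
  obtain ⟨t, ht⟩ := hlast
  set τ : 𝓞 F := q * t with hτ
  set g := (mp h).comp (X - C τ) with hg
  have hgm : g.Monic := comp_monic h τ
  have hgd : g.natDegree = n := comp_natDegree h τ
  have hgn : g.nextCoeff = 0 := by
    rw [nextCoeff_of_natDegree_pos (by omega), hgd, hg, comp_coeff_pred (by omega), ht]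
    ring
  have hgP := eq_P (by omega) hgm hgd hgn
  have hcoef : ∀ j : Fin (n - 1), ∃ b : 𝓞 F, g.coeff j = a j + q * b := by
    intro j
    have hj := j.2
    have h1 : (q : 𝓞 F) ∣ g.coeff j - (mp h).coeff j :=
      comp_coeff_mod (mp h) (Dvd.intro t rfl) j
    rw [mp_coeff_lt h (by omega)] at h1
    have h2 : (q : 𝓞 F) ∣ h ⟨j, by omega⟩ - a j := by
      have h3 := hh ⟨j, by omega⟩
      simp only [hj, dite_true] at h3
      exact (Dvd.intro_left (n : 𝓞 F) (by push_cast; ring)).trans h3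
    obtain ⟨b, hb⟩ := dvd_add h1 h2
    exact ⟨b, by linear_combination hb⟩
  choose b hb using hcoef
  have hgF : g.map (algebraMap (𝓞 F) F) = P n fun j => ((a j + q * b j : 𝓞 F) : F) := by
    rw [hgP, P_map]
    congr 1
    funext j
    change algebraMap (𝓞 F) F (g.coeff j) = _
    rw [hb]
  have hcomp : g.map (algebraMap (𝓞 F) F) =
      ((mp h).map (algebraMap (𝓞 F) F)).comp (X - C (algebraMap (𝓞 F) F τ)) := by
    rw [hg, Polynomial.map_comp, Polynomial.map_sub, map_X, map_C]
  obtain ⟨hirr, hQ⟩ := hbase b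
  constructor
  · rw [← hgF, hcomp] at hirr
    have h1 : ((mp h).map (algebraMap (𝓞 F) F)).comp (X - C (algebraMap (𝓞 F) F τ)) =
        algEquivAevalXAddC (-(algebraMap (𝓞 F) F τ)) ((mp h).map (algebraMap (𝓞 F) F)) := by
      rw [algEquivAevalXAddC]
      simp [sub_eq_add_neg, comp_eq_aeval]
    rw [h1] at hirr
    exact (MulEquiv.irreducible_iff (algEquivAevalXAddC (-(algebraMap (𝓞 F) F τ)))).1 hirr
  · intro α hα
    have h1 : minpoly F (α + algebraMap F Ω (algebraMap (𝓞 F) F τ)) =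
        P n fun j => ((a j + q * b j : 𝓞 F) : F) := by
      rw [minpoly.add_algebraMap, hα, ← hcomp, hgF]
    have h2 := hQ _ h1
    have h3 : F⟮α + algebraMap F Ω (algebraMap (𝓞 F) F τ)⟯ = F⟮α⟯ := by
      apply le_antisymm
      · rw [adjoin_simple_le_iff]
        exact add_mem (mem_adjoin_simple_self F α) (IntermediateField.algebraMap_mem _ _)
      · rw [adjoin_simple_le_iff]
        have h4 : α = (α + algebraMap F Ω (algebraMap (𝓞 F) F τ)) -
            algebraMap F Ω (algebraMap (𝓞 F) F τ) := by ring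
        have h5 : (α + algebraMap F Ω (algebraMap (𝓞 F) F τ)) -
            algebraMap F Ω (algebraMap (𝓞 F) F τ) ∈
              F⟮α + algebraMap F Ω (algebraMap (𝓞 F) F τ)⟯ :=
          sub_mem (mem_adjoin_simple_self F _) (IntermediateField.algebraMap_mem _ _)
        rwa [← h4] at h5
    rwa [h3] at h2

end

end Pool.Agent.H26.Big
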