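import Pool.Agent.H26.Big.Sum
import Pool.Agent.H26.Mass.Concl

/-!
# Lower bounds for the number of fields in windows
-/

set_option autoImplicit false

open Module NumberField Polynomial IntermediateField Filter
open scoped Classical

namespace Pool.Agent.H26.Big

open Pool.Agent.Helper313LB Pool.Agent.Helper313SN Pool.Agent.Helper313WR Pool.Agent.H26.Mass

/-- `(n + 1) ^ 2 / 4`, rounded down -/
theorem kap_eq {n : ℕ} (hn : 1 ≤ n) : kap n ((n - 1) / 2) = (n + 1) ^ 2 / 4 := by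
  have h : ∀ d s : ℕ, ∑ i ∈ Finset.range (d + 1), (2 * d + s - 2 * i) = (d + 1) * (d + s) := by
    intro d
    induction d with
    | zero => intro s; simp
    | succ d ih =>
      intro s
      rw [Finset.sum_range_succ]
      have h1 := ih (s + 2)
      have h2 : ∑ i ∈ Finset.range (d + 1), (2 * (d + 1) + s - 2 * i) =
          ∑ i ∈ Finset.range (d + 1), (2 * d + (s + 2) - 2 * i) := by
        refine Finset.sum_congr rfl fun i _ => ?_
        congr 1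
        ring
      rw [h2, h1]
      have h3 : 2 * (d + 1) + s - 2 * (d + 1) = s := by omega
      rw [h3]
      ring
  rw [kap, Fin.sum_univ_eq_sum_range (fun i => n - 2 * i)]
  obtain ⟨d, hd⟩ : ∃ d, n = 2 * d + 1 ∨ n = 2 * d + 2 := ⟨(n - 1) / 2, by omega⟩
  rcases hd with rfl | rfl
  · have h1 : (2 * d + 1 - 1) / 2 = d := by omega
    rw [h1, h d 1]
    have h2 : (2 * d + 1 + 1) ^ 2 = (d + 1) * (d + 1) * 4 := by ring
    rw [h2, Nat.mul_div_cancel _ (by norm_num)]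
  · have h1 : (2 * d + 2 - 1) / 2 = d := by omega
    rw [h1, h d 2]
    have h2 : (2 * d + 2 + 1) ^ 2 = 1 + (d + 1) * (d + 2) * 4 := by ring
    rw [h2, Nat.add_mul_div_right _ _ (by norm_num)]
    norm_num

/-- the exponent -/
noncomputable def bet (n : ℕ) : ℝ :=
  min (1 / 2) (((n : ℝ) - 1) / ((n : ℝ) * (n - 1) - (((n + 1) ^ 2 / 4 : ℕ) : ℝ)))

/-- In every window there is a value `Y` with at least `Y ^ s` fields. -/
theorem Q_window {F : Type} [Field F] [NumberField F] {Ω : Type} [Field Ω] [CharZero Ω]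
    [Algebra F Ω] [IsAlgClosed Ω] {Q : IntermediateField F Ω → Prop} (hQ : ∀ L, Q L → Full L)
    {n : ℕ} (hn : 3 ≤ n) (hB : Base Q n) {C A : ℝ}
    (hup : ∀ X : ℝ, 1 ≤ X → ((Fld F Ω n X).ncard : ℝ) ≤ C * X ^ A) {s : ℝ}
    (hs : s < 1 / 2 + bet n) :
    ∃ δ : ℝ, 0 < δ ∧ ∀ᶠ X : ℝ in atTop, ∃ Y : ℝ, X ^ δ ≤ Y ∧ Y ≤ X ∧
      Y ^ s ≤ ((QFld Q n Y).ncard : ℝ) := by
  rcases Nat.eq_or_lt_of_le hn with h3 | h4
  · subst h3
    refine Mass.Q_window hQ le_rfl hB hup (lt_of_lt_of_le hs ?_)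
    have h1 : bet 3 ≤ 1 / 2 := min_le_left _ _
    push_cast
    norm_num at h1 ⊢
    linarith
  have h4' : 4 ≤ n := h4
  have hfin : ∀ X : ℝ, {L | L ∈ AllQ Q n ∧ dsc L ≤ X}.Finite := by
    intro X
    rw [← QFld_eq]
    exact finite_QFld' Q n X
  have hnR : (4 : ℝ) ≤ n := by exact_mod_cast h4'
  have hk := kap_eq (by omega : 1 ≤ n)
  have hlt : kap n ((n - 1) / 2) < n * (n - 1) := by
    rw [hk, Nat.div_lt_iff_lt_mul (by norm_num)]
    obtain ⟨k, rfl⟩ : ∃ k, n = k + 4 := ⟨n - 4, by omega⟩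
    have : k + 4 - 1 = k + 3 := by omega
    rw [this]
    nlinarith
  set κ : ℝ := ((n : ℝ) - 1) / ((n : ℝ) * (n - 1) - kap n ((n - 1) / 2)) with hκ
  have hltR : (kap n ((n - 1) / 2) : ℝ) < (n : ℝ) * (n - 1) := by
    have h1 : ((kap n ((n - 1) / 2) : ℕ) : ℝ) < ((n * (n - 1) : ℕ) : ℝ) := by exact_mod_cast hlt
    rwa [Nat.cast_mul, Nat.cast_sub (by omega : 1 ≤ n), Nat.cast_one] at h1
  have hκ0 : 0 < κ := div_pos (by linarith) (by linarith)
  have hsκ : s < 1 / 2 + κ := by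
    refine lt_of_lt_of_le hs (by
      refine add_le_add le_rfl ((min_le_right _ _).trans (le_of_eq ?_))
      rw [hκ, hk])
  have hmain := window (AllQ Q n) dsc (fun L hL => by
      obtain ⟨-, -, h⟩ := hL
      exact one_le_dsc L) hfin (κ := κ) (fun ε hε => by
      obtain ⟨c, hc, h⟩ := sum_lower (Ω := Ω) (Q₁ := Q) h4' (d := (n - 1) / 2) (by omega) (by omega)
        hlt hB hε
      refine ⟨c, hc, h.mono fun X hX => ?_⟩
      refine hX.trans (le_of_eq ?_)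
      congr 1
      ext L
      rw [Set.Finite.mem_toFinset, Set.Finite.mem_toFinset, QFld_eq]) (C := C) (A := A)
      (fun X hX => by
        rw [← QFld_eq]
        refine le_trans (Nat.cast_le.2 ?_) (hup X hX)
        exact Set.ncard_le_ncard (QFld_subset Q n X) (finite_Fld F Ω X))
      hκ0 hsκ
  simp only [QFld_eq]
  exact hmain

/-- Wreath products `S_k ≀ H`, absolute discriminants. -/
theorem G_window {K : Type} [Field K] [NumberField K] {Ω : Type} [Field Ω] [CharZero Ω]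
    [Algebra K Ω] [IsAlgClosed Ω] [Normal K Ω] {k h n : ℕ} (hk : 3 ≤ k)
    (H : Subgroup (Equiv.Perm (Fin h)))
    (hocc : ∃ Y, (GFld K Ω h H Y).Nonempty) (G : Subgroup (Equiv.Perm (Fin n)))
    (f : Fin n ≃ Fin h × Fin k)
    (hf : ∀ π : Equiv.Perm (Fin n), π ∈ G ↔ ∃ η ∈ H, ∀ i, (f (π i)).1 = η (f i).1) {C A : ℝ}
    (hup : ∀ X : ℝ, 1 ≤ X → ((Fld K Ω n X).ncard : ℝ) ≤ C * X ^ A) {s : ℝ}
    (hs : s < 1 / 2 + bet k) :
    ∃ δ : ℝ, 0 < δ ∧ ∀ᶠ X : ℝ in atTop, ∃ Y : ℝ, X ^ δ ≤ Y ∧ Y ≤ X ∧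
      Y ^ s ≤ ((GFld K Ω n G Y).ncard : ℝ) := by
  obtain ⟨Y0, F, hF, ⟨e0, he0⟩, hnf, -⟩ := hocc
  have : NumberField F := hnf
  have : IsScalarTower ℚ K F := IsScalarTower.of_algebraMap_eq' (Subsingleton.elim _ _)
  have : FiniteDimensional K F := FiniteDimensional.right ℚ K F
  have : Normal F Ω := Normal.tower_top_of_normal K F Ω
  have hn : n = h * k := by
    have := Fintype.card_congr f
    rwa [Fintype.card_prod, Fintype.card_fin, Fintype.card_fin, Fintype.card_fin] at this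
  have hup' := up_tower F (p := k) (C := C) (A := A) (by
    rw [hF, ← hn]
    exact hup)
  obtain ⟨δ, hδ, hwin⟩ := Q_window (F := F) (Ω := Ω) (Q := fun L => Full L ∧ Tr K L)
    (fun L h => h.1) hk (exists_baseW K F Ω hk) hup' hs
  refine ⟨δ, hδ, ?_⟩
  filter_upwards [hwin] with X ⟨Y, hXY, hYX, hY⟩
  refine ⟨Y, hXY, hYX, hY.trans ?_⟩
  let g : IntermediateField F Ω → IntermediateField K Ω := fun L => L.restrictScalars K
  have hg : Function.Injective g := restrictScalars_injective K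
  have h1 : (QFld (fun L : IntermediateField F Ω => Full L ∧ Tr K L) k Y).ncard ≤
      (GFld K Ω n G Y).ncard := by
    rw [← Set.ncard_image_of_injective _ hg]
    refine Set.ncard_le_ncard ?_ (finite_GFld K Ω G Y)
    rintro _ ⟨L, ⟨h1, ⟨h2, h3⟩, hnfL, h4⟩, rfl⟩
    have : FiniteDimensional F L := FiniteDimensional.of_finrank_pos (by omega)
    have : FiniteDimensional K L := FiniteDimensional.trans K F L
    have : Finite (L →ₐ[K] Ω) := inferInstance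
    refine ⟨?_, perm_iff K (by omega) L h1 h2 h3 H e0 he0 G f hf, hnfL, h4⟩
    rw [hn, ← hF, ← h1]
    exact (finrank_mul_finrank K F L).symm
  exact_mod_cast h1

/-- Wreath products `S_k ≀ H`, relative discriminants. -/
theorem G_window_rel {K : Type} [Field K] [NumberField K] {Ω : Type} [Field Ω] [CharZero Ω]
    [Algebra K Ω] [IsAlgClosed Ω] [Normal K Ω] {k h n : ℕ} (hk : 3 ≤ k)
    (H : Subgroup (Equiv.Perm (Fin h)))
    (hocc : ∃ Y, (GFld K Ω h H Y).Nonempty) (G : Subgroup (Equiv.Perm (Fin n)))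
    (f : Fin n ≃ Fin h × Fin k)
    (hf : ∀ π : Equiv.Perm (Fin n), π ∈ G ↔ ∃ η ∈ H, ∀ i, (f (π i)).1 = η (f i).1) {C A : ℝ}
    (hup : ∀ X : ℝ, 1 ≤ X → ((Fld K Ω n X).ncard : ℝ) ≤ C * X ^ A) {s : ℝ}
    (hs : s < 1 / 2 + bet k) {D : ℝ} (hD : 1 ≤ D) :
    ∃ δ : ℝ, 0 < δ ∧ ∀ᶠ X : ℝ in atTop, ∃ Y : ℝ, X ^ δ ≤ Y ∧ Y ≤ X ∧
      Y ^ s ≤ ((GFld K Ω n G (Y * D)).ncard : ℝ) := by
  obtain ⟨δ, hδ, h⟩ := G_window hk H hocc G f hf hup hs
  refine ⟨δ, hδ, ?_⟩
  filter_upwards [h, eventually_ge_atTop (1 : ℝ)] with X ⟨Y, h1, h2, h3⟩ hX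
  refine ⟨Y, h1, h2, h3.trans (Nat.cast_le.2 (Set.ncard_le_ncard ?_ (finite_GFld K Ω G _)))⟩
  rintro L ⟨h4, h5, h6, h7⟩
  have hY : 0 ≤ Y := le_trans (by positivity) h1
  exact ⟨h4, h5, h6, h7.trans (le_mul_of_one_le_right hY hD)⟩

end Pool.Agent.H26.Big
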