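import Mathlib

/-!
# The coefficients of a polynomial in terms of its values at the conjugates of a generator
-/

set_option autoImplicit false

open Module NumberField Polynomial IntermediateField

namespace Pool.Agent.H26.Big

section

variable {F L : Type} [Field F] [NumberField F] [Field L] [NumberField L] [Algebra F L]

/-- the size of the coefficients of `f / (X - θ)` -/
theorem norm_coeff_minpolyDiv_le {n : ℕ} (θ : L) (hn : (minpoly F θ).natDegree = n)
    (hint : IsIntegral F θ) {T : ℝ} (hT : 1 ≤ T) (φ : L →+* ℂ) (hθ : ‖φ θ‖ ≤ 2 * T ^ 2)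
    (hf : ∀ k < n, ‖φ (algebraMap F L ((minpoly F θ).coeff k))‖ ≤ 2 * T ^ (2 * (n - k)))
    (j k : ℕ) (hk : k + j + 1 = n) :
    ‖φ ((minpolyDiv F θ).coeff k)‖ ≤ (3 * 2 ^ j - 2) * T ^ (2 * j) := by
  induction j generalizing k with
  | zero =>
    have h1 : (minpolyDiv F θ).coeff k = 1 := by
      have h2 := minpolyDiv_monic (R := F) hint
      have h3 : (minpolyDiv F θ).natDegree = k := by
        rw [natDegree_minpolyDiv, hn]
        omega
      rw [← h3]
      exact h2
    rw [h1]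
    norm_num
  | succ j ih =>
    have h1 := ih (k + 1) (by omega)
    rw [coeff_minpolyDiv, map_add, map_mul]
    refine (norm_add_le _ _).trans ?_
    rw [norm_mul]
    have h2 := hf (k + 1) (by omega)
    have e1 : n - (k + 1) = j + 1 := by omega
    rw [e1] at h2
    have h6 : (1 : ℝ) ≤ 2 ^ j := one_le_pow₀ (by norm_num)
    have h3 : ‖φ ((minpolyDiv F θ).coeff (k + 1))‖ * ‖φ θ‖ ≤
        ((3 * 2 ^ j - 2) * T ^ (2 * j)) * (2 * T ^ 2) :=
      mul_le_mul h1 hθ (norm_nonneg _) (mul_nonneg (by linarith) (by positivity))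
    have h4 : T ^ (2 * (j + 1)) = T ^ (2 * j) * T ^ 2 := by rw [← pow_add]; ring_nf
    calc _ ≤ 2 * T ^ (2 * (j + 1)) + ((3 * 2 ^ j - 2) * T ^ (2 * j)) * (2 * T ^ 2) :=
          add_le_add h2 h3
      _ = (3 * 2 ^ (j + 1) - 2) * T ^ (2 * (j + 1)) := by rw [h4, pow_succ]; ring

/-- the coefficients of a polynomial in terms of its values at the conjugates of a generator -/
theorem norm_coeff_le {n : ℕ} (θ : L) (hgen : Algebra.adjoin F {θ} = ⊤)
    (hn : finrank F L = n) {T : ℝ} (hT : 1 ≤ T) (hθ : ∀ φ : L →+* ℂ, ‖φ θ‖ ≤ 2 * T ^ 2)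
    (hf : ∀ σ : F →+* ℂ, ∀ k < n, ‖σ ((minpoly F θ).coeff k)‖ ≤ 2 * T ^ (2 * (n - k)))
    (hd : ∀ φ : L →+* ℂ, T ^ (2 * (n - 1)) ≤ ‖φ (aeval θ (derivative (minpoly F θ)))‖)
    (h : F[X]) (hdeg : h.degree < n) {Y : ℝ} (hY : 0 ≤ Y)
    (hy : ∀ φ : L →+* ℂ, ‖φ (aeval θ h)‖ ≤ Y) (σ : F →+* ℂ) (k : ℕ) (hk : k < n) :
    ‖σ (h.coeff k)‖ * T ^ (2 * k) ≤ n * (3 * 2 ^ n) * Y := by
  have hsc : IsScalarTower ℚ F L := IsScalarTower.of_algebraMap_eq' (Subsingleton.elim _ _)
  have hfd : FiniteDimensional F L := Module.Finite.of_restrictScalars_finite ℚ F L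
  have hint : IsIntegral F θ := Algebra.IsIntegral.isIntegral θ
  let pb : PowerBasis F L := PowerBasis.ofAdjoinEqTop hint hgen
  have hgenα : pb.gen = θ := PowerBasis.ofAdjoinEqTop_gen hint hgen
  have hdim : pb.dim = n := by rw [← hn, pb.finrank]
  have hmin : (minpoly F θ).natDegree = n := by
    rw [← hgenα, pb.natDegree_minpoly, hdim]
  have hk' : k < pb.dim := by rw [hdim]; exact hk
  -- the coordinate
  have h1 : pb.basis.repr (aeval θ h) ⟨k, hk'⟩ = h.coeff k := by
    have h2 : aeval θ h = ∑ i : Fin pb.dim, h.coeff i • pb.basis i := by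
      have h3 : h.natDegree < pb.dim := by
        rw [hdim]
        by_cases h0 : h = 0
        · rw [h0, natDegree_zero]; omega
        · exact (natDegree_lt_iff_degree_lt h0).2 hdeg
      rw [aeval_eq_sum_range' h3, Finset.sum_range]
      refine Finset.sum_congr rfl fun i _ => ?_
      rw [pb.basis_eq_pow, hgenα]
    rw [h2, Basis.repr_sum_self]
  have h2 : h.coeff k = Algebra.trace F L (aeval θ h *
      ((minpolyDiv F θ).coeff k / aeval θ (derivative (minpoly F θ)))) := by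
    have h3 := Basis.traceDual_repr_apply (b := pb.basis.traceDual) (aeval θ h) ⟨k, hk'⟩
    rw [Basis.traceDual_traceDual, h1] at h3
    rw [h3, Algebra.traceForm_apply, Basis.traceDual_powerBasis_eq, hgenα]
  letI : Algebra F ℂ := σ.toAlgebra
  have h3 := trace_eq_sum_embeddings (K := F) (L := L) (E := ℂ) (x := aeval θ h *
      ((minpolyDiv F θ).coeff k / aeval θ (derivative (minpoly F θ))))
  rw [← h2] at h3
  have h4 : algebraMap F ℂ (h.coeff k) = σ (h.coeff k) := rfl
  rw [← h4, h3]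
  have hT0 : 0 < T := by linarith
  have h5 : ∀ φ : L →ₐ[F] ℂ, ‖φ (aeval θ h *
      ((minpolyDiv F θ).coeff k / aeval θ (derivative (minpoly F θ))))‖ ≤
      Y * (3 * 2 ^ n * T ^ (2 * (n - 1 - k)) / T ^ (2 * (n - 1))) := by
    intro φ
    rw [map_mul, map_div₀, norm_mul, norm_div]
    have h6 := norm_coeff_minpolyDiv_le θ hmin hint hT (φ : L →+* ℂ) (hθ φ) (by
      intro k hk
      have e1 : (φ : L →+* ℂ) (algebraMap F L ((minpoly F θ).coeff k)) =
          σ ((minpoly F θ).coeff k) := φ.commutes _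
      rw [e1]
      exact hf σ k hk) (n - 1 - k) k (by omega)
    have h7 : (3 * 2 ^ (n - 1 - k) - 2 : ℝ) ≤ 3 * 2 ^ n := by
      have : (2 : ℝ) ^ (n - 1 - k) ≤ 2 ^ n := pow_le_pow_right₀ (by norm_num) (by omega)
      linarith
    refine mul_le_mul (hy φ) ?_ (by positivity) hY
    refine div_le_div₀ (by positivity) (h6.trans ?_) (by positivity) (hd φ)
    exact mul_le_mul_of_nonneg_right h7 (by positivity)
  have h6 : ‖∑ φ : L →ₐ[F] ℂ, φ (aeval θ h *
      ((minpolyDiv F θ).coeff k / aeval θ (derivative (minpoly F θ))))‖ ≤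
      n * (Y * (3 * 2 ^ n * T ^ (2 * (n - 1 - k)) / T ^ (2 * (n - 1)))) := by
    refine (norm_sum_le _ _).trans ((Finset.sum_le_sum fun φ _ => h5 φ).trans (le_of_eq ?_))
    rw [Finset.sum_const, nsmul_eq_mul]
    congr 1
    rw [Finset.card_univ, AlgHom.card F L ℂ, hn]
  have h8 : T ^ (2 * (n - 1)) = T ^ (2 * (n - 1 - k)) * T ^ (2 * k) := by
    rw [← pow_add]
    congr 1
    omega
  calc _ ≤ n * (Y * (3 * 2 ^ n * T ^ (2 * (n - 1 - k)) / T ^ (2 * (n - 1)))) * T ^ (2 * k) :=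
        mul_le_mul_of_nonneg_right h6 (by positivity)
    _ = _ := by
        rw [h8]
        field_simp

end

end Pool.Agent.H26.Big
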