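import Pool.Agent.H26.Big.Span

/-!
# Reduction modulo the products of short polynomials
-/

set_option autoImplicit false

open Module NumberField Polynomial

namespace Pool.Agent.H26.Big

open Pool.Agent.Helper313LB

section

variable {F : Type} [Field F] [NumberField F]

/-- the coefficients of a product -/
noncomputable def prd {R : Type} [CommRing R] (d : ℕ) (a b : Fin (d + 1) → R) :
    Fin (2 * d + 1) → R := fun k => (pol a * pol b).coeff k

theorem pol_prd {R : Type} [CommRing R] (d : ℕ) (a b : Fin (d + 1) → R) :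
    pol (prd d a b) = pol a * pol b := by
  refine pol_coeff _ ?_
  rw [degree_lt_iff_coeff_zero]
  intro k hk
  rw [coeff_mul]
  refine Finset.sum_eq_zero fun x hx => ?_
  rw [Finset.HasAntidiagonal.mem_antidiagonal] at hx
  rw [coeff_pol, coeff_pol]
  split_ifs with h1 h2
  · omega
  · rw [mul_zero]
  · rw [zero_mul]
  · rw [zero_mul]

theorem pol_single {R : Type} [CommRing R] {k : ℕ} (i : Fin k) (c : R) :
    pol (Pi.single i c) = C c * X ^ (i : ℕ) := by
  rw [pol, Finset.sum_eq_single i]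
  · rw [Pi.single_eq_same]
  · intro b _ hb
    rw [Pi.single_eq_of_ne hb, C_0, zero_mul]
  · intro h
    exact absurd (Finset.mem_univ _) h

theorem prd_single {R : Type} [CommRing R] (d : ℕ) (i j : Fin (d + 1)) (c : R) :
    prd d (Pi.single i c) (Pi.single j 1) =
      Pi.single (⟨(i : ℕ) + j, by have := i.2; have := j.2; omega⟩ : Fin (2 * d + 1)) c := by
  funext k
  rw [prd, pol_single, pol_single, C_1, one_mul, mul_assoc, ← pow_add, coeff_C_mul, coeff_X_pow]
  by_cases h : (k : ℕ) = i + j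
  · have h1 : k = (⟨(i : ℕ) + j, by have := i.2; have := j.2; omega⟩ : Fin (2 * d + 1)) := Fin.ext h
    rw [if_pos h, mul_one, h1, Pi.single_eq_same]
  · have h1 : k ≠ (⟨(i : ℕ) + j, by have := i.2; have := j.2; omega⟩ : Fin (2 * d + 1)) :=
      fun h' => h (by rw [h'])
    rw [if_neg h, mul_zero, Pi.single_eq_of_ne h1]

theorem prd_coe (d : ℕ) (v w : Fin (d + 1) → 𝓞 F) :
    prd d (fun i => (v i : F)) (fun i => (w i : F)) = fun k => ((prd d v w k : 𝓞 F) : F) := by
  funext k
  have h1 := pol_map (algebraMap (𝓞 F) F) v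
  have h2 := pol_map (algebraMap (𝓞 F) F) w
  rw [prd, prd]
  change (pol (fun i => algebraMap (𝓞 F) F (v i)) * pol (fun i => algebraMap (𝓞 F) F (w i))).coeff k =
    algebraMap (𝓞 F) F _
  rw [← h1, ← h2, ← Polynomial.map_mul, coeff_map]

/-- the bilinear map -/
noncomputable def prdL (F : Type) [Field F] [NumberField F] (d : ℕ) :
    (Fin (d + 1) → F) →ₗ[ℚ] (Fin (d + 1) → F) →ₗ[ℚ] (Fin (2 * d + 1) → F) :=
  LinearMap.mk₂ ℚ (fun a b => prd d a b)
    (fun a a' b => by
      funext k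
      simp only [prd, pol_add, add_mul, coeff_add, Pi.add_apply])
    (fun q a b => by
      funext k
      have h1 : pol (q • a) = C (q : F) * pol a := by
        ext j
        rw [coeff_C_mul, coeff_pol, coeff_pol]
        split_ifs
        · rw [Pi.smul_apply, Algebra.smul_def, eq_ratCast]
        · rw [mul_zero]
      change (pol (q • a) * pol b).coeff k = q • (pol a * pol b).coeff k
      rw [h1, mul_assoc, coeff_C_mul, Algebra.smul_def, eq_ratCast])
    (fun a b b' => by
      funext k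
      simp only [prd, pol_add, mul_add, coeff_add, Pi.add_apply])
    (fun q a b => by
      funext k
      have h1 : pol (q • b) = C (q : F) * pol b := by
        ext j
        rw [coeff_C_mul, coeff_pol, coeff_pol]
        split_ifs
        · rw [Pi.smul_apply, Algebra.smul_def, eq_ratCast]
        · rw [mul_zero]
      have h2 : pol a * (C (q : F) * pol b) = C (q : F) * (pol a * pol b) := by ring
      change (pol a * pol (q • b)).coeff k = q • (pol a * pol b).coeff k
      rw [h1, h2, coeff_C_mul, Algebra.smul_def, eq_ratCast])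

/-- the products span -/
theorem span_prd {n d : ℕ} {T c : ℝ} {m r : 𝓞 F} (h : Good F n d T c m r) :
    Submodule.span ℚ {z : Fin (2 * d + 1) → F | ∃ v ∈ SmI F n d T c m r, ∃ w ∈ SmI F n d T c m r,
      z = fun k => ((prd d v w k : 𝓞 F) : F)} = ⊤ := by
  set Pr := {z : Fin (2 * d + 1) → F | ∃ v ∈ SmI F n d T c m r, ∃ w ∈ SmI F n d T c m r,
      z = fun k => ((prd d v w k : 𝓞 F) : F)} with hPr
  have hmem : ∀ a b : Fin (d + 1) → F, prd d a b ∈ Submodule.span ℚ Pr := by
    intro a b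
    have h1 := LinearMap.BilinMap.apply_apply_mem_of_mem_span (Submodule.span ℚ Pr)
      ((fun (v : Fin (d + 1) → 𝓞 F) (i : Fin (d + 1)) => (v i : F)) '' SmI F n d T c m r)
      ((fun (v : Fin (d + 1) → 𝓞 F) (i : Fin (d + 1)) => (v i : F)) '' SmI F n d T c m r)
      (prdL F d) (by
        rintro _ ⟨v, hv, rfl⟩ _ ⟨w, hw, rfl⟩
        exact Submodule.subset_span ⟨v, hv, w, hw, prd_coe d v w⟩) a b
      (by
        have : Submodule.span ℚ ((fun (v : Fin (d + 1) → 𝓞 F) (i : Fin (d + 1)) => (v i : F)) ''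
          SmI F n d T c m r) = ⊤ := h
        rw [this]
        trivial) (by
        have : Submodule.span ℚ ((fun (v : Fin (d + 1) → 𝓞 F) (i : Fin (d + 1)) => (v i : F)) ''
          SmI F n d T c m r) = ⊤ := h
        rw [this]
        trivial)
    exact h1
  rw [eq_top_iff]
  intro z _
  rw [← Finset.univ_sum_single z]
  refine Submodule.sum_mem _ fun k _ => ?_
  have hk := k.2
  have h2 := prd_single d (⟨min (k : ℕ) d, by omega⟩ : Fin (d + 1))
    (⟨(k : ℕ) - min (k : ℕ) d, by omega⟩ : Fin (d + 1)) (z k)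
  have h3 : (⟨((⟨min (k : ℕ) d, by omega⟩ : Fin (d + 1)) : ℕ) +
      ((⟨(k : ℕ) - min (k : ℕ) d, by omega⟩ : Fin (d + 1)) : ℕ), by
        change min (k : ℕ) d + ((k : ℕ) - min (k : ℕ) d) < 2 * d + 1
        omega⟩ : Fin (2 * d + 1)) = k := Fin.ext (by
    change min (k : ℕ) d + ((k : ℕ) - min (k : ℕ) d) = k
    omega)
  rw [h3] at h2
  rw [← h2]
  exact hmem _ _

/-- the size of the coefficients of the product -/
theorem prd_size {n d : ℕ} (hdn : 2 * d ≤ n) {T c : ℝ} (hT : 1 ≤ T) (hc : 0 ≤ c) {m r : 𝓞 F}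
    {v w : Fin (d + 1) → 𝓞 F} (hv : v ∈ SmI F n d T c m r) (hw : w ∈ SmI F n d T c m r)
    (k : Fin (2 * d + 1)) (σ : F →+* ℂ) :
    ‖σ ((prd d v w k : 𝓞 F) : F)‖ ≤ (2 * d + 1) * (c ^ 2 * T ^ (2 * n - 2 * (k : ℕ))) := by
  have hT0 : 0 < T := by linarith
  have h1 : ((prd d v w k : 𝓞 F) : F) = ∑ x ∈ Finset.HasAntidiagonal.antidiagonal (k : ℕ),
      (((pol v).coeff x.1 : 𝓞 F) : F) * (((pol w).coeff x.2 : 𝓞 F) : F) := by
    rw [prd, coeff_mul]
    simp
  rw [h1, map_sum]
  refine (norm_sum_le _ _).trans ?_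
  have h2 : ∀ x ∈ Finset.HasAntidiagonal.antidiagonal (k : ℕ),
      ‖σ ((((pol v).coeff x.1 : 𝓞 F) : F) * (((pol w).coeff x.2 : 𝓞 F) : F))‖ ≤
        c ^ 2 * T ^ (2 * n - 2 * (k : ℕ)) := by
    intro x hx
    rw [Finset.HasAntidiagonal.mem_antidiagonal] at hx
    rw [map_mul, norm_mul, coeff_pol, coeff_pol]
    split_ifs with h3 h4
    · have h5 := hv.1 ⟨x.1, h3⟩ σ
      have h6 := hw.1 ⟨x.2, h4⟩ σ
      have h7 : T ^ (2 * n - 2 * (k : ℕ)) = T ^ (n - 2 * x.1) * T ^ (n - 2 * x.2) := by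
        rw [← pow_add]
        congr 1
        omega
      calc _ ≤ (c * T ^ (n - 2 * x.1)) * (c * T ^ (n - 2 * x.2)) :=
            mul_le_mul h5 h6 (norm_nonneg _) (by positivity)
        _ = _ := by rw [h7]; ring
    · simp only [map_zero, norm_zero, mul_zero]
      positivity
    · simp only [map_zero, norm_zero, zero_mul]
      positivity
    · simp only [map_zero, norm_zero, zero_mul]
      positivity
  refine (Finset.sum_le_sum h2).trans ?_
  rw [Finset.sum_const, Finset.Nat.card_antidiagonal, nsmul_eq_mul]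
  refine mul_le_mul_of_nonneg_right ?_ (by positivity)
  have := k.2
  push_cast
  have h3 : (k : ℝ) + 1 ≤ 2 * d + 1 := by exact_mod_cast this
  exact h3

theorem prd_eval {n d : ℕ} {T c : ℝ} {m r : 𝓞 F} {v w : Fin (d + 1) → 𝓞 F}
    (hv : v ∈ SmI F n d T c m r) (hw : w ∈ SmI F n d T c m r) :
    m ^ 2 ∣ (pol (prd d v w)).eval r ∧ m ∣ (derivative (pol (prd d v w))).eval r := by
  rw [pol_prd]
  constructor
  · rw [eval_mul, sq]
    exact mul_dvd_mul hv.2 hw.2
  · rw [derivative_mul, eval_add, eval_mul, eval_mul]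
    exact dvd_add (hw.2.mul_left _) (hv.2.mul_right _)

theorem pol_zsmul_sum {R ι : Type} [CommRing R] {k : ℕ} (s : Finset ι) (c : ι → ℤ)
    (y : ι → Fin k → R) : pol (∑ i ∈ s, c i • y i) = ∑ i ∈ s, C ((c i : ℤ) : R) * pol (y i) := by
  ext j
  rw [finsetSum_coeff, coeff_pol]
  simp only [coeff_C_mul, coeff_pol]
  split_ifs with h
  · rw [Finset.sum_apply]
    refine Finset.sum_congr rfl fun i _ => ?_
    rw [Pi.smul_apply, zsmul_eq_mul]
  · simp

/-- reduction modulo the products -/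
theorem exists_reduction {n d : ℕ} (hdn : 2 * d ≤ n) {T c : ℝ} (hT : 1 ≤ T) (hc : 0 ≤ c)
    {m r : 𝓞 F} (h : Good F n d T c m r) (M : ℕ) (hM : 1 ≤ M) (x : Fin (2 * d + 1) → 𝓞 F) :
    ∃ x' y : Fin (2 * d + 1) → 𝓞 F, (∀ k, x k = x' k + (M : 𝓞 F) * y k) ∧
      m ^ 2 ∣ (pol y).eval r ∧ m ∣ (derivative (pol y)).eval r ∧
      ∀ k, ∀ σ : F →+* ℂ, ‖σ (x' k : F)‖ ≤
        (finrank ℚ F * (2 * d + 1) * (2 * d + 1)) * c ^ 2 * M * T ^ (2 * n - 2 * (k : ℕ)) := by
  classical
  have hT0 : 0 < T := by linarith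
  have hMR : (1 : ℝ) ≤ M := by exact_mod_cast hM
  have hM0 : (M : ℚ) ≠ 0 := by exact_mod_cast (by omega : M ≠ 0)
  have hspan := span_prd h
  set Pr := {z : Fin (2 * d + 1) → F | ∃ v ∈ SmI F n d T c m r, ∃ w ∈ SmI F n d T c m r,
      z = fun k => ((prd d v w k : 𝓞 F) : F)} with hPr
  obtain ⟨b, hb1, hb2, hb3⟩ := exists_linearIndependent ℚ Pr
  rw [hspan] at hb2
  have : Finite b := hb3.finite
  have : Fintype b := Fintype.ofFinite _
  have hcard : Fintype.card b ≤ finrank ℚ F * (2 * d + 1) := by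
    refine (hb3.fintype_card_le_finrank).trans (le_of_eq ?_)
    rw [Module.finrank_pi_fintype, Finset.sum_const, Finset.card_univ, smul_eq_mul,
      Fintype.card_fin, mul_comm]
  have hx : (fun k => (x k : F)) ∈ Submodule.span ℚ (Set.range fun i : b => (i : Fin (2 * d + 1) → F)) := by
    rw [Subtype.range_coe, hb2]
    trivial
  obtain ⟨q, hq⟩ := (Submodule.mem_span_range_iff_exists_fun ℚ).1 hx
  have hex : ∀ i : b, ∃ v w : Fin (d + 1) → 𝓞 F, v ∈ SmI F n d T c m r ∧ w ∈ SmI F n d T c m r ∧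
      (i : Fin (2 * d + 1) → F) = fun k => ((prd d v w k : 𝓞 F) : F) := by
    intro i
    obtain ⟨v, hv, w, hw, h1⟩ := hb1 i.2
    exact ⟨v, w, hv, hw, h1⟩
  choose v w hv hw hvw using hex
  let e : b → ℤ := fun i => ⌊q i / M⌋
  let y : Fin (2 * d + 1) → 𝓞 F := ∑ i, e i • prd d (v i) (w i)
  have hy : ∀ k, y k = ∑ i, (e i : 𝓞 F) * prd d (v i) (w i) k := by
    intro k
    simp only [y, Finset.sum_apply]
    exact Finset.sum_congr rfl fun i _ => by rw [Pi.smul_apply, zsmul_eq_mul]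
  refine ⟨fun k => x k - (M : 𝓞 F) * y k, y, fun k => by ring, ?_, ?_, ?_⟩
  · rw [show y = ∑ i, e i • prd d (v i) (w i) from rfl, pol_zsmul_sum, eval_finsetSum]
    refine Finset.dvd_sum fun i _ => ?_
    rw [eval_mul]
    exact (prd_eval (hv i) (hw i)).1.mul_left _
  · rw [show y = ∑ i, e i • prd d (v i) (w i) from rfl, pol_zsmul_sum, derivative_sum,
      eval_finsetSum]
    refine Finset.dvd_sum fun i _ => ?_
    rw [derivative_C_mul, eval_mul]
    exact (prd_eval (hv i) (hw i)).2.mul_left _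
  · intro k σ
    have h1 : (x k : F) = ∑ i, (q i : F) * ((prd d (v i) (w i) k : 𝓞 F) : F) := by
      have h2 := congrFun hq k
      rw [Finset.sum_apply] at h2
      rw [← h2]
      refine Finset.sum_congr rfl fun i _ => ?_
      rw [Pi.smul_apply, hvw i, Algebra.smul_def, eq_ratCast]
    have h2 : ((x k - (M : 𝓞 F) * y k : 𝓞 F) : F) =
        ∑ i, ((q i - M * e i : ℚ) : F) * ((prd d (v i) (w i) k : 𝓞 F) : F) := by
      have h3 : ((x k - (M : 𝓞 F) * y k : 𝓞 F) : F) = (x k : F) - (M : F) * (y k : F) := by simp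
      have h4 : ((y k : 𝓞 F) : F) = ∑ i, (e i : F) * ((prd d (v i) (w i) k : 𝓞 F) : F) := by
        rw [hy]
        simp
      rw [h3, h1, h4, Finset.mul_sum, ← Finset.sum_sub_distrib]
      refine Finset.sum_congr rfl fun i _ => ?_
      push_cast
      ring
    rw [h2, map_sum]
    refine (norm_sum_le _ _).trans ?_
    have h3 : ∀ i ∈ Finset.univ, ‖σ (((q i - M * e i : ℚ) : F) *
        ((prd d (v i) (w i) k : 𝓞 F) : F))‖ ≤
        M * ((2 * d + 1) * (c ^ 2 * T ^ (2 * n - 2 * (k : ℕ)))) := by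
      intro i _
      rw [map_mul, norm_mul, map_ratCast]
      refine mul_le_mul ?_ (prd_size hdn hT hc (hv i) (hw i) k σ) (norm_nonneg _) (by positivity)
      have h4 : q i - M * e i = M * Int.fract (q i / M) := by
        rw [← Int.self_sub_floor, mul_sub, mul_div_cancel₀ _ hM0]
      rw [h4]
      have h5 := Int.fract_nonneg (q i / M)
      have h6 := (Int.fract_lt_one (q i / M)).le
      have h7 : ((M * Int.fract (q i / M) : ℚ) : ℂ) = (((M * Int.fract (q i / M) : ℚ) : ℝ) : ℂ) :=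
        (Complex.ofReal_ratCast _).symm
      rw [h7, Complex.norm_real, Real.norm_eq_abs]
      have h8 : (0 : ℝ) ≤ ((Int.fract (q i / M) : ℚ) : ℝ) := by exact_mod_cast h5
      have h9 : ((Int.fract (q i / M) : ℚ) : ℝ) ≤ 1 := by exact_mod_cast h6
      rw [Rat.cast_mul, Rat.cast_natCast]
      have h10 : (0 : ℝ) ≤ M * ((Int.fract (q i / M) : ℚ) : ℝ) := by positivity
      rw [abs_of_nonneg h10]
      nlinarith
    refine (Finset.sum_le_sum h3).trans ?_
    rw [Finset.sum_const, nsmul_eq_mul, Finset.card_univ]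
    have h4 : (Fintype.card b : ℝ) ≤ finrank ℚ F * (2 * d + 1) := by exact_mod_cast hcard
    calc (Fintype.card b : ℝ) * (M * ((2 * d + 1) * (c ^ 2 * T ^ (2 * n - 2 * (k : ℕ))))) ≤
          (finrank ℚ F * (2 * d + 1)) * (M * ((2 * d + 1) * (c ^ 2 * T ^ (2 * n - 2 * (k : ℕ))))) :=
          mul_le_mul_of_nonneg_right h4 (by positivity)
      _ = _ := by ring

end

end Pool.Agent.H26.Big
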