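import Pool.Agent.H26.Big.Cover

/-!
# The family of the monic polynomials with a double root modulo a given number
-/

set_option autoImplicit false

open Module NumberField Polynomial

namespace Pool.Agent.H26.Big

open Pool.Agent.Helper313LB

section

variable {F : Type} [Field F] [NumberField F]

/-- the center of the box -/
noncomputable def ctr (n : ℕ) (T : ℝ) (k : ℕ) : ℂ := if k = 0 then -((T ^ (2 * n) : ℝ) : ℂ) else 0

/-- the coefficients of the polynomials of the family -/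
def Fam (F : Type) [Field F] [NumberField F] (n : ℕ) (T ε : ℝ) (M : ℕ) (a₀ : Fin n → 𝓞 F)
    (m r : 𝓞 F) : Set (Fin n → 𝓞 F) :=
  {a | (∀ k, (M : 𝓞 F) ∣ a k - a₀ k) ∧
    (∀ k : Fin n, ∀ σ : F →+* ℂ, ‖σ (a k : F) - ctr n T k‖ ≤ ε * T ^ (2 * (n - (k : ℕ)))) ∧
    m ^ 2 ∣ (mp a).eval r ∧ m ∣ (derivative (mp a)).eval r}

theorem norm_ctr_le {n : ℕ} {T : ℝ} (hT : 1 ≤ T) (k : ℕ) : ‖ctr n T k‖ ≤ T ^ (2 * (n - k)) := by
  have hT0 : 0 < T := by linarith
  rw [ctr]
  split_ifs with h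
  · rw [norm_neg, Complex.norm_real, Real.norm_eq_abs, abs_of_pos (by positivity), h, Nat.sub_zero]
  · rw [norm_zero]
    positivity

theorem finite_Fam (n : ℕ) {T ε : ℝ} (hT : 1 ≤ T) (M : ℕ) (a₀ : Fin n → 𝓞 F)
    (m r : 𝓞 F) : (Fam F n T ε M a₀ m r).Finite := by
  have hT0 : 0 < T := by linarith
  refine (Set.Finite.pi' fun k : Fin n =>
    finite_Box F ((ε + 1) * T ^ (2 * (n - (k : ℕ))))).subset ?_
  intro a ha k σ
  have h1 := ha.2.1 k σ
  have h2 := norm_ctr_le (n := n) hT k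
  have h3 : ‖σ (a k : F)‖ ≤ ‖σ (a k : F) - ctr n T k‖ + ‖ctr n T k‖ := by
    have := norm_add_le (σ (a k : F) - ctr n T k) (ctr n T k)
    rwa [sub_add_cancel] at this
  calc ‖σ (a k : F)‖ ≤ ε * T ^ (2 * (n - (k : ℕ))) + T ^ (2 * (n - (k : ℕ))) :=
        h3.trans (add_le_add h1 h2)
    _ = _ := by ring

theorem absNorm_sq (m : 𝓞 F) : Ideal.absNorm (Ideal.span {m ^ 2}) =
    Ideal.absNorm (Ideal.span {m}) ^ 2 := by
  rw [← Ideal.span_singleton_pow, map_pow]

theorem card_quot (m : 𝓞 F) [Fintype (𝓞 F ⧸ Ideal.span {m})] :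
    Fintype.card (𝓞 F ⧸ Ideal.span {m}) = Ideal.absNorm (Ideal.span {m}) := by
  rw [Ideal.absNorm_apply, Submodule.cardQuot_apply, Nat.card_eq_fintype_card]

theorem finite_quot {m : 𝓞 F} (hm : m ≠ 0) : Finite (𝓞 F ⧸ Ideal.span {m}) :=
  Ideal.finiteQuotientOfFreeOfNeBot _ fun h => hm (Ideal.span_singleton_eq_bot.1 h)

theorem sum_exp (n : ℕ) : ∑ k : Fin n, 2 * (n - (k : ℕ)) = n * (n + 1) := by
  rw [Fin.sum_univ_eq_sum_range (fun k => 2 * (n - k)) n]
  have h : ∀ m : ℕ, ∀ s : ℕ, ∑ k ∈ Finset.range m, 2 * (m + s - k) = m * (m + 1) + 2 * s * m := by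
    intro m
    induction m with
    | zero => intro s; simp
    | succ m ih =>
      intro s
      rw [Finset.sum_range_succ]
      have h1 := ih (s + 1)
      have h2 : ∑ k ∈ Finset.range m, 2 * (m + 1 + s - k) =
          ∑ k ∈ Finset.range m, 2 * (m + (s + 1) - k) := by
        refine Finset.sum_congr rfl fun k _ => ?_
        congr 2
        ring
      rw [h2, h1]
      have h3 : m + 1 + s - m = s + 1 := by omega
      rw [h3]
      ring
  have := h n 0
  simpa using this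

/-- the lower bound for the number of the polynomials -/
theorem exists_le_Fam (F : Type) [Field F] [NumberField F] {n d : ℕ} (hd : 1 ≤ d)
    (hdn : 2 * d + 1 ≤ n) {ε : ℝ} (hε : 0 < ε) (M : ℕ) (hM : 1 ≤ M) (a₀ : Fin n → 𝓞 F) :
    ∃ c₀ c T₀ : ℝ, 0 < c₀ ∧ 0 < c ∧ 1 ≤ T₀ ∧ ∀ T : ℝ, T₀ ≤ T → ∀ c₁ : ℝ, 0 ≤ c₁ → c₁ ≤ c₀ →
      ∀ m r : 𝓞 F, m ≠ 0 →
      (∃ u : 𝓞 F, m = 1 + M * u) → Good F n d T c₁ m r →
      c * T ^ (finrank ℚ F * (n * (n + 1))) ≤
        (Ideal.absNorm (Ideal.span {m}) : ℝ) ^ 3 * ((Fam F n T ε M a₀ m r).ncard : ℝ) := by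
  classical
  obtain ⟨cB, hcB, hBox⟩ := exists_le_ncard_Box F
  set D := finrank ℚ F with hD
  have hD0 : 0 < D := finrank_pos
  have hDR : (0 : ℝ) < D := by exact_mod_cast hD0
  have hMR : (1 : ℝ) ≤ M := by exact_mod_cast hM
  have hM0 : (M : 𝓞 F) ≠ 0 := by exact_mod_cast (by omega : M ≠ 0)
  set K : ℝ := D * (2 * d + 1) * (2 * d + 1) with hK
  have hK0 : 0 < K := by positivity
  obtain ⟨D₁, hD₁⟩ : ∃ D : ℝ, ∀ (j : Fin n) (σ : F →+* ℂ), ‖σ (a₀ j : F)‖ ≤ D := by
    obtain ⟨D, hD⟩ := (Set.finite_range fun x : Fin n × (F →+* ℂ) =>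
      ‖x.2 (a₀ x.1 : F)‖).bddAbove
    exact ⟨D, fun j σ => hD ⟨(j, σ), rfl⟩⟩
  have hD₁0 : 0 ≤ D₁ := by
    obtain ⟨σ⟩ : Nonempty (F →+* ℂ) := inferInstance
    exact (norm_nonneg _).trans (hD₁ ⟨0, by omega⟩ σ)
  set c₀ : ℝ := Real.sqrt (ε / (4 * K * M)) with hc₀
  have hc₀pos : 0 < c₀ := Real.sqrt_pos.2 (by positivity)
  have hc₀sq : c₀ ^ 2 = ε / (4 * K * M) := Real.sq_sqrt (by positivity)
  refine ⟨c₀, ∏ k : Fin n, (cB * (ε / (4 * M)) ^ D), max 1 (4 * (D₁ + M) / ε), hc₀pos,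
    Finset.prod_pos fun k _ => by positivity, le_max_left _ _, ?_⟩
  intro T hT c₁ hc₁ hc₁₀ m r hm ⟨u, hu⟩ hgood
  have hT1 : 1 ≤ T := (le_max_left _ _).trans hT
  have hT2 : 4 * (D₁ + M) / ε ≤ T := (le_max_right _ _).trans hT
  have hT0 : 0 < T := by linarith
  have hm2 : m ^ 2 ≠ 0 := pow_ne_zero 2 hm
  have := finite_quot hm
  have := finite_quot hm2
  have : Fintype (𝓞 F ⧸ Ideal.span {m}) := Fintype.ofFinite _
  have : Fintype (𝓞 F ⧸ Ideal.span {m ^ 2}) := Fintype.ofFinite _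
  -- the center
  let cc : Fin n → 𝓞 F := fun k =>
    if (k : ℕ) = 0 then a₀ k - (M : 𝓞 F) * ((⌊T ^ (2 * n) / M⌋ : ℤ) : 𝓞 F) else a₀ k
  have hccM : ∀ k, (M : 𝓞 F) ∣ cc k - a₀ k := by
    intro k
    simp only [cc]
    split_ifs
    · exact ⟨-((⌊T ^ (2 * n) / M⌋ : ℤ) : 𝓞 F), by ring⟩
    · simp
  have hccs : ∀ k : Fin n, ∀ σ : F →+* ℂ,
      ‖σ (cc k : F) - ctr n T k‖ ≤ ε / 4 * T ^ (2 * (n - (k : ℕ))) := by
    intro k σ
    have h1 : D₁ + M ≤ ε / 4 * T ^ (2 * (n - (k : ℕ))) := by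
      have h2 : T ≤ T ^ (2 * (n - (k : ℕ))) := le_self_pow₀ hT1 (by have := k.2; omega)
      rw [div_le_iff₀ hε] at hT2
      nlinarith
    refine le_trans ?_ h1
    by_cases hk : (k : ℕ) = 0
    · have e1 : (cc k : F) = (a₀ k : F) - (M : F) * ((⌊T ^ (2 * n) / M⌋ : ℤ) : F) := by
        simp only [cc, if_pos hk]
        simp
      have e2 : ctr n T k = -((T ^ (2 * n) : ℝ) : ℂ) := by rw [ctr, if_pos hk]
      have e3 : σ (cc k : F) - ctr n T k = σ (a₀ k : F) +
          ((M * Int.fract (T ^ (2 * n) / M) : ℝ) : ℂ) := by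
        rw [e1, e2, ← Int.self_sub_floor, mul_sub, mul_div_cancel₀ _ (by positivity)]
        simp only [map_sub, map_mul, map_natCast, map_intCast]
        push_cast
        ring
      rw [e3]
      refine (norm_add_le _ _).trans (add_le_add (hD₁ k σ) ?_)
      rw [Complex.norm_real, Real.norm_eq_abs, abs_of_nonneg (by positivity)]
      have := (Int.fract_lt_one (T ^ (2 * n) / M)).le
      nlinarith
    · have e1 : cc k = a₀ k := by simp only [cc, if_neg hk]
      have e2 : ctr n T k = 0 := by rw [ctr, if_neg hk]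
      rw [e1, e2, sub_zero]
      linarith [hD₁ k σ]
  -- the box
  let B : Fin n → Finset (𝓞 F) := fun k =>
    (finite_Box F (ε / (4 * M) * T ^ (2 * (n - (k : ℕ))))).toFinset
  let S₀ : Finset (Fin n → 𝓞 F) := Fintype.piFinset B
  have hS₀ : ∀ v, v ∈ S₀ ↔ ∀ k : Fin n, v k ∈ Box F (ε / (4 * M) * T ^ (2 * (n - (k : ℕ)))) := by
    intro v
    rw [Fintype.mem_piFinset]
    exact forall_congr' fun i => Set.Finite.mem_toFinset _
  have hcard : (∏ k : Fin n, (cB * (ε / (4 * M)) ^ D)) * T ^ (D * (n * (n + 1))) ≤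
      (S₀.card : ℝ) := by
    rw [Fintype.card_piFinset, Nat.cast_prod, ← sum_exp, Finset.mul_sum,
      ← Finset.prod_pow_eq_pow_sum, ← Finset.prod_mul_distrib]
    refine Finset.prod_le_prod (fun i _ => by positivity) fun k _ => ?_
    have h1 := hBox (ε / (4 * M) * T ^ (2 * (n - (k : ℕ)))) (by positivity)
    rw [Set.ncard_eq_toFinset_card _ (finite_Box F _)] at h1
    refine le_trans (le_of_eq ?_) h1
    rw [mul_pow, ← pow_mul, mul_comm D (2 * (n - (k : ℕ))), mul_assoc]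
  have hne : S₀.Nonempty := ⟨0, (hS₀ 0).2 fun i σ => by
    simp only [Pi.zero_apply, map_zero, norm_zero]
    positivity⟩
  let f₀ : (Fin n → 𝓞 F) → (𝓞 F)[X] := fun v => mp (cc + (M : 𝓞 F) • v)
  obtain ⟨v₀, hv₀, hfib⟩ := exists_fiber S₀ hne
    (fun v => ((Ideal.Quotient.mk (Ideal.span {m ^ 2}) ((f₀ v).eval r)),
      (Ideal.Quotient.mk (Ideal.span {m}) ((derivative (f₀ v)).eval r)))) Finset.univ
    fun a _ => Finset.mem_univ _
  rw [Finset.card_univ, Fintype.card_prod, card_quot m, card_quot (m ^ 2), absNorm_sq] at hfib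
  set S₁ := S₀.filter fun v => ((Ideal.Quotient.mk (Ideal.span {m ^ 2}) ((f₀ v).eval r)),
      (Ideal.Quotient.mk (Ideal.span {m}) ((derivative (f₀ v)).eval r))) =
    ((Ideal.Quotient.mk (Ideal.span {m ^ 2}) ((f₀ v₀).eval r)),
      (Ideal.Quotient.mk (Ideal.span {m}) ((derivative (f₀ v₀)).eval r))) with hS₁
  have hNpos : (0 : ℝ) < Ideal.absNorm (Ideal.span {m}) := by
    rw [← card_quot m]
    exact_mod_cast Fintype.card_pos
  -- the correction
  set A := (f₀ v₀).eval r with hA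
  set A' := (derivative (f₀ v₀)).eval r with hA'
  set px : (𝓞 F)[X] := C (-(1 - m ^ 2)) * (C A + C A' * (X - C r)) with hpx
  have hpxdeg : px.degree < (2 * d + 1 : ℕ) := by
    have h1 : px.natDegree ≤ 1 := by
      rw [hpx]
      refine (natDegree_C_mul_le _ _).trans ?_
      refine (natDegree_add_le _ _).trans (max_le ?_ ?_)
      · rw [natDegree_C]; omega
      · refine (natDegree_C_mul_le _ _).trans ?_
        rw [natDegree_X_sub_C]
    refine lt_of_le_of_lt degree_le_natDegree ?_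
    exact_mod_cast (by omega : px.natDegree < 2 * d + 1)
  have hpxM : ∀ k, (M : 𝓞 F) ∣ px.coeff k := by
    intro k
    rw [hpx, coeff_C_mul]
    refine Dvd.dvd.mul_right ⟨u * (1 + m), ?_⟩ _
    rw [hu]
    ring
  have hpx1 : px.eval r = -(1 - m ^ 2) * A := by
    rw [hpx]
    simp
  have hpx2 : (derivative px).eval r = -(1 - m ^ 2) * A' := by
    rw [hpx, derivative_C_mul]
    simp
  obtain ⟨x', y, hxy, hy1, hy2, hsize⟩ := exists_reduction (by omega : 2 * d ≤ n) hT1 hc₁ hgood M hM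
    (fun k => px.coeff k)
  have hpx' : px = pol x' + C (M : 𝓞 F) * pol y := by
    rw [← pol_coeff px hpxdeg]
    refine Polynomial.ext fun j => ?_
    rw [coeff_add, coeff_C_mul, coeff_pol, coeff_pol, coeff_pol]
    split_ifs with h
    · exact hxy ⟨j, h⟩
    · simp
  have hx'1 : (pol x').eval r = -(1 - m ^ 2) * A - M * (pol y).eval r := by
    rw [← hpx1, hpx', eval_add, eval_mul, eval_C]
    ring
  have hx'2 : (derivative (pol x')).eval r = -(1 - m ^ 2) * A' - M * (derivative (pol y)).eval r := by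
    rw [← hpx2, hpx', derivative_add, derivative_C_mul, eval_add, eval_mul, eval_C]
    ring
  let xe : Fin n → 𝓞 F := fun k => if h : (k : ℕ) < 2 * d + 1 then x' ⟨k, h⟩ else 0
  have hxe : pol xe = pol x' := by
    ext j
    rw [coeff_pol, coeff_pol]
    simp only [xe]
    split_ifs with h1 h2 h2
    · rfl
    · rfl
    · omega
    · rfl
  -- the new coefficients
  let g : (Fin n → 𝓞 F) → (Fin n → 𝓞 F) := fun v => (cc + (M : 𝓞 F) • v) + xe
  have hg : Function.Injective g := by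
    intro v w h
    have h1 : (M : 𝓞 F) • v = (M : 𝓞 F) • w := add_left_cancel (add_right_cancel h)
    funext k
    have h2 := congrFun h1 k
    exact mul_left_cancel₀ hM0 h2
  have hmem : ∀ v ∈ S₁, g v ∈ Fam F n T ε M a₀ m r := by
    intro v hv
    obtain ⟨hv1, hv2⟩ := Finset.mem_filter.1 hv
    rw [Prod.mk.injEq] at hv2
    have h3 := Ideal.mem_span_singleton.1 (Ideal.Quotient.eq.1 hv2.1)
    have h4 := Ideal.mem_span_singleton.1 (Ideal.Quotient.eq.1 hv2.2)
    have hgk : ∀ k, g v k = cc k + M * v k + xe k := fun k => rfl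
    have hmpg : mp (g v) = f₀ v + pol x' := by
      rw [← hxe]
      exact mp_add _ _
    refine ⟨?_, ?_, ?_, ?_⟩
    · intro k
      have h5 : g v k - a₀ k = (cc k - a₀ k) + M * v k + xe k := by rw [hgk]; ring
      rw [h5]
      refine dvd_add (dvd_add (hccM k) (dvd_mul_right _ _)) ?_
      simp only [xe]
      split_ifs with h
      · have h6 : x' ⟨k, h⟩ = px.coeff k - M * y ⟨k, h⟩ := by
          rw [hxy ⟨k, h⟩]
          ring
        rw [h6]
        exact dvd_sub (hpxM k) (dvd_mul_right _ _)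
      · exact dvd_zero _
    · intro k σ
      have h5 : σ (g v k : F) - ctr n T k = (σ (cc k : F) - ctr n T k) + (M : ℂ) * σ (v k : F) +
          σ (xe k : F) := by
        rw [hgk]
        simp only [map_add, map_mul, map_natCast]
        ring
      rw [h5]
      have h6 : ‖(M : ℂ) * σ (v k : F)‖ ≤ ε / 4 * T ^ (2 * (n - (k : ℕ))) := by
        rw [norm_mul, Complex.norm_natCast]
        have h7 := (hS₀ v).1 hv1 k σ
        calc (M : ℝ) * ‖σ (v k : F)‖ ≤ M * (ε / (4 * M) * T ^ (2 * (n - (k : ℕ)))) :=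
              mul_le_mul_of_nonneg_left h7 (by positivity)
          _ = _ := by field_simp
      have h8 : ‖σ (xe k : F)‖ ≤ ε / 4 * T ^ (2 * (n - (k : ℕ))) := by
        simp only [xe]
        split_ifs with h
        · refine (hsize ⟨k, h⟩ σ).trans ?_
          have e1 : 2 * n - 2 * (k : ℕ) = 2 * (n - k) := by omega
          have e2 : c₁ ^ 2 ≤ c₀ ^ 2 := pow_le_pow_left₀ hc₁ hc₁₀ 2
          rw [hc₀sq] at e2
          change K * c₁ ^ 2 * M * T ^ (2 * n - 2 * (k : ℕ)) ≤ _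
          rw [e1]
          refine mul_le_mul_of_nonneg_right ?_ (by positivity)
          calc K * c₁ ^ 2 * M ≤ K * (ε / (4 * K * M)) * M :=
                mul_le_mul_of_nonneg_right (mul_le_mul_of_nonneg_left e2 hK0.le) (by positivity)
            _ = ε / 4 := by field_simp
        · simp only [map_zero, norm_zero]
          positivity
      refine (norm_add_le _ _).trans ?_
      refine (add_le_add ((norm_add_le _ _).trans (add_le_add (hccs k σ) h6)) h8).trans ?_
      have h9 : 0 < ε * T ^ (2 * (n - (k : ℕ))) := by positivity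
      linarith
    · rw [hmpg, eval_add, hx'1]
      have h5 : (f₀ v).eval r + (-(1 - m ^ 2) * A - M * (pol y).eval r) =
          ((f₀ v).eval r - A) + m ^ 2 * A - M * (pol y).eval r := by ring
      rw [h5]
      exact dvd_sub (dvd_add h3 (dvd_mul_right _ _)) (hy1.mul_left _)
    · rw [hmpg, derivative_add, eval_add, hx'2]
      have h5 : (derivative (f₀ v)).eval r + (-(1 - m ^ 2) * A' - M * (derivative (pol y)).eval r) =
          ((derivative (f₀ v)).eval r - A') + m * (m * A') - M * (derivative (pol y)).eval r := by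
        ring
      rw [h5]
      exact dvd_sub (dvd_add h4 (dvd_mul_right _ _)) (hy2.mul_left _)
  have hle : S₁.card ≤ (Fam F n T ε M a₀ m r).ncard := by
    rw [← Finset.card_image_of_injective S₁ hg, ← Set.ncard_coe_finset]
    refine Set.ncard_le_ncard ?_ (finite_Fam n hT1 M a₀ m r)
    intro x hx
    rw [Finset.mem_coe, Finset.mem_image] at hx
    obtain ⟨v, hv, rfl⟩ := hx
    exact hmem v hv
  have hle' : (S₁.card : ℝ) ≤ ((Fam F n T ε M a₀ m r).ncard : ℝ) := by exact_mod_cast hle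
  push_cast at hfib
  rw [div_le_iff₀ (by positivity)] at hfib
  calc _ ≤ (S₀.card : ℝ) := hcard
    _ ≤ (S₁.card : ℝ) * ((Ideal.absNorm (Ideal.span {m}) : ℝ) ^ 2 * Ideal.absNorm (Ideal.span {m})) :=
        hfib
    _ = (Ideal.absNorm (Ideal.span {m}) : ℝ) ^ 3 * S₁.card := by ring
    _ ≤ _ := mul_le_mul_of_nonneg_left hle' (by positivity)

end

end Pool.Agent.H26.Big
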