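import Pool.Agent.H26.Big.Index
import Pool.Agent.H26.Mass.Main

/-!
# The fields generated by the roots
-/

set_option autoImplicit false

open Module NumberField Polynomial IntermediateField
open scoped Classical

namespace Pool.Agent.H26.Big

open Pool.Agent.Helper313LB Pool.Agent.Helper313SN Pool.Agent.H26.Mass

/-- the properties of the polynomials -/
structure Okb {F : Type} [Field F] [NumberField F] {Ω : Type} [Field Ω] [Algebra F Ω]
    (Q : IntermediateField F Ω → Prop) (n d : ℕ) (T ε c P : ℝ) (a : Fin n → 𝓞 F) : Prop where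
  box : ∀ k : Fin n, ∀ σ : F →+* ℂ, ‖σ (a k : F) - ctr n T k‖ ≤ ε * T ^ (2 * (n - (k : ℕ)))
  irr : Irreducible ((mp a).map (algebraMap (𝓞 F) F))
  prop : ∀ α : Ω, (minpoly F α = (mp a).map (algebraMap (𝓞 F) F)) → Q F⟮α⟯
  dbl : ∃ m r : 𝓞 F, (∀ σ : F →+* ℂ, P / 2 ≤ ‖σ (m : F)‖) ∧ m ^ 2 ∣ (mp a).eval r ∧
    m ∣ (derivative (mp a)).eval r ∧ Good F n d T c m r

section

variable {F : Type} [Field F] [NumberField F] {L : Type} [Field L] [NumberField L] [Algebra F L]

theorem box_size {n : ℕ} {T ε : ℝ} (hT : 1 ≤ T) (hε : ε ≤ 1) {a : Fin n → 𝓞 F}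
    (h : ∀ k : Fin n, ∀ σ : F →+* ℂ, ‖σ (a k : F) - ctr n T k‖ ≤ ε * T ^ (2 * (n - (k : ℕ))))
    (k : Fin n) (σ : F →+* ℂ) : ‖σ (a k : F)‖ ≤ 2 * T ^ (2 * (n - (k : ℕ))) := by
  have h1 := h k σ
  have h2 := norm_ctr_le (n := n) hT k
  have h3 : ‖σ (a k : F)‖ ≤ ‖σ (a k : F) - ctr n T k‖ + ‖ctr n T k‖ := by
    have := norm_add_le (σ (a k : F) - ctr n T k) (ctr n T k)
    rwa [sub_add_cancel] at this
  have h4 : 0 < T ^ (2 * (n - (k : ℕ))) := pow_pos (by linarith) _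
  nlinarith

theorem conj_facts {n : ℕ} (hn : 2 ≤ n) {T ε : ℝ} (hT : 1 ≤ T) (hε0 : 0 ≤ ε)
    (hε : 4 * (n : ℝ) ^ 2 * 2 ^ n * ε ≤ 1) {a : Fin n → 𝓞 F}
    (h : ∀ k : Fin n, ∀ σ : F →+* ℂ, ‖σ (a k : F) - ctr n T k‖ ≤ ε * T ^ (2 * (n - (k : ℕ))))
    {θ : L} (hθ : minpoly F θ = (mp a).map (algebraMap (𝓞 F) F)) (φ : L →+* ℂ) :
    ‖φ θ‖ ≤ 2 * T ^ 2 ∧
      T ^ (2 * (n - 1)) ≤ ‖φ (aeval θ (derivative (minpoly F θ)))‖ := by
  set σ : F →+* ℂ := φ.comp (algebraMap F L) with hσ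
  have hev : ∀ p : F[X], φ (aeval θ p) = (p.map σ).eval (φ θ) := by
    intro p
    rw [aeval_def, hom_eval₂, eval_map]
  have hmap : ((mp a).map (algebraMap (𝓞 F) F)).map σ = mp fun k => σ (a k : F) := by
    rw [mp_map, mp_map]
  have h0 : (mp fun k => σ (a k : F)).eval (φ θ) = 0 := by
    have h1 := hev (minpoly F θ)
    rw [minpoly.aeval, map_zero, hθ, hmap] at h1
    exact h1.symm
  obtain ⟨h1, h2⟩ := root_facts hn hT hε0 hε (fun k => σ (a k : F)) (fun k => h k σ) h0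
  refine ⟨h1, ?_⟩
  rw [hev, hθ, ← derivative_map, hmap]
  exact h2

end

/-- the field generated by a root of the monic polynomial -/
theorem field_facts {F : Type} [Field F] [NumberField F] {Ω : Type} [Field Ω] [CharZero Ω]
    [Algebra F Ω] {Q : IntermediateField F Ω → Prop}
    {n d : ℕ} (hn : 4 ≤ n) (hdn : 2 * d + 1 ≤ n) {ε : ℝ} (hε0 : 0 ≤ ε) (hε1 : ε ≤ 1)
    (hε : 4 * (n : ℝ) ^ 2 * 2 ^ n * ε ≤ 1) {c : ℝ} (hc : 0 ≤ c)
    (hc1 : n * (3 * 2 ^ n) * (c * ((d + 1) * 2 ^ d) * 4) < 1) :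
    ∃ K T₀ : ℝ, 0 < K ∧ 1 ≤ T₀ ∧ ∀ T : ℝ, T₀ ≤ T → ∀ P : ℝ, 0 < P →
      ∀ L : IntermediateField F Ω, ∀ E : Finset Ω, E.Nonempty →
      (∀ η ∈ E, ∃ a : Fin n → 𝓞 F, Okb Q n d T ε c P a ∧
        (minpoly F η = (mp a).map (algebraMap (𝓞 F) F)) ∧ F⟮η⟯ = L) →
      ∃ _ : NumberField L, finrank F L = n ∧ Q L ∧
        Real.sqrt ((|discr L| : ℤ) : ℝ) * P ^ finrank ℚ F ≤ K * T ^ (finrank ℚ F * (n * (n - 1))) ∧
        (E.card : ℝ) * Real.sqrt ((|discr L| : ℤ) : ℝ) * P ^ finrank ℚ F ≤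
          K * T ^ (finrank ℚ F * (n * (n - 1) + 2)) := by
  obtain ⟨K₁, hK₁, hindex⟩ := exists_index_le F n
  obtain ⟨cB, hcB, hBox⟩ := exists_le_ncard_Box F
  set D := finrank ℚ F with hD
  set A : ℝ := n * (3 * 2 ^ n) * 4 with hA
  have hnR : (4 : ℝ) ≤ n := by exact_mod_cast hn
  have hA1 : 1 ≤ A := by
    have : (1 : ℝ) ≤ 2 ^ n := one_le_pow₀ (by norm_num)
    nlinarith
  set K₂ : ℝ := 2 ^ D * ((5 * A) ^ D * (Box F A).ncard) * K₁ with hK₂
  have hboxpos : (0 : ℝ) < (Box F A).ncard := by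
    have : 0 < (Box F A).ncard := by
      rw [Set.ncard_pos (finite_Box F A)]
      exact ⟨0, fun σ => by
        simp only [map_zero, norm_zero]
        linarith⟩
    exact_mod_cast this
  have hK₂0 : 0 < K₂ := by positivity
  refine ⟨max K₂ (K₂ / (cB * 2 ^ D)), A + 1, lt_of_lt_of_le hK₂0 (le_max_left _ _), by linarith, ?_⟩
  intro T hT P hP L E hE hEp
  have hT1 : 1 ≤ T := by linarith
  have hT0 : 0 < T := by linarith
  have hTA : A < T ^ 2 := by nlinarith
  -- one generator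
  obtain ⟨η, hη⟩ := hE
  obtain ⟨a, hok, hmin, hL⟩ := hEp η hη
  obtain ⟨m, r, hmP, hm1, hm2, hgood⟩ := hok.dbl
  have hmon : ((mp a).map (algebraMap (𝓞 F) F)).Monic := (mp_monic a).map _
  have hηF : IsIntegral F η := by
    by_contra hcon
    rw [minpoly.eq_zero hcon] at hmin
    exact hmon.ne_zero hmin.symm
  have hfin : finrank F L = n := by
    rw [← hL, adjoin.finrank hηF, hmin, mp_map, mp_natDegree]
  have hfd : FiniteDimensional F L := FiniteDimensional.of_finrank_pos (by omega)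
  have hnf : NumberField L := nf_of_fd L
  have hQL : Q L := by
    rw [← hL]
    exact hok.prop η hmin
  have hEL : ∀ η ∈ E, η ∈ L := by
    intro η' hη'
    obtain ⟨_, -, -, h3⟩ := hEp η' hη'
    rw [← h3]
    exact mem_adjoin_simple_self F η'
  have hm0 : m ≠ 0 := by
    intro h0
    obtain ⟨σ⟩ : Nonempty (F →+* ℂ) := inferInstance
    have := hmP σ
    rw [h0] at this
    simp at this
    linarith
  let θ : L := ⟨η, hEL η hη⟩
  have hθmin : minpoly F θ = (mp a).map (algebraMap (𝓞 F) F) := by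
    rw [← hmin]
    exact (minpoly.algebraMap_eq (algebraMap L Ω).injective θ).symm
  have hgen : Algebra.adjoin F {θ} = ⊤ := by
    have hθF : IsIntegral F θ := Algebra.IsIntegral.isIntegral θ
    rw [← adjoin_simple_toSubalgebra_of_isAlgebraic hθF.isAlgebraic, ← top_toSubalgebra]
    congr 1
    apply lift_injective L
    rw [lift_top, lift_adjoin_simple]
    exact hL
  have hconj := conj_facts (L := L) (by omega : 2 ≤ n) hT1 hε0 hε hok.box hθmin
  have hDat : Dat n T a m r θ :=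
    { rk := hfin
      n4 := hn
      T1 := hT1
      gen := hgen
      min := hθmin
      size := box_size hT1 hε1 hok.box
      root := fun φ => (hconj φ).1
      der := fun φ => (hconj φ).2
      m0 := hm0
      h1 := hm1
      h2 := hm2 }
  obtain ⟨Λ, -, hΛ, hne, hidx⟩ := hindex L T a m r θ hDat
  have hcount := hDat.count hdn hc hc1 hgood hTA Λ hΛ hne
  rw [← hA] at hcount
  set N₁ := (Sm L (2 * T ^ 2)).ncard with hN₁
  set M := Λ.relIndex (Pool.Agent.TH263.DQ.IG L) with hM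
  set δ := Real.sqrt ((|discr L| : ℤ) : ℝ) with hδ
  have hδ0 : 0 ≤ δ := Real.sqrt_nonneg _
  have hNm : (P / 2) ^ D ≤ (Ideal.absNorm (Ideal.span {m}) : ℝ) :=
    le_absNorm_span (by positivity) hmP
  have hcount' : (N₁ : ℝ) * Ideal.absNorm (Ideal.span {m}) ≤
      (((Box F (A * T ^ 2)).ncard : ℝ) * (Box F A).ncard) * M := by exact_mod_cast hcount
  have hBT : ((Box F (A * T ^ 2)).ncard : ℝ) ≤ (5 * A) ^ D * T ^ (2 * D) := by
    have h1 := ncard_Box_le F (B := A * T ^ 2) (by nlinarith)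
    refine h1.trans (le_of_eq ?_)
    rw [← mul_assoc, mul_pow, ← pow_mul]
  have hmain : (N₁ : ℝ) * δ * P ^ D ≤ K₂ * T ^ (D * (n * (n - 1) + 2)) := by
    have h1 : (N₁ : ℝ) * (P / 2) ^ D ≤ (((5 * A) ^ D * T ^ (2 * D)) * (Box F A).ncard) * M :=
      (mul_le_mul_of_nonneg_left hNm (by positivity)).trans (hcount'.trans
        (mul_le_mul_of_nonneg_right (mul_le_mul_of_nonneg_right hBT (by positivity)) (by positivity)))
    have h2 : (P : ℝ) ^ D = 2 ^ D * (P / 2) ^ D := by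
      rw [← mul_pow]
      congr 1
      ring
    have h3 : T ^ (D * (n * (n - 1) + 2)) = T ^ (2 * D) * T ^ (D * (n * (n - 1))) := by
      rw [← pow_add]
      congr 1
      ring
    calc (N₁ : ℝ) * δ * P ^ D = 2 ^ D * δ * ((N₁ : ℝ) * (P / 2) ^ D) := by rw [h2]; ring
      _ ≤ 2 ^ D * δ * ((((5 * A) ^ D * T ^ (2 * D)) * (Box F A).ncard) * M) :=
          mul_le_mul_of_nonneg_left h1 (by positivity)
      _ = 2 ^ D * (((5 * A) ^ D * T ^ (2 * D)) * (Box F A).ncard) * (M * δ) := by ring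
      _ ≤ 2 ^ D * (((5 * A) ^ D * T ^ (2 * D)) * (Box F A).ncard) *
          (K₁ * T ^ (D * (n * (n - 1)))) := mul_le_mul_of_nonneg_left hidx (by positivity)
      _ = _ := by rw [h3, hK₂]; ring
  have hlow : cB * (2 * T ^ 2) ^ D ≤ (N₁ : ℝ) := by
    refine (hBox (2 * T ^ 2) (by positivity)).trans ?_
    have hinj : Function.Injective (fun u : 𝓞 F => algebraMap (𝓞 F) L u) := by
      intro u v h
      have h1 : algebraMap F L (u : F) = algebraMap F L (v : F) := h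
      exact RingOfIntegers.coe_injective ((algebraMap F L).injective h1)
    have h2 : (Box F (2 * T ^ 2)).ncard ≤ N₁ := by
      rw [← Set.ncard_image_of_injective _ hinj]
      refine Set.ncard_le_ncard ?_ (finite_Sm _)
      rintro _ ⟨u, hu, rfl⟩
      refine ⟨(RingOfIntegers.isIntegral_coe u).map (IsScalarTower.toAlgHom ℤ F L), ?_⟩
      rw [house_le (by positivity)]
      intro φ
      exact hu (φ.comp (algebraMap F L))
    exact_mod_cast h2
  have hEN : (E.card : ℝ) ≤ N₁ := by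
    have h3 : (E.attach.image fun x => (⟨x.1, hEL x.1 x.2⟩ : L)).card = E.card := by
      rw [Finset.card_image_of_injective _ ?_, Finset.card_attach]
      intro x y h
      exact Subtype.ext (congrArg (fun z : L => (z : Ω)) h)
    rw [← h3, ← Set.ncard_coe_finset]
    have h4 := Set.ncard_le_ncard (s := ((E.attach.image fun x => (⟨x.1, hEL x.1 x.2⟩ : L) : Finset L) : Set L))
      (t := Sm L (2 * T ^ 2)) (by
      intro x hx
      rw [Finset.mem_coe, Finset.mem_image] at hx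
      obtain ⟨⟨y, hy⟩, -, rfl⟩ := hx
      obtain ⟨b, hokb, hminb, hLb⟩ := hEp y hy
      have hxmin : minpoly F (⟨y, hEL y hy⟩ : L) = (mp b).map (algebraMap (𝓞 F) F) := by
        rw [← hminb]
        exact (minpoly.algebraMap_eq (algebraMap L Ω).injective (⟨y, hEL y hy⟩ : L)).symm
      refine ⟨?_, ?_⟩
      · have h4 : IsIntegral (𝓞 F) (⟨y, hEL y hy⟩ : L) := by
          refine ⟨mp b, mp_monic b, ?_⟩
          have h1 : aeval (⟨y, hEL y hy⟩ : L) ((mp b).map (algebraMap (𝓞 F) F)) = 0 := by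
            rw [← hxmin]
            exact minpoly.aeval F _
          rwa [aeval_map_algebraMap] at h1
        have hsc : IsScalarTower ℤ (𝓞 F) L :=
          IsScalarTower.of_algebraMap_eq' (Subsingleton.elim _ _)
        exact isIntegral_trans _ h4
      · rw [house_le (by positivity)]
        intro φ
        exact (conj_facts (L := L) (by omega : 2 ≤ n) hT1 hε0 hε hokb.box hxmin φ).1) (finite_Sm _)
    exact_mod_cast h4
  refine ⟨hnf, hfin, hQL, ?_, ?_⟩
  · have h1 : (cB * (2 * T ^ 2) ^ D) * (δ * P ^ D) ≤ K₂ * T ^ (D * (n * (n - 1) + 2)) := by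
      calc (cB * (2 * T ^ 2) ^ D) * (δ * P ^ D) ≤ N₁ * (δ * P ^ D) :=
            mul_le_mul_of_nonneg_right hlow (by positivity)
        _ = (N₁ : ℝ) * δ * P ^ D := by ring
        _ ≤ _ := hmain
    have h2 : T ^ (D * (n * (n - 1) + 2)) = (T ^ 2) ^ D * T ^ (D * (n * (n - 1))) := by
      rw [← pow_mul, ← pow_add]
      congr 1
      ring
    have h3 : (T ^ 2) ^ D * (cB * 2 ^ D * (δ * P ^ D)) ≤
        (T ^ 2) ^ D * (K₂ * T ^ (D * (n * (n - 1)))) := by
      calc (T ^ 2) ^ D * (cB * 2 ^ D * (δ * P ^ D)) = (cB * (2 * T ^ 2) ^ D) * (δ * P ^ D) := by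
            rw [mul_pow]; ring
        _ ≤ K₂ * T ^ (D * (n * (n - 1) + 2)) := h1
        _ = _ := by rw [h2]; ring
    have h4 := le_of_mul_le_mul_left h3 (by positivity)
    have h5 : δ * P ^ D ≤ K₂ / (cB * 2 ^ D) * T ^ (D * (n * (n - 1))) := by
      rw [div_mul_eq_mul_div, le_div_iff₀ (by positivity)]
      linarith
    exact h5.trans (mul_le_mul_of_nonneg_right (le_max_right _ _) (by positivity))
  · calc (E.card : ℝ) * δ * P ^ D ≤ N₁ * δ * P ^ D :=
          mul_le_mul_of_nonneg_right (mul_le_mul_of_nonneg_right hEN hδ0) (by positivity)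
      _ ≤ K₂ * T ^ (D * (n * (n - 1) + 2)) := hmain
      _ ≤ _ := mul_le_mul_of_nonneg_right (le_max_left _ _) (by positivity)

end Pool.Agent.H26.Big
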