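import Pool.Agent.H26.Big.Key
import Pool.Agent.H26.Mass.Sieve

/-!
# The index of the order generated by a root, and the number of the small integers
-/

set_option autoImplicit false

open Module NumberField Polynomial

namespace Pool.Agent.H26.Big

open Pool.Agent.Helper313LB Pool.Agent.H26.Mass

section

variable {F L : Type} [Field F] [NumberField F] [Field L] [NumberField L] [Algebra F L]

theorem le_absNorm_span {w : 𝓞 F} {B : ℝ} (hB0 : 0 ≤ B) (hB : ∀ σ : F →+* ℂ, B ≤ ‖σ (w : F)‖) :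
    B ^ finrank ℚ F ≤ (Ideal.absNorm (Ideal.span {w}) : ℝ) := by
  have h1 : (Ideal.absNorm (Ideal.span {w}) : ℝ) = ‖∏ φ : F →ₐ[ℚ] ℂ, φ (w : F)‖ := by
    rw [← Algebra.norm_eq_prod_embeddings ℚ ℂ (w : F), Ideal.absNorm_span_singleton,
      ← Algebra.coe_norm_int w]
    rw [Nat.cast_natAbs]
    simp
  rw [h1, norm_prod, ← AlgHom.card ℚ F ℂ, ← Finset.card_univ, ← Finset.prod_const]
  exact Finset.prod_le_prod (fun _ _ => hB0) fun φ _ => hB (φ : F →+* ℂ)

/-- the index of the order generated by a root -/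
theorem exists_index_le (F : Type) [Field F] [NumberField F] (n : ℕ) :
    ∃ K : ℝ, 0 < K ∧ ∀ (L : Type) [Field L] [NumberField L] [Algebra F L],
      ∀ (T : ℝ) (a : Fin n → 𝓞 F) (m r : 𝓞 F) (θ : L), Dat n T a m r θ →
      ∃ Λ : AddSubgroup L, Λ ≤ Pool.Agent.TH263.DQ.IG L ∧
        (∀ x ∈ Λ, ∃ v : Fin n → 𝓞 F, x = aeval θ (pol v)) ∧
        Λ.relIndex (Pool.Agent.TH263.DQ.IG L) ≠ 0 ∧
        (Λ.relIndex (Pool.Agent.TH263.DQ.IG L) : ℝ) * Real.sqrt ((|discr L| : ℤ) : ℝ) ≤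
          K * T ^ (finrank ℚ F * (n * (n - 1))) := by
  classical
  obtain ⟨C, hC1, hC⟩ := exists_basis_bound F
  set N := finrank ℚ F * n with hN
  refine ⟨N.factorial * C ^ N * 2 ^ (finrank ℚ F * (n * (n - 1))), by positivity, ?_⟩
  intro L _ _ _ T a m r θ D
  have hT := D.T1
  have hT0 : 0 < T := by linarith
  set H : ℝ := 2 * T ^ 2 with hH
  have hH1 : 1 ≤ H := by nlinarith
  have : IsScalarTower ℚ F L := IsScalarTower.of_algebraMap_eq' (Subsingleton.elim _ _)
  let bF : Basis (Fin n) F L := Basis.ofEquivFun D.E.symm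
  have hbF : ∀ k : Fin n, bF k = θ ^ (k : ℕ) := by
    intro k
    rw [Basis.coe_ofEquivFun, LinearEquiv.symm_symm]
    change D.E (Pi.single k 1) = _
    rw [D.E_apply, evL_apply, pol_single]
    simp
  let b : Basis (Free.ChooseBasisIndex ℤ (𝓞 F) × Fin n) ℚ L := (integralBasis F).smulTower bF
  have hb : ∀ x, b x = algebraMap F L (integralBasis F x.1) * θ ^ (x.2 : ℕ) := by
    intro x
    rw [Basis.smulTower_apply, hbF, Algebra.smul_def]
  have hcardF : Fintype.card (Free.ChooseBasisIndex ℤ (𝓞 F)) = finrank ℚ F :=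
    (finrank_eq_card_basis (integralBasis F)).symm
  have hcard : Fintype.card (Free.ChooseBasisIndex ℤ (𝓞 F) × Fin n) = N := by
    rw [Fintype.card_prod, hcardF, Fintype.card_fin]
  have hmem : ∀ x, b x ∈ Algebra.adjoin (𝓞 F) {θ} := by
    intro x
    rw [hb, integralBasis_apply]
    refine mul_mem ?_ (pow_mem (Algebra.self_mem_adjoin_singleton _ _) _)
    exact Subalgebra.algebraMap_mem _ (RingOfIntegers.basis F x.1)
  have hint : ∀ x, IsIntegral ℤ (b x) := by
    intro x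
    rw [hb]
    refine IsIntegral.mul ?_ (D.integral.pow _)
    have h1 : IsIntegral ℤ (integralBasis F x.1) := by
      rw [integralBasis_apply]
      exact RingOfIntegers.isIntegral_coe _
    exact h1.map (IsScalarTower.toAlgHom ℤ F L)
  have hle : AddSubgroup.closure (Set.range b) ≤ Pool.Agent.TH263.DQ.IG L := by
    rw [AddSubgroup.closure_le]
    rintro _ ⟨i, rfl⟩
    exact hint i
  have h := Pool.Agent.TH263.DQ.discr_index b hle
  have h0 : Algebra.discr ℚ b ≠ 0 := Algebra.discr_not_zero_of_basis ℚ b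
  refine ⟨AddSubgroup.closure (Set.range b), hle, ?_, ?_, ?_⟩
  · intro x hx
    refine exists_pol_of_mem a θ D.zero ?_
    have h1 : AddSubgroup.closure (Set.range b) ≤
        (Algebra.adjoin (𝓞 F) {θ}).toSubmodule.toAddSubgroup := by
      rw [AddSubgroup.closure_le]
      rintro _ ⟨i, rfl⟩
      exact hmem i
    exact h1 hx
  · intro h2
    rw [h2] at h
    simp at h
    exact h0 h
  · set M := (AddSubgroup.closure (Set.range b)).relIndex (Pool.Agent.TH263.DQ.IG L) with hM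
    have hcardE : Fintype.card (Free.ChooseBasisIndex ℤ (𝓞 F) × Fin n) =
        Fintype.card (L →ₐ[ℚ] ℂ) := by
      rw [AlgHom.card, finrank_eq_card_basis b]
    let e := Fintype.equivOfCardEq hcardE
    have h2 := Algebra.discr_eq_det_embeddingsMatrixReindex_pow_two ℚ ℂ b e
    have h3 : ‖(Algebra.embeddingsMatrixReindex ℚ ℂ b e).det‖ ≤
        N.factorial * C ^ N * ∏ x : Free.ChooseBasisIndex ℤ (𝓞 F) × Fin n, H ^ (x.2 : ℕ) := by
      rw [← hcard]
      refine det_scaled _ _ (fun i => by positivity) ?_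
      intro i j
      have : Algebra.embeddingsMatrixReindex ℚ ℂ b e i j = (e j) (b i) := rfl
      rw [this, hb, map_mul, map_pow, norm_mul, norm_pow]
      have h4 : ‖(e j) (algebraMap F L (integralBasis F i.1))‖ ≤ C :=
        hC i.1 (((e j : L →ₐ[ℚ] ℂ) : L →+* ℂ).comp (algebraMap F L))
      have h5 : ‖(e j) θ‖ ≤ H := D.root ((e j : L →ₐ[ℚ] ℂ) : L →+* ℂ)
      exact mul_le_mul h4 (pow_le_pow_left₀ (norm_nonneg _) h5 _) (by positivity) (by positivity)
    have h6 : (∏ x : Free.ChooseBasisIndex ℤ (𝓞 F) × Fin n, H ^ (x.2 : ℕ)) ^ 2 =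
        H ^ (finrank ℚ F * (n * (n - 1))) := by
      rw [Fintype.prod_prod_type]
      simp only [Finset.prod_const]
      rw [Finset.prod_pow_eq_pow_sum, Finset.card_univ, hcardF,
        Fin.sum_univ_eq_sum_range (fun i => i), ← pow_mul, ← pow_mul]
      congr 1
      have := Finset.sum_range_id_mul_two n
      rw [← this]
      ring
    have h7 : ((M : ℝ) * Real.sqrt ((|discr L| : ℤ) : ℝ)) ^ 2 ≤
        ‖(Algebra.embeddingsMatrixReindex ℚ ℂ b e).det‖ ^ 2 := by
      rw [← norm_pow, ← h2]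
      have h8 : ‖(algebraMap ℚ ℂ) (Algebra.discr ℚ b)‖ = ((|Algebra.discr ℚ b| : ℚ) : ℝ) := by
        rw [eq_ratCast, ← Complex.ofReal_ratCast, Complex.norm_real, Real.norm_eq_abs]
        push_cast
        rfl
      rw [h8, h, mul_pow, Real.sq_sqrt (by positivity)]
      push_cast
      exact le_refl _
    have h8 : ((M : ℝ) * Real.sqrt ((|discr L| : ℤ) : ℝ)) ^ 2 ≤
        (N.factorial * C ^ N * 2 ^ (finrank ℚ F * (n * (n - 1))) *
          T ^ (finrank ℚ F * (n * (n - 1)))) ^ 2 := by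
      refine h7.trans ((pow_le_pow_left₀ (norm_nonneg _) h3 2).trans ?_)
      rw [mul_pow (N.factorial * C ^ N : ℝ), h6, hH]
      generalize finrank ℚ F * (n * (n - 1)) = Z
      have e1 : (2 * T ^ 2) ^ Z = 2 ^ Z * (T ^ Z) ^ 2 := by
        rw [mul_pow, ← pow_mul, ← pow_mul, mul_comm 2 Z]
      have e2 : (N.factorial * C ^ N * 2 ^ Z * T ^ Z) ^ 2 =
          (N.factorial * C ^ N) ^ 2 * ((2 ^ Z) ^ 2 * (T ^ Z) ^ 2) := by ring
      rw [e1, e2]
      refine mul_le_mul_of_nonneg_left (mul_le_mul_of_nonneg_right ?_ (by positivity)) (by positivity)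
      exact le_self_pow₀ (one_le_pow₀ (by norm_num)) two_ne_zero
    exact (pow_le_pow_iff_left₀ (by positivity) (by positivity) two_ne_zero).1 h8

/-- the number of the small integers -/
theorem Dat.count {n d : ℕ} {T c : ℝ} {a : Fin n → 𝓞 F} {m r : 𝓞 F} {θ : L}
    (D : Dat n T a m r θ) (hdn : 2 * d + 1 ≤ n) (hc : 0 ≤ c)
    (hc1 : n * (3 * 2 ^ n) * (c * ((d + 1) * 2 ^ d) * 4) < 1) (hgood : Good F n d T c m r)
    (hT : n * (3 * 2 ^ n) * 4 < T ^ 2) (Λ : AddSubgroup L)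
    (hΛ : ∀ x ∈ Λ, ∃ v : Fin n → 𝓞 F, x = aeval θ (pol v))
    (hne : Λ.relIndex (Pool.Agent.TH263.DQ.IG L) ≠ 0) :
    (Sm L (2 * T ^ 2)).ncard * Ideal.absNorm (Ideal.span {m}) ≤
      ((Box F (n * (3 * 2 ^ n) * 4 * T ^ 2)).ncard * (Box F (n * (3 * 2 ^ n) * 4)).ncard) *
        Λ.relIndex (Pool.Agent.TH263.DQ.IG L) := by
  classical
  have hn := D.n4
  have hT0 : 0 < T := by have := D.T1; linarith
  have hm : algebraMap (𝓞 F) L m ≠ 0 := by
    intro h
    apply D.m0
    have h3 : algebraMap F L (m : F) = 0 := h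
    rw [map_eq_zero] at h3
    exact RingOfIntegers.coe_injective h3
  obtain ⟨ψ, hψ⟩ : ∃ ψ : L, algebraMap (𝓞 F) L m * ψ = aeval θ (mp a /ₘ (X - C r)) :=
    ⟨aeval θ (mp a /ₘ (X - C r)) / algebraMap (𝓞 F) L m, mul_div_cancel₀ _ hm⟩
  have hψint := D.isIntegral_psi hψ
  have hintF : ∀ x : 𝓞 F, IsIntegral ℤ (algebraMap (𝓞 F) L x) := fun x =>
    (RingOfIntegers.isIntegral_coe x).map (IsScalarTower.toAlgHom ℤ F L)
  have := finite_quot D.m0
  have : Fintype (𝓞 F ⧸ Ideal.span {m}) := Fintype.ofFinite _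
  set G := Pool.Agent.TH263.DQ.IG L with hG
  let Q := G ⧸ (Λ.addSubgroupOf G)
  have hQ : Nat.card Q = Λ.relIndex G := rfl
  have : Finite Q := Nat.finite_of_card_ne_zero (by rw [hQ]; exact hne)
  have : Fintype Q := Fintype.ofFinite Q
  let X₀ : Finset L := (finite_Sm (L := L) (2 * T ^ 2)).toFinset
  have hX₀ : ∀ x, x ∈ X₀ ↔ x ∈ Sm L (2 * T ^ 2) := fun x => Set.Finite.mem_toFinset _
  let X₁ : Finset G := X₀.attach.image fun x => ⟨x.1, ((hX₀ x.1).1 x.2).1⟩
  have hX₁card : X₁.card = X₀.card := by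
    rw [Finset.card_image_of_injective _ ?_, Finset.card_attach]
    intro x y h
    exact Subtype.ext (congrArg (fun z : G => (z : L)) h)
  have hX₁ : ∀ y ∈ X₁, (y : L) ∈ Sm L (2 * T ^ 2) := by
    intro y hy
    obtain ⟨x, -, rfl⟩ := Finset.mem_image.1 hy
    exact (hX₀ x.1).1 x.2
  let S : Finset (G × (𝓞 F ⧸ Ideal.span {m})) := X₁ ×ˢ Finset.univ
  have hScard : S.card = (Sm L (2 * T ^ 2)).ncard * Ideal.absNorm (Ideal.span {m}) := by
    rw [Finset.card_product, hX₁card, Finset.card_univ, card_quot,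
      Set.ncard_eq_toFinset_card _ (finite_Sm (L := L) (2 * T ^ 2))]
  let e : (𝓞 F ⧸ Ideal.span {m}) → G := fun c =>
    ⟨algebraMap (𝓞 F) L (Quotient.out c) * ψ, (hintF _).mul hψint⟩
  let Ψ : G × (𝓞 F ⧸ Ideal.span {m}) → Q := fun p => QuotientAddGroup.mk (p.1 + e p.2)
  rw [← hScard]
  set A : ℝ := n * (3 * 2 ^ n) * 4 with hA
  let W : Finset (𝓞 F × 𝓞 F) := (finite_Box F (A * T ^ 2)).toFinset ×ˢ (finite_Box F A).toFinset
  have hW : W.card = (Box F (A * T ^ 2)).ncard * (Box F A).ncard := by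
    rw [Finset.card_product, Set.ncard_eq_toFinset_card _ (finite_Box F (A * T ^ 2)),
      Set.ncard_eq_toFinset_card _ (finite_Box F A)]
  have h2 := Finset.card_le_mul_card_image (f := Ψ) S W.card ?_
  · rw [← hW]
    refine h2.trans (Nat.mul_le_mul_left _ ?_)
    refine (Finset.card_le_univ _).trans ?_
    rw [← Nat.card_eq_fintype_card, hQ]
  · intro q hq
    obtain ⟨p₀, hp₀, rfl⟩ := Finset.mem_image.1 hq
    have hx₀ := hX₁ _ (Finset.mem_product.1 hp₀).1
    have hex : ∀ p ∈ S.filter (fun p => Ψ p = Ψ p₀), p.2 = p₀.2 ∧ ∃ u : 𝓞 F × 𝓞 F, u ∈ W ∧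
        (p.1 : L) - (p₀.1 : L) = algebraMap (𝓞 F) L u.1 + algebraMap (𝓞 F) L u.2 * θ := by
      intro p hp
      obtain ⟨hp1, hp2⟩ := Finset.mem_filter.1 hp
      have hx := hX₁ _ (Finset.mem_product.1 hp1).1
      have h3 : -(p₀.1 + e p₀.2) + (p.1 + e p.2) ∈ Λ.addSubgroupOf G := QuotientAddGroup.eq.1 hp2.symm
      rw [AddSubgroup.mem_addSubgroupOf] at h3
      obtain ⟨v, hv⟩ := hΛ _ h3
      have h4 : (p.1 : L) - (p₀.1 : L) = aeval θ (pol v) +
          algebraMap (𝓞 F) L (-(Quotient.out p.2 - Quotient.out p₀.2)) * ψ := by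
        rw [← hv]
        have e1 : ((-(p₀.1 + e p₀.2) + (p.1 + e p.2) : G) : L) = -((p₀.1 : L) +
            algebraMap (𝓞 F) L (Quotient.out p₀.2) * ψ) +
            ((p.1 : L) + algebraMap (𝓞 F) L (Quotient.out p.2) * ψ) := rfl
        rw [e1, map_neg, map_sub]
        ring
      obtain ⟨h5, u₀, hu₀, u₁, hu₁, h6⟩ := D.key hdn hc hc1 hgood hT hψ v
        (-(Quotient.out p.2 - Quotient.out p₀.2)) (by
          intro φ
          rw [← h4, map_sub]
          refine (norm_sub_le _ _).trans ?_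
          have h7 := (norm_le_house (p.1 : L) φ).trans hx.2
          have h8 := (norm_le_house (p₀.1 : L) φ).trans hx₀.2
          linarith)
      refine ⟨?_, (u₀, u₁), ?_, ?_⟩
      · have h7 : Quotient.out p.2 - Quotient.out p₀.2 ∈ Ideal.span {m} := by
          rw [Ideal.mem_span_singleton]
          exact (dvd_neg.1 h5)
        have h8 := Ideal.Quotient.eq.2 h7
        rwa [Ideal.Quotient.mk_out, Ideal.Quotient.mk_out] at h8
      · exact Finset.mem_product.2 ⟨(Set.Finite.mem_toFinset _).2 hu₀, (Set.Finite.mem_toFinset _).2 hu₁⟩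
      · rw [h4, h6]
    have hex1 : ∀ p ∈ S.filter (fun p => Ψ p = Ψ p₀), p.2 = p₀.2 := fun p hp => (hex p hp).1
    have hex2 : ∀ p ∈ S.filter (fun p => Ψ p = Ψ p₀), ∃ u : 𝓞 F × 𝓞 F, u ∈ W ∧
        (p.1 : L) - (p₀.1 : L) = algebraMap (𝓞 F) L u.1 + algebraMap (𝓞 F) L u.2 * θ :=
      fun p hp => (hex p hp).2
    choose! g hg using hex2
    refine Finset.card_le_card_of_injOn g (fun p hp => (hg p hp).1) ?_
    intro p hp p' hp' h
    have h3 : (p.1 : L) - (p₀.1 : L) = (p'.1 : L) - (p₀.1 : L) := by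
      rw [(hg p hp).2, (hg p' hp').2, h]
    refine Prod.ext (Subtype.ext (sub_left_injective h3)) ?_
    rw [hex1 p hp, hex1 p' hp']

end

end Pool.Agent.H26.Big
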