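import Pool.Agent.H26.Big.Root
import Pool.Agent.H26.Big.Coord
import Pool.Agent.H26.Big.Cover
import Pool.Agent.H26.Mass.Latt

/-!
# The small integers of the field generated by a root
-/

set_option autoImplicit false

open Module NumberField Polynomial

namespace Pool.Agent.H26.Big

open Pool.Agent.Helper313LB Pool.Agent.H26.Mass

section

variable {F L : Type} [Field F] [NumberField F] [Field L] [NumberField L] [Algebra F L]

/-- the data for a polynomial with a double root modulo `m` -/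
structure Dat (n : ℕ) (T : ℝ) (a : Fin n → 𝓞 F) (m r : 𝓞 F) (θ : L) : Prop where
  rk : finrank F L = n
  n4 : 4 ≤ n
  T1 : 1 ≤ T
  gen : Algebra.adjoin F {θ} = ⊤
  min : minpoly F θ = (mp a).map (algebraMap (𝓞 F) F)
  size : ∀ k : Fin n, ∀ σ : F →+* ℂ, ‖σ (a k : F)‖ ≤ 2 * T ^ (2 * (n - (k : ℕ)))
  root : ∀ φ : L →+* ℂ, ‖φ θ‖ ≤ 2 * T ^ 2
  der : ∀ φ : L →+* ℂ, T ^ (2 * (n - 1)) ≤ ‖φ (aeval θ (derivative (minpoly F θ)))‖
  m0 : m ≠ 0
  h1 : m ^ 2 ∣ (mp a).eval r
  h2 : m ∣ (derivative (mp a)).eval r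

theorem Dat.zero {n : ℕ} {T : ℝ} {a : Fin n → 𝓞 F} {m r : 𝓞 F} {θ : L} (D : Dat n T a m r θ) :
    aeval θ (mp a) = 0 := by
  have h := minpoly.aeval F θ
  rw [D.min, aeval_map_algebraMap] at h
  exact h

theorem Dat.integral {n : ℕ} {T : ℝ} {a : Fin n → 𝓞 F} {m r : 𝓞 F} {θ : L}
    (D : Dat n T a m r θ) : IsIntegral ℤ θ := by
  have h4 : IsIntegral (𝓞 F) θ := ⟨mp a, mp_monic a, D.zero⟩
  have hsc : IsScalarTower ℤ (𝓞 F) L :=
    IsScalarTower.of_algebraMap_eq' (Subsingleton.elim _ _)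
  exact isIntegral_trans _ h4

theorem exists_pol_of_mem {n : ℕ} (a : Fin n → 𝓞 F) (θ : L) (hθ : aeval θ (mp a) = 0)
    {x : L} (hx : x ∈ Algebra.adjoin (𝓞 F) {θ}) : ∃ v : Fin n → 𝓞 F, x = aeval θ (pol v) := by
  rw [Algebra.adjoin_singleton_eq_range_aeval, AlgHom.mem_range] at hx
  obtain ⟨p, rfl⟩ := hx
  refine ⟨fun k => (p %ₘ mp a).coeff k, ?_⟩
  rw [pol_coeff]
  · exact (aeval_modByMonic_eq_self_of_root hθ).symm
  · have := degree_modByMonic_lt p (mp_monic a)
    rw [degree_eq_natDegree (mp_monic a).ne_zero, mp_natDegree] at this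
    exact this

theorem aeval_mem (p : (𝓞 F)[X]) (θ : L) : aeval θ p ∈ Algebra.adjoin (𝓞 F) {θ} :=
  aeval_mem_adjoin_singleton _ _

theorem aeval_pol {R A : Type*} [CommRing R] [CommRing A] [Algebra R A] {k : ℕ} (v : Fin k → R)
    (θ : A) : aeval θ (pol v) = ∑ i, algebraMap R A (v i) * θ ^ (i : ℕ) := by
  rw [pol, map_sum]
  refine Finset.sum_congr rfl fun i _ => ?_
  rw [map_mul, aeval_C, map_pow, aeval_X]

/-- evaluation as a linear map -/
noncomputable def evL (F : Type) {L : Type} [Field F] [Field L] [Algebra F L] (k : ℕ) (θ : L) :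
    (Fin k → F) →ₗ[F] L where
  toFun w := ∑ i, w i • θ ^ (i : ℕ)
  map_add' v w := by
    simp only [Pi.add_apply, add_smul, Finset.sum_add_distrib]
  map_smul' c w := by
    simp only [Pi.smul_apply, smul_assoc, Finset.smul_sum, RingHom.id_apply]

theorem evL_apply {k : ℕ} (θ : L) (w : Fin k → F) : evL F k θ w = aeval θ (pol w) := by
  rw [aeval_pol]
  change ∑ i, w i • θ ^ (i : ℕ) = _
  refine Finset.sum_congr rfl fun i _ => ?_
  rw [Algebra.smul_def]

theorem evL_coe {k : ℕ} (θ : L) (w : Fin k → 𝓞 F) :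
    evL F k θ (fun i => (w i : F)) = aeval θ (pol w) := by
  rw [evL_apply]
  exact (aeval_pol (R := F) _ θ).trans (aeval_pol (R := 𝓞 F) w θ).symm

theorem Dat.evL_injective {n : ℕ} {T : ℝ} {a : Fin n → 𝓞 F} {m r : 𝓞 F} {θ : L}
    (D : Dat n T a m r θ) : Function.Injective (evL F n θ) := by
  rw [← LinearMap.ker_eq_bot, LinearMap.ker_eq_bot']
  intro w hw
  rw [evL_apply] at hw
  by_contra h0
  have hne : pol w ≠ 0 := by
    intro h
    apply h0
    apply pol_injective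
    rw [h]
    refine (Polynomial.ext fun j => ?_)
    rw [coeff_pol]
    simp
  have h1 := minpoly.degree_le_of_ne_zero F θ hne hw
  have h2 := degree_pol_lt w
  have h3 : (minpoly F θ).degree = n := by
    rw [D.min, mp_map, degree_eq_natDegree (mp_monic _).ne_zero, mp_natDegree]
  rw [h3] at h1
  exact absurd (lt_of_le_of_lt h1 h2) (lt_irrefl _)

/-- the coordinates -/
noncomputable def Dat.E {n : ℕ} {T : ℝ} {a : Fin n → 𝓞 F} {m r : 𝓞 F} {θ : L}
    (D : Dat n T a m r θ) : (Fin n → F) ≃ₗ[F] L :=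
  haveI : FiniteDimensional F L := FiniteDimensional.of_finrank_pos (by
    rw [D.rk]; have := D.n4; omega)
  LinearMap.linearEquivOfInjective (evL F n θ) D.evL_injective (by
    rw [Module.finrank_fintype_fun_eq_card, Fintype.card_fin, D.rk])

theorem Dat.E_apply {n : ℕ} {T : ℝ} {a : Fin n → 𝓞 F} {m r : 𝓞 F} {θ : L}
    (D : Dat n T a m r θ) (w : Fin n → F) : D.E w = evL F n θ w := rfl

/-- the top coordinate -/
noncomputable def Dat.top {n : ℕ} {T : ℝ} {a : Fin n → 𝓞 F} {m r : 𝓞 F} {θ : L}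
    (D : Dat n T a m r θ) (x : L) : F := D.E.symm x ⟨n - 1, by have := D.n4; omega⟩

theorem Dat.top_pol {n : ℕ} {T : ℝ} {a : Fin n → 𝓞 F} {m r : 𝓞 F} {θ : L}
    (D : Dat n T a m r θ) (v : Fin n → 𝓞 F) :
    D.top (aeval θ (pol v)) = (v ⟨n - 1, by have := D.n4; omega⟩ : F) := by
  rw [Dat.top, ← evL_coe, ← D.E_apply, LinearEquiv.symm_apply_apply]

theorem Dat.top_add {n : ℕ} {T : ℝ} {a : Fin n → 𝓞 F} {m r : 𝓞 F} {θ : L}
    (D : Dat n T a m r θ) (x y : L) : D.top (x + y) = D.top x + D.top y := by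
  rw [Dat.top, map_add]
  rfl

theorem Dat.top_mul {n : ℕ} {T : ℝ} {a : Fin n → 𝓞 F} {m r : 𝓞 F} {θ : L}
    (D : Dat n T a m r θ) (c : 𝓞 F) (x : L) :
    D.top (algebraMap (𝓞 F) L c * x) = (c : F) * D.top x := by
  have h : algebraMap (𝓞 F) L c * x = (c : F) • x := by
    rw [Algebra.smul_def]
    rfl
  rw [h, Dat.top, map_smul]
  rfl

/-- the coordinate bound -/
theorem Dat.coord {n : ℕ} {T : ℝ} {a : Fin n → 𝓞 F} {m r : 𝓞 F} {θ : L}
    (D : Dat n T a m r θ) (v : Fin n → 𝓞 F) {Y : ℝ} (hY : 0 ≤ Y)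
    (hv : ∀ φ : L →+* ℂ, ‖φ (aeval θ (pol v))‖ ≤ Y) (σ : F →+* ℂ) (k : Fin n) :
    ‖σ (v k : F)‖ * T ^ (2 * (k : ℕ)) ≤ n * (3 * 2 ^ n) * Y := by
  have h1 := norm_coeff_le θ D.gen D.rk D.T1 D.root (by
    intro σ k hk
    rw [D.min, coeff_map, mp_coeff_lt a hk]
    exact D.size ⟨k, hk⟩ σ) D.der ((pol v).map (algebraMap (𝓞 F) F)) (by
    rw [pol_map]
    exact degree_pol_lt _) hY (by
    intro φ
    rw [aeval_map_algebraMap]
    exact hv φ) σ k k.2
  rw [coeff_map, coeff_pol_fin] at h1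
  exact h1

/-- division by `X - r` -/
theorem div_facts {n : ℕ} (hn : 1 ≤ n) (a : Fin n → 𝓞 F) (r : 𝓞 F) :
    (X - C r) * (mp a /ₘ (X - C r)) + C ((mp a).eval r) = mp a ∧
      (mp a /ₘ (X - C r)).eval r = (derivative (mp a)).eval r ∧
      (mp a /ₘ (X - C r)).degree < n ∧ (mp a /ₘ (X - C r)).coeff (n - 1) = 1 := by
  have h1 : (X - C r) * (mp a /ₘ (X - C r)) + C ((mp a).eval r) = mp a := by
    rw [← modByMonic_X_sub_C_eq_C_eval, add_comm]
    exact modByMonic_add_div (mp a) (X - C r)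
  have hdeg : (mp a /ₘ (X - C r)).natDegree = n - 1 := by
    rw [natDegree_divByMonic _ (monic_X_sub_C r), mp_natDegree, natDegree_X_sub_C]
  have hlead : (mp a /ₘ (X - C r)).leadingCoeff = 1 := by
    rw [leadingCoeff_divByMonic_of_monic (monic_X_sub_C r), (mp_monic a).leadingCoeff]
    rw [degree_X_sub_C, degree_eq_natDegree (mp_monic a).ne_zero, mp_natDegree]
    exact_mod_cast hn
  refine ⟨h1, ?_, ?_, ?_⟩
  · have h2 := congrArg (fun p => (derivative p).eval r) h1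
    simp only [derivative_add, derivative_mul, derivative_sub, derivative_X, derivative_C,
      eval_add, eval_mul, eval_sub, eval_X, eval_C, sub_self, zero_mul, add_zero,
      one_mul, sub_zero] at h2
    exact h2
  · refine lt_of_le_of_lt degree_le_natDegree ?_
    rw [hdeg]
    exact_mod_cast (by omega : n - 1 < n)
  · rw [← hdeg]
    exact hlead

/-- the additional integer -/
theorem Dat.isIntegral_psi {n : ℕ} {T : ℝ} {a : Fin n → 𝓞 F} {m r : 𝓞 F} {θ : L}
    (D : Dat n T a m r θ) {ψ : L} (hψ : algebraMap (𝓞 F) L m * ψ = aeval θ (mp a /ₘ (X - C r))) :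
    IsIntegral ℤ ψ := by
  have hn := D.n4
  obtain ⟨h1, h2, -, -⟩ := div_facts (by omega : 1 ≤ n) a r
  set q := mp a /ₘ (X - C r) with hq
  obtain ⟨s, hs⟩ := D.h1
  obtain ⟨t, ht⟩ := D.h2
  have hm : algebraMap (𝓞 F) L m ≠ 0 := by
    intro h
    apply D.m0
    have h3 : algebraMap F L (m : F) = 0 := h
    rw [map_eq_zero] at h3
    exact RingOfIntegers.coe_injective h3
  have h3 : (X - C r) * (q /ₘ (X - C r)) + C (q.eval r) = q := by
    rw [← modByMonic_X_sub_C_eq_C_eval, add_comm]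
    exact modByMonic_add_div q (X - C r)
  set q₂ := q /ₘ (X - C r) with hq₂
  have e1 := congrArg (aeval θ) h1
  have e2 := congrArg (aeval θ) h3
  rw [D.zero, map_add, map_mul, map_sub, aeval_X, aeval_C, aeval_C, hs, map_mul, map_pow] at e1
  rw [map_add, map_mul, map_sub, aeval_X, aeval_C, aeval_C, h2, ht, map_mul] at e2
  set mm := algebraMap (𝓞 F) L m with hmm
  set rr := algebraMap (𝓞 F) L r
  set ss := algebraMap (𝓞 F) L s
  set tt := algebraMap (𝓞 F) L t
  set Q := aeval θ q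
  set Q₂ := aeval θ q₂
  have key : ψ ^ 2 = -ss * Q₂ + tt * ψ := by
    have h4 : mm ^ 2 * ψ ^ 2 = mm ^ 2 * (-ss * Q₂ + tt * ψ) := by
      have h5 : mm ^ 2 * ψ ^ 2 = Q * Q := by rw [← hψ]; ring
      have h6 : Q * Q = Q * ((θ - rr) * Q₂) + Q * (mm * tt) := by
        rw [← mul_add, e2]
      rw [h5, h6]
      have h7 : Q * ((θ - rr) * Q₂) = -(mm ^ 2 * ss) * Q₂ := by
        linear_combination Q₂ * e1
      rw [h7, ← hψ]
      ring
    exact mul_left_cancel₀ (pow_ne_zero 2 hm) h4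
  -- integrality over the ring of integers
  have hθ := D.integral
  have hintF : ∀ x : 𝓞 F, IsIntegral ℤ (algebraMap (𝓞 F) L x) := fun x =>
    (RingOfIntegers.isIntegral_coe x).map (IsScalarTower.toAlgHom ℤ F L)
  have hQ₂ : IsIntegral ℤ Q₂ := by
    have h8 : IsIntegral (𝓞 F) Q₂ := by
      have h9 : IsIntegral (𝓞 F) θ := ⟨mp a, mp_monic a, D.zero⟩
      exact IsIntegral.of_mem_of_fg _ h9.fg_adjoin_singleton _ (aeval_mem q₂ θ)
    have hsc : IsScalarTower ℤ (𝓞 F) L :=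
      IsScalarTower.of_algebraMap_eq' (Subsingleton.elim _ _)
    exact isIntegral_trans _ h8
  let B := integralClosure ℤ L
  have hc : ss * Q₂ ∈ B := (hintF s).mul hQ₂
  have ht' : tt ∈ B := hintF t
  have h10 : IsIntegral B ψ := by
    refine ⟨X ^ 2 + (-C (⟨tt, ht'⟩ : B) * X + C (⟨ss * Q₂, hc⟩ : B)), ?_, ?_⟩
    · apply monic_X_pow_add
      refine lt_of_le_of_lt (degree_add_le _ _) (max_lt ?_ ?_)
      · rw [← C_neg]
        refine lt_of_le_of_lt (degree_C_mul_X_le _) ?_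
        norm_num
      · exact lt_of_le_of_lt degree_C_le (by norm_num)
    · simp only [eval₂_add, eval₂_mul, eval₂_neg, eval₂_C, eval₂_X, eval₂_X_pow]
      change ψ ^ 2 + (-tt * ψ + ss * Q₂) = 0
      rw [key]
      ring
  exact isIntegral_trans (R := ℤ) (A := B) ψ h10

/-- the size of a short polynomial at the root -/
theorem Dat.short_le {n d : ℕ} {T c : ℝ} {a : Fin n → 𝓞 F} {m r : 𝓞 F} {θ : L}
    (D : Dat n T a m r θ) (hdn : 2 * d + 1 ≤ n) (hc : 0 ≤ c) {w : Fin (d + 1) → 𝓞 F}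
    (hw : w ∈ SmI F n d T c m r) (φ : L →+* ℂ) :
    ‖φ (aeval θ (pol w))‖ ≤ c * ((d + 1) * 2 ^ d) * T ^ n := by
  have hT := D.T1
  have hT0 : 0 < T := by linarith
  rw [aeval_pol, map_sum]
  refine (norm_sum_le _ _).trans ?_
  have h1 : ∀ i ∈ (Finset.univ : Finset (Fin (d + 1))),
      ‖φ (algebraMap (𝓞 F) L (w i) * θ ^ (i : ℕ))‖ ≤ c * (2 ^ d * T ^ n) := by
    intro i _
    have hi := i.2
    rw [map_mul, map_pow, norm_mul, norm_pow]
    have h2 := hw.1 i (φ.comp (algebraMap F L))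
    have h3 : T ^ n = T ^ (n - 2 * (i : ℕ)) * (T ^ 2) ^ (i : ℕ) := by
      rw [← pow_mul, ← pow_add]
      congr 1
      omega
    calc ‖φ (algebraMap (𝓞 F) L (w i))‖ * ‖φ θ‖ ^ (i : ℕ) ≤
          (c * T ^ (n - 2 * (i : ℕ))) * (2 * T ^ 2) ^ (i : ℕ) :=
          mul_le_mul h2 (pow_le_pow_left₀ (norm_nonneg _) (D.root φ) _) (by positivity)
            (by positivity)
      _ = c * (2 ^ (i : ℕ) * T ^ n) := by rw [h3, mul_pow]; ring
      _ ≤ c * (2 ^ d * T ^ n) := by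
          refine mul_le_mul_of_nonneg_left (mul_le_mul_of_nonneg_right ?_ (by positivity)) hc
          exact pow_le_pow_right₀ (by norm_num) (by omega)
  refine (Finset.sum_le_sum h1).trans (le_of_eq ?_)
  rw [Finset.sum_const, Finset.card_univ, Fintype.card_fin, nsmul_eq_mul]
  push_cast
  ring

/-- the key property -/
theorem Dat.key {n d : ℕ} {T c : ℝ} {a : Fin n → 𝓞 F} {m r : 𝓞 F} {θ : L}
    (D : Dat n T a m r θ) (hdn : 2 * d + 1 ≤ n) (hc : 0 ≤ c)
    (hc1 : n * (3 * 2 ^ n) * (c * ((d + 1) * 2 ^ d) * 4) < 1) (hgood : Good F n d T c m r)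
    (hT : n * (3 * 2 ^ n) * 4 < T ^ 2) {ψ : L}
    (hψ : algebraMap (𝓞 F) L m * ψ = aeval θ (mp a /ₘ (X - C r))) (v : Fin n → 𝓞 F) (j : 𝓞 F)
    (hx : ∀ φ : L →+* ℂ, ‖φ (aeval θ (pol v) + algebraMap (𝓞 F) L j * ψ)‖ ≤ 4 * T ^ 2) :
    m ∣ j ∧ ∃ u₀ ∈ Box F (n * (3 * 2 ^ n) * 4 * T ^ 2), ∃ u₁ ∈ Box F (n * (3 * 2 ^ n) * 4),
      aeval θ (pol v) + algebraMap (𝓞 F) L j * ψ =
        algebraMap (𝓞 F) L u₀ + algebraMap (𝓞 F) L u₁ * θ := by
  have hn := D.n4
  have hT1 := D.T1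
  have hT0 : 0 < T := by linarith
  obtain ⟨h1, -, hqdeg, hqtop⟩ := div_facts (by omega : 1 ≤ n) a r
  set q := mp a /ₘ (X - C r) with hq
  obtain ⟨s, hs⟩ := D.h1
  have hm : algebraMap (𝓞 F) L m ≠ 0 := by
    intro h
    apply D.m0
    have h3 : algebraMap F L (m : F) = 0 := h
    rw [map_eq_zero] at h3
    exact RingOfIntegers.coe_injective h3
  have e1 := congrArg (aeval θ) h1
  rw [D.zero, map_add, map_mul, map_sub, aeval_X, aeval_C, aeval_C, hs, map_mul, map_pow] at e1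
  set x := aeval θ (pol v) + algebraMap (𝓞 F) L j * ψ with hxdef
  -- the product with a short polynomial
  have hprod : ∀ w ∈ SmI F n d T c m r, D.top (aeval θ (pol w) * x) = 0 := by
    intro w hw
    obtain ⟨g₀, hg₀⟩ := hw.2
    have h3 : (X - C r) * (pol w /ₘ (X - C r)) + C ((pol w).eval r) = pol w := by
      rw [← modByMonic_X_sub_C_eq_C_eval, add_comm]
      exact modByMonic_add_div (pol w) (X - C r)
    have e2 := congrArg (aeval θ) h3
    rw [map_add, map_mul, map_sub, aeval_X, aeval_C, aeval_C, hg₀, map_mul] at e2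
    have h4 : aeval θ (pol w) * ψ = -(algebraMap (𝓞 F) L m * algebraMap (𝓞 F) L s) *
        aeval θ (pol w /ₘ (X - C r)) + algebraMap (𝓞 F) L g₀ * aeval θ q := by
      apply mul_left_cancel₀ hm
      have h5 : algebraMap (𝓞 F) L m * (aeval θ (pol w) * ψ) = aeval θ (pol w) * aeval θ q := by
        rw [← hψ]; ring
      rw [h5, ← e2]
      linear_combination (aeval θ (pol w /ₘ (X - C r))) * e1
    have h5 : aeval θ (pol w) * x ∈ Algebra.adjoin (𝓞 F) {θ} := by
      have h6 : aeval θ (pol w) * x = aeval θ (pol w) * aeval θ (pol v) +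
          algebraMap (𝓞 F) L j * (aeval θ (pol w) * ψ) := by rw [hxdef]; ring
      rw [h6, h4]
      refine add_mem (mul_mem (aeval_mem _ _) (aeval_mem _ _)) (mul_mem (Subalgebra.algebraMap_mem _ _)
        (add_mem (mul_mem (neg_mem (mul_mem (Subalgebra.algebraMap_mem _ _)
          (Subalgebra.algebraMap_mem _ _))) (aeval_mem _ _))
          (mul_mem (Subalgebra.algebraMap_mem _ _) (aeval_mem _ _))))
    obtain ⟨u, hu⟩ := exists_pol_of_mem a θ D.zero h5
    rw [hu, D.top_pol]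
    have h7 : u ⟨n - 1, by omega⟩ = 0 := by
      by_contra h0
      obtain ⟨σ, hσ⟩ := exists_conjugate_one_le_norm h0
      have h8 := D.coord u (Y := c * ((d + 1) * 2 ^ d) * T ^ n * (4 * T ^ 2)) (by positivity) (by
        intro φ
        rw [← hu, map_mul, norm_mul]
        exact mul_le_mul (D.short_le hdn hc hw φ) (hx φ) (norm_nonneg _) (by positivity)) σ
        ⟨n - 1, by omega⟩
      have h9 : T ^ n * T ^ 2 ≤ T ^ (2 * (n - 1)) := by
        rw [← pow_add]
        exact pow_le_pow_right₀ hT1 (by omega)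
      have h10 : T ^ (2 * (n - 1)) ≤ ‖σ (u ⟨n - 1, by omega⟩ : F)‖ * T ^ (2 * (n - 1)) :=
        le_mul_of_one_le_left (by positivity) hσ
      have h11 : (0 : ℝ) ≤ n * (3 * 2 ^ n) * (c * ((d + 1) * 2 ^ d) * 4) := by positivity
      have h12 : n * (3 * 2 ^ n) * (c * ((d + 1) * 2 ^ d) * T ^ n * (4 * T ^ 2)) =
          n * (3 * 2 ^ n) * (c * ((d + 1) * 2 ^ d) * 4) * (T ^ n * T ^ 2) := by ring
      rw [h12] at h8
      have h13 : n * (3 * 2 ^ n) * (c * ((d + 1) * 2 ^ d) * 4) * (T ^ n * T ^ 2) ≤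
          n * (3 * 2 ^ n) * (c * ((d + 1) * 2 ^ d) * 4) * T ^ (2 * (n - 1)) :=
        mul_le_mul_of_nonneg_left h9 h11
      have h14 : n * (3 * 2 ^ n) * (c * ((d + 1) * 2 ^ d) * 4) * T ^ (2 * (n - 1)) <
          T ^ (2 * (n - 1)) := by
        have : 0 < T ^ (2 * (n - 1)) := by positivity
        exact mul_lt_of_lt_one_left this hc1
      have h15 : ‖σ (u ⟨n - 1, by omega⟩ : F)‖ * T ^ (2 * (n - 1)) ≤
          n * (3 * 2 ^ n) * (c * ((d + 1) * 2 ^ d) * 4) * (T ^ n * T ^ 2) := h8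
      linarith
    rw [h7]
    rfl
  -- the functional
  let Φ : (Fin (d + 1) → F) →ₗ[ℚ] F :=
    { toFun := fun w => D.top (evL F (d + 1) θ w * x)
      map_add' := fun w w' => by rw [map_add, add_mul, D.top_add]
      map_smul' := fun p w => by
        have h3 : p • w = (p : F) • w := by
          funext i
          rw [Pi.smul_apply, Pi.smul_apply, Algebra.smul_def, smul_eq_mul, eq_ratCast]
        rw [h3, map_smul, RingHom.id_apply, smul_mul_assoc, Dat.top, map_smul, Pi.smul_apply,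
          smul_eq_mul, Algebra.smul_def, eq_ratCast]
        rfl }
  have hker : LinearMap.ker Φ = ⊤ := by
    rw [eq_top_iff]
    have h3 : Submodule.span ℚ ((fun (v : Fin (d + 1) → 𝓞 F) (i : Fin (d + 1)) => (v i : F)) ''
      SmI F n d T c m r) = ⊤ := hgood
    rw [← h3, Submodule.span_le]
    rintro _ ⟨w, hw, rfl⟩
    change D.top (evL F (d + 1) θ (fun i => (w i : F)) * x) = 0
    rw [evL_coe]
    exact hprod w hw
  have htop : D.top x = 0 := by
    have h3 : (Pi.single 0 1 : Fin (d + 1) → F) ∈ LinearMap.ker Φ := by rw [hker]; trivial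
    have h4 : D.top (evL F (d + 1) θ (Pi.single 0 1) * x) = 0 := h3
    have h5 : evL F (d + 1) θ (Pi.single 0 1) = 1 := by
      rw [evL_apply, pol_single]
      simp
    rwa [h5, one_mul] at h4
  -- the additional coordinate
  have hqpol : aeval θ q = aeval θ (pol fun k : Fin n => q.coeff k) := by
    rw [pol_coeff _ hqdeg]
  have hpsi : (m : F) * D.top ψ = 1 := by
    rw [← D.top_mul, hψ, hqpol, D.top_pol]
    change ((q.coeff (n - 1) : 𝓞 F) : F) = 1
    rw [hqtop]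
    rfl
  have hj : j = -(m * v ⟨n - 1, by omega⟩) := by
    apply RingOfIntegers.coe_injective (K := F)
    rw [hxdef, D.top_add, D.top_pol, D.top_mul] at htop
    have h3 : ((-(m * v ⟨n - 1, by omega⟩) : 𝓞 F) : F) = -((m : F) * (v ⟨n - 1, by omega⟩ : F)) := by
      simp
    change (j : F) = ((-(m * v ⟨n - 1, by omega⟩) : 𝓞 F) : F)
    rw [h3]
    linear_combination (m : F) * htop - (j : F) * hpsi
  refine ⟨⟨-v ⟨n - 1, by omega⟩, by rw [hj]; ring⟩, ?_⟩
  -- the remaining coordinates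
  let v' : Fin n → 𝓞 F := fun k => v k - v ⟨n - 1, by omega⟩ * q.coeff k
  have hv' : x = aeval θ (pol v') := by
    have h3 : pol v' = pol v - C (v ⟨n - 1, by omega⟩) * q := by
      have h4 : q = pol fun k : Fin n => q.coeff k := (pol_coeff _ hqdeg).symm
      refine Polynomial.ext fun k => ?_
      rw [coeff_sub, coeff_C_mul, coeff_pol, coeff_pol]
      split_ifs with h5
      · rfl
      · rw [h4, coeff_pol, dif_neg h5]
        simp
    rw [h3, map_sub, map_mul, aeval_C, ← hψ, hxdef, hj, map_neg, map_mul]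
    ring
  have hbound : ∀ (k : Fin n) (σ : F →+* ℂ), ‖σ (v' k : F)‖ * T ^ (2 * (k : ℕ)) ≤
      n * (3 * 2 ^ n) * (4 * T ^ 2) := fun k σ =>
    D.coord v' (by positivity) (by
      intro φ
      rw [← hv']
      exact hx φ) σ k
  have hzero : ∀ k : Fin n, 2 ≤ (k : ℕ) → v' k = 0 := by
    intro k hk
    by_contra h0
    obtain ⟨σ, hσ⟩ := exists_conjugate_one_le_norm h0
    have h3 := hbound k σ
    have h4 : T ^ 4 ≤ T ^ (2 * (k : ℕ)) := pow_le_pow_right₀ hT1 (by omega)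
    have h5 : T ^ (2 * (k : ℕ)) ≤ ‖σ (v' k : F)‖ * T ^ (2 * (k : ℕ)) :=
      le_mul_of_one_le_left (by positivity) hσ
    have h6 : n * (3 * 2 ^ n) * (4 * T ^ 2) < T ^ 4 := by
      have h7 : T ^ 4 = T ^ 2 * T ^ 2 := by ring
      have h8 : (0 : ℝ) < T ^ 2 := by positivity
      rw [h7]
      nlinarith
    linarith
  refine ⟨v' ⟨0, by omega⟩, ?_, v' ⟨1, by omega⟩, ?_, ?_⟩
  · intro σ
    have h3 := hbound ⟨0, by omega⟩ σ
    simp only [mul_zero, pow_zero, mul_one] at h3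
    linarith
  · intro σ
    have h3 := hbound ⟨1, by omega⟩ σ
    simp only [mul_one] at h3
    have h8 : (0 : ℝ) < T ^ 2 := by positivity
    refine le_of_mul_le_mul_right ?_ h8
    calc _ ≤ (n : ℝ) * (3 * 2 ^ n) * (4 * T ^ 2) := h3
      _ = _ := by ring
  · rw [hv', aeval_pol]
    obtain ⟨k, rfl⟩ : ∃ k, n = k + 2 := ⟨n - 2, by omega⟩
    rw [Fin.sum_univ_succ, Fin.sum_univ_succ]
    have h3 : ∑ i : Fin k, algebraMap (𝓞 F) L (v' i.succ.succ) * θ ^ ((i.succ.succ : Fin (k + 2)) : ℕ) = 0 := by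
      refine Finset.sum_eq_zero fun i _ => ?_
      rw [hzero i.succ.succ (by simp), map_zero, zero_mul]
    rw [h3]
    simp

end

end Pool.Agent.H26.Big
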