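import Pool.Agent.H26.Big.Bad

/-!
# The number of the pairs for a given polynomial
-/

set_option autoImplicit false

open Module NumberField Polynomial UniqueFactorizationMonoid

namespace Pool.Agent.H26.Big

open Pool.Agent.Helper313LB Pool.Agent.H26.Mass

section

variable {F : Type} [Field F] [NumberField F]

/-- the number of the divisors of an ideal -/
theorem two_pow_le_divisors {I : Ideal (𝓞 F)} (hI : I ≠ 0) [DecidableEq (Ideal (𝓞 F))] :
    2 ^ (normalizedFactors I).toFinset.card ≤ {J | J ∣ I}.ncard := by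
  classical
  rw [← Finset.card_powerset]
  set Ps := (normalizedFactors I).toFinset with hPs
  have hprime : ∀ p ∈ Ps, Prime p := fun p hp =>
    prime_of_normalized_factor p (Multiset.mem_toFinset.1 hp)
  have hinj : Set.InjOn (fun S : Finset (Ideal (𝓞 F)) => ∏ p ∈ S, p) (Ps.powerset : Set _) := by
    have key : ∀ S ⊆ Ps, ∀ q ∈ Ps, q ∣ ∏ p ∈ S, p → q ∈ S := by
      intro S hS q hq h
      obtain ⟨p, hp, hqp⟩ := ((hprime q hq).dvd_finset_prod_iff _).1 h
      have h1 := ((hprime q hq).dvd_prime_iff_associated (hprime p (hS hp))).1 hqp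
      rw [associated_iff_eq] at h1
      rwa [h1]
    intro S hS S' hS' h
    rw [Finset.mem_coe, Finset.mem_powerset] at hS hS'
    have h' : ∏ p ∈ S, p = ∏ p ∈ S', p := h
    apply Finset.Subset.antisymm
    · intro q hq
      refine key S' hS' q (hS hq) ?_
      rw [← h']
      exact Finset.dvd_prod_of_mem (fun p => p) hq
    · intro q hq
      refine key S hS q (hS' hq) ?_
      rw [h']
      exact Finset.dvd_prod_of_mem (fun p => p) hq
  rw [← Finset.card_image_of_injOn hinj, ← Set.ncard_coe_finset]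
  refine Set.ncard_le_ncard ?_ (finite_dvd hI)
  intro J hJ
  rw [Finset.mem_coe, Finset.mem_image] at hJ
  obtain ⟨S, hS, rfl⟩ := hJ
  rw [Finset.mem_powerset] at hS
  refine Finset.prod_primes_dvd (M₀ := Ideal (𝓞 F)) I (fun p hp => hprime p (hS hp)) fun p hp => ?_
  exact dvd_of_mem_normalizedFactors (Multiset.mem_toFinset.1 (hS hp))

theorem card_image_mk_le {n : ℕ} (p : Ideal (𝓞 F)) [p.IsPrime] [DecidableEq (𝓞 F ⧸ p)]
    (f : (𝓞 F)[X]) (hf : f.Monic)
    (hdeg : f.natDegree = n) (R : Finset (𝓞 F)) (hR : ∀ r ∈ R, f.eval r ∈ p) :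
    (R.image (Ideal.Quotient.mk p)).card ≤ n := by
  have hne : f.map (Ideal.Quotient.mk p) ≠ 0 := (hf.map _).ne_zero
  have h1 : R.image (Ideal.Quotient.mk p) ⊆ (f.map (Ideal.Quotient.mk p)).roots.toFinset := by
    intro x hx
    obtain ⟨r, hr, rfl⟩ := Finset.mem_image.1 hx
    rw [Multiset.mem_toFinset, mem_roots hne, IsRoot, eval_map_apply]
    exact Ideal.Quotient.eq_zero_iff_mem.2 (hR r hr)
  refine (Finset.card_le_card h1).trans ((Multiset.toFinset_card_le _).trans
    ((card_roots' _).trans ?_))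
  rw [← hdeg]
  exact natDegree_map_le

/-- the number of the roots modulo a squarefree number -/
theorem card_roots_le {n : ℕ} {m : 𝓞 F} (hm : m ≠ 0) (hsq : Squarefree (Ideal.span {m}))
    (f : (𝓞 F)[X]) (hf : f.Monic) (hdeg : f.natDegree = n) (R : Finset (𝓞 F)) {P : ℝ}
    (hP : 0 < P) (hmP : ∀ σ : F →+* ℂ, P / 2 ≤ ‖σ (m : F)‖)
    (hR : ∀ r ∈ R, r ∈ Box F P ∧ m ∣ f.eval r) :
    R.card ≤ (Box F 4).ncard * {J | J ∣ Ideal.span {m}}.ncard ^ n := by
  classical
  have hI : Ideal.span {m} ≠ 0 := fun h => hm (Ideal.span_singleton_eq_bot.1 h)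
  set Ps := (normalizedFactors (Ideal.span {m})).toFinset with hPs
  have hprime : ∀ p ∈ Ps, Prime p := fun p hp =>
    prime_of_normalized_factor p (Multiset.mem_toFinset.1 hp)
  have hprod : ∏ p ∈ Ps, p = Ideal.span {m} := by
    have h1 := (squarefree_iff_nodup_normalizedFactors hI).1 hsq
    have h2 : ∏ p ∈ Ps, p = (normalizedFactors (Ideal.span {m})).prod := by
      rw [hPs, Finset.prod, Multiset.toFinset_val, h1.dedup, Multiset.map_id']
    rw [h2]
    exact prod_normalizedFactors_eq_self hI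
  have hdvd : ∀ p ∈ Ps, p ∣ Ideal.span {m} := fun p hp =>
    dvd_of_mem_normalizedFactors (Multiset.mem_toFinset.1 hp)
  -- the residues
  have hprim : ∀ p : Ps, (p : Ideal (𝓞 F)).IsPrime := fun p =>
    Ideal.isPrime_of_prime (hprime p p.2)
  let Z : (p : Ps) → Finset (𝓞 F ⧸ (p : Ideal (𝓞 F))) := fun p =>
    R.image (Ideal.Quotient.mk (p : Ideal (𝓞 F)))
  let Φ : 𝓞 F → (p : Ps) → 𝓞 F ⧸ (p : Ideal (𝓞 F)) := fun r p =>
    Ideal.Quotient.mk (p : Ideal (𝓞 F)) r
  have hZ : ∀ p, (Z p).card ≤ n := by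
    intro p
    have := hprim p
    refine card_image_mk_le (p : Ideal (𝓞 F)) f hf hdeg R fun r hr => ?_
    have h1 : (p : Ideal (𝓞 F)) ∣ Ideal.span {f.eval r} := (hdvd p p.2).trans (by
      rw [Ideal.dvd_span_singleton, Ideal.mem_span_singleton]
      exact (hR r hr).2)
    rwa [Ideal.dvd_span_singleton] at h1
  have himg : (R.image Φ).card ≤ {J | J ∣ Ideal.span {m}}.ncard ^ n := by
    have h1 : R.image Φ ⊆ Fintype.piFinset Z := by
      intro x hx
      obtain ⟨r, hr, rfl⟩ := Finset.mem_image.1 hx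
      rw [Fintype.mem_piFinset]
      intro p
      exact Finset.mem_image_of_mem _ hr
    refine (Finset.card_le_card h1).trans ?_
    rw [Fintype.card_piFinset]
    refine (Finset.prod_le_prod' fun p _ => hZ p).trans ?_
    rw [Finset.prod_const, Finset.card_univ, Fintype.card_coe]
    calc n ^ Ps.card ≤ (2 ^ n) ^ Ps.card := Nat.pow_le_pow_left (Nat.lt_two_pow_self).le _
      _ = (2 ^ Ps.card) ^ n := by rw [← pow_mul, ← pow_mul, mul_comm]
      _ ≤ _ := Nat.pow_le_pow_left (two_pow_le_divisors hI) _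
  refine (Finset.card_le_mul_card_image (f := Φ) R ((Box F 4).ncard) ?_).trans
    (Nat.mul_le_mul_left _ himg)
  intro x hx
  obtain ⟨r₀, hr₀, rfl⟩ := Finset.mem_image.1 hx
  have hex : ∀ r ∈ R.filter (fun r => Φ r = Φ r₀), ∃ x : 𝓞 F, r - r₀ = m * x := by
    intro r hr
    have h4 := (Finset.mem_filter.1 hr).2
    have h5 : Ideal.span {m} ∣ Ideal.span {r - r₀} := by
      rw [← hprod]
      refine Finset.prod_primes_dvd (M₀ := Ideal (𝓞 F)) _ hprime fun p hp => ?_
      rw [Ideal.dvd_span_singleton]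
      exact Ideal.Quotient.eq.1 (congrFun h4 ⟨p, hp⟩)
    rw [Ideal.dvd_span_singleton, Ideal.mem_span_singleton] at h5
    obtain ⟨x, hx⟩ := h5
    exact ⟨x, hx⟩
  choose! g hg using hex
  rw [Set.ncard_eq_toFinset_card _ (finite_Box F 4)]
  refine Finset.card_le_card_of_injOn g ?_ ?_
  · intro r hr
    rw [Finset.mem_coe] at hr
    rw [Finset.mem_coe, Set.Finite.mem_toFinset]
    have hb : ∀ σ : F →+* ℂ, ‖σ ((r - r₀ : 𝓞 F) : F)‖ ≤ 2 * P := by
      intro σ
      have e : σ ((r - r₀ : 𝓞 F) : F) = σ (r : F) - σ (r₀ : F) := by simp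
      rw [e]
      refine (norm_sub_le _ _).trans ?_
      have h5 := (hR r (Finset.mem_filter.1 hr).1).1 σ
      have h6 := (hR r₀ hr₀).1 σ
      linarith
    have h6 := quot_mem_Box (hg r hr) (by positivity : 0 < P / 2) hmP hb
    have e : 2 * P / (P / 2) = 4 := by field_simp; norm_num
    rwa [e] at h6
  · intro r hr r' hr' h
    rw [Finset.mem_coe] at hr hr'
    have h7 : r - r₀ = r' - r₀ := by rw [hg r hr, hg r' hr', h]
    exact sub_left_injective h7

/-- the resultant of a polynomial and its derivative -/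
noncomputable def rs {n : ℕ} (a : Fin n → 𝓞 F) : 𝓞 F :=
  resultant (mp a) (derivative (mp a)) n (n - 1)

theorem dvd_rs {n : ℕ} (hn : 1 ≤ n) (a : Fin n → 𝓞 F) {m r : 𝓞 F} (h1 : m ∣ (mp a).eval r)
    (h2 : m ∣ (derivative (mp a)).eval r) : m ∣ rs a := by
  obtain ⟨p, q, -, -, h⟩ := exists_mul_add_mul_eq_C_resultant (m := n) (n := n - 1) (mp a)
    (derivative (mp a)) (mp_natDegree a).le
    ((natDegree_derivative_le _).trans (by rw [mp_natDegree])) (Or.inl (by omega))
  have h3 := congrArg (eval r) h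
  rw [eval_add, eval_mul, eval_mul, eval_C] at h3
  rw [rs, ← h3]
  exact dvd_add (h1.mul_right _) (h2.mul_right _)

theorem rs_ne_zero {n : ℕ} (hn : 1 ≤ n) (a : Fin n → 𝓞 F)
    (hirr : Irreducible ((mp a).map (algebraMap (𝓞 F) F))) : rs a ≠ 0 := by
  intro h
  have h1 := congrArg (algebraMap (𝓞 F) F) h
  rw [map_zero, rs, ← resultant_map_map, ← derivative_map] at h1
  have h2 : ((mp a).map (algebraMap (𝓞 F) F)).natDegree = n := by
    rw [mp_map, mp_natDegree]
  have h3 : (derivative ((mp a).map (algebraMap (𝓞 F) F))).natDegree = n - 1 := by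
    rw [natDegree_derivative, h2]
  have h4 := resultant_ne_zero _ _ hirr.separable
  rw [h2, h3] at h4
  exact h4 h1

theorem rs_size {n : ℕ} (hn : 1 ≤ n) (a : Fin n → 𝓞 F) {T : ℝ} (hT : 1 ≤ T)
    (ha : ∀ k : Fin n, ∀ σ : F →+* ℂ, ‖σ (a k : F)‖ ≤ 2 * T ^ (2 * (n - (k : ℕ))))
    (σ : F →+* ℂ) : ‖σ (rs a : F)‖ ≤
      ((n + (n - 1)).factorial * (2 * n) ^ (n + (n - 1))) * T ^ (2 * n * (n + (n - 1))) := by
  have hT0 : 0 < T := by linarith
  have hnR : (1 : ℝ) ≤ n := by exact_mod_cast hn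
  have h1 : σ (rs a : F) = resultant ((mp a).map (σ.comp (algebraMap (𝓞 F) F)))
      ((derivative (mp a)).map (σ.comp (algebraMap (𝓞 F) F))) n (n - 1) := by
    rw [resultant_map_map]
    rfl
  have hc : ∀ k, ‖((mp a).map (σ.comp (algebraMap (𝓞 F) F))).coeff k‖ ≤ 2 * T ^ (2 * n) := by
    intro k
    have h2 : (1 : ℝ) ≤ T ^ (2 * n) := one_le_pow₀ hT
    rw [coeff_map]
    rcases lt_trichotomy k n with h | h | h
    · rw [mp_coeff_lt a h]
      refine (ha ⟨k, h⟩ σ).trans ?_
      exact mul_le_mul_of_nonneg_left (pow_le_pow_right₀ hT (by omega)) (by norm_num)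
    · have h3 := (mp_monic a).coeff_natDegree
      rw [mp_natDegree] at h3
      rw [h, h3, map_one, norm_one]
      linarith
    · rw [coeff_eq_zero_of_natDegree_lt (by rw [mp_natDegree]; exact h), map_zero, norm_zero]
      positivity
  have hc' : ∀ k, ‖((derivative (mp a)).map (σ.comp (algebraMap (𝓞 F) F))).coeff k‖ ≤
      (2 * n) * T ^ (2 * n) := by
    intro k
    rw [← derivative_map, coeff_derivative, norm_mul]
    have h4 : ‖((k : ℂ) + 1)‖ = (k : ℝ) + 1 := by
      have : ((k : ℂ) + 1) = ((k + 1 : ℕ) : ℂ) := by push_cast; rfl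
      rw [this, Complex.norm_natCast]
      push_cast
      rfl
    rw [h4]
    by_cases hk : k + 1 ≤ n
    · have h5 : (k : ℝ) + 1 ≤ n := by exact_mod_cast hk
      calc _ ≤ (2 * T ^ (2 * n)) * n := mul_le_mul (hc _) h5 (by positivity) (by positivity)
        _ = _ := by ring
    · rw [coeff_eq_zero_of_natDegree_lt, norm_zero, zero_mul]
      · positivity
      · refine lt_of_le_of_lt natDegree_map_le ?_
        rw [mp_natDegree]
        omega
  have hb : (2 : ℝ) * T ^ (2 * n) ≤ (2 * n) * T ^ (2 * n) :=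
    mul_le_mul_of_nonneg_right (by linarith) (by positivity)
  have hentry : ∀ i j, ‖sylvester ((mp a).map (σ.comp (algebraMap (𝓞 F) F)))
      ((derivative (mp a)).map (σ.comp (algebraMap (𝓞 F) F))) n (n - 1) i j‖ ≤
      (2 * n) * T ^ (2 * n) := by
    intro i j
    rw [sylvester, Matrix.of_apply]
    induction j using Fin.addCases with
    | left j =>
      rw [Fin.addCases_left]
      split_ifs
      · exact hc' _
      · rw [norm_zero]; positivity
    | right j =>
      rw [Fin.addCases_right]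
      split_ifs
      · exact (hc _).trans hb
      · rw [norm_zero]; positivity
  rw [h1, resultant]
  have h2 := Matrix.det_le (A := sylvester ((mp a).map (σ.comp (algebraMap (𝓞 F) F)))
      ((derivative (mp a)).map (σ.comp (algebraMap (𝓞 F) F))) n (n - 1))
      (abv := NormedField.toAbsoluteValue ℂ) (x := (2 * n) * T ^ (2 * n)) hentry
  rw [Fintype.card_fin, nsmul_eq_mul] at h2
  refine le_trans h2 (le_of_eq ?_)
  rw [mul_pow, ← pow_mul]
  ring

/-- the number of the pairs for a polynomial -/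
theorem exists_mult_le (F : Type) [Field F] [NumberField F] {n : ℕ} (hn : 1 ≤ n) {ε : ℝ}
    (hε : 0 < ε) :
    ∃ C : ℝ, 1 ≤ C ∧ ∀ T : ℝ, 1 ≤ T → ∀ P : ℝ, 0 < P → ∀ a : Fin n → 𝓞 F,
      (∀ k : Fin n, ∀ σ : F →+* ℂ, ‖σ (a k : F)‖ ≤ 2 * T ^ (2 * (n - (k : ℕ)))) →
      Irreducible ((mp a).map (algebraMap (𝓞 F) F)) → ∀ S : Finset (𝓞 F × 𝓞 F),
      (∀ x ∈ S, (∀ σ : F →+* ℂ, P / 2 ≤ ‖σ (x.1 : F)‖ ∧ ‖σ (x.1 : F)‖ ≤ P) ∧
        Squarefree (Ideal.span {x.1}) ∧ x.2 ∈ Box F P ∧ x.1 ∣ (mp a).eval x.2 ∧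
        x.1 ∣ (derivative (mp a)).eval x.2) →
      (S.card : ℝ) ≤ C * T ^ ε := by
  classical
  set N := 2 * n * (n + (n - 1)) with hN
  set K : ℝ := ((n + (n - 1)).factorial * (2 * n) ^ (n + (n - 1))) with hK
  have hnR : (1 : ℝ) ≤ n := by exact_mod_cast hn
  have hK0 : 0 < K := by positivity
  obtain ⟨C₁, hC₁, hlead⟩ := exists_lead_le F N hK0 (half_pos hε)
  obtain ⟨C₂, hC₂, hdiv⟩ := exists_divisors_le F N hK0 (by positivity : 0 < ε / (2 * n))
  have hB : (1 : ℝ) ≤ (Box F 4).ncard := by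
    have : 0 < (Box F 4).ncard := by
      rw [Set.ncard_pos (finite_Box F 4)]
      exact ⟨0, fun σ => by simp⟩
    exact_mod_cast this
  refine ⟨C₁ * ((Box F 4).ncard * C₂ ^ n), ?_, ?_⟩
  · have h1 : 1 ≤ C₂ ^ n := one_le_pow₀ hC₂
    have h2 : 1 ≤ ((Box F 4).ncard : ℝ) * C₂ ^ n := one_le_mul_of_one_le_of_one_le hB h1
    exact one_le_mul_of_one_le_of_one_le hC₁ h2
  intro T hT P hP a ha hirr S hS
  have hT0 : 0 < T := by linarith
  have hD := rs_ne_zero hn a hirr
  have hDs := rs_size hn a hT ha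
  have h1 : S.card = ∑ m ∈ S.image Prod.fst, (S.filter fun x => x.1 = m).card :=
    Finset.card_eq_sum_card_fiberwise (fun p hp => Finset.mem_image_of_mem _ hp)
  have h2 : (S.card : ℝ) = ∑ m ∈ S.image Prod.fst, ((S.filter fun x => x.1 = m).card : ℝ) := by
    exact_mod_cast h1
  have h3 : ((S.image Prod.fst).card : ℝ) ≤ C₁ * T ^ (ε / 2) := by
    refine hlead T hT (rs a) hD hDs _ P hP ?_
    intro m hm
    obtain ⟨x, hx, rfl⟩ := Finset.mem_image.1 hm
    obtain ⟨h4, -, -, h5, h6⟩ := hS x hx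
    exact ⟨dvd_rs hn a h5 h6, h4⟩
  have h4 : ∀ m ∈ S.image Prod.fst, ((S.filter fun x => x.1 = m).card : ℝ) ≤
      (Box F 4).ncard * C₂ ^ n * T ^ (ε / 2) := by
    intro m hm
    obtain ⟨x, hx, rfl⟩ := Finset.mem_image.1 hm
    obtain ⟨h5, h6, -, h7, h8⟩ := hS x hx
    have hx0 : x.1 ≠ 0 := by
      intro h0
      obtain ⟨σ⟩ : Nonempty (F →+* ℂ) := inferInstance
      have := (h5 σ).1
      rw [h0] at this
      simp at this
      linarith
    have e : (S.filter fun y => y.1 = x.1).card =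
        ((S.filter fun y => y.1 = x.1).image Prod.snd).card := by
      rw [Finset.card_image_of_injOn]
      intro y hy z hz hyz
      have hy1 := (Finset.mem_filter.1 hy).2
      have hz1 := (Finset.mem_filter.1 hz).2
      exact Prod.ext (hy1.trans hz1.symm) hyz
    have h9 := card_roots_le hx0 h6 (mp a) (mp_monic a) (mp_natDegree a)
      ((S.filter fun y => y.1 = x.1).image Prod.snd) hP (fun σ => (h5 σ).1) (by
        intro r hr
        obtain ⟨y, hy, rfl⟩ := Finset.mem_image.1 hr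
        obtain ⟨hy1, hy2⟩ := Finset.mem_filter.1 hy
        obtain ⟨-, -, h10, h11, -⟩ := hS y hy1
        rw [← hy2]
        exact ⟨h10, h11⟩)
    rw [← e] at h9
    have h10 : ({J | J ∣ Ideal.span {x.1}}.ncard : ℝ) ≤ C₂ * T ^ (ε / (2 * n)) := by
      refine le_trans ?_ (hdiv T hT (rs a) hD hDs)
      have hD0 : Ideal.span {rs a} ≠ 0 := fun h => hD (Ideal.span_singleton_eq_bot.1 h)
      have h11 : Ideal.span {x.1} ∣ Ideal.span {rs a} := by
        rw [Ideal.dvd_span_singleton, Ideal.mem_span_singleton]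
        exact dvd_rs hn a h7 h8
      exact_mod_cast Set.ncard_le_ncard (fun J hJ => dvd_trans hJ h11) (finite_dvd hD0)
    have h12 : ((S.filter fun y => y.1 = x.1).card : ℝ) ≤
        (Box F 4).ncard * ({J | J ∣ Ideal.span {x.1}}.ncard : ℝ) ^ n := by exact_mod_cast h9
    refine h12.trans ?_
    have h13 : (({J | J ∣ Ideal.span {x.1}}.ncard : ℝ)) ^ n ≤ C₂ ^ n * T ^ (ε / 2) := by
      calc (({J | J ∣ Ideal.span {x.1}}.ncard : ℝ)) ^ n ≤ (C₂ * T ^ (ε / (2 * n))) ^ n :=
            pow_le_pow_left₀ (by positivity) h10 n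
        _ = _ := by
            rw [mul_pow, ← Real.rpow_natCast (T ^ (ε / (2 * n))), ← Real.rpow_mul hT0.le]
            congr 2
            field_simp
    rw [mul_assoc]
    exact mul_le_mul_of_nonneg_left h13 (by positivity)
  rw [h2]
  refine (Finset.sum_le_sum h4).trans ?_
  rw [Finset.sum_const, nsmul_eq_mul]
  have h5 : T ^ ε = T ^ (ε / 2) * T ^ (ε / 2) := by
    rw [← Real.rpow_add hT0]
    congr 1
    ring
  calc _ ≤ (C₁ * T ^ (ε / 2)) * ((Box F 4).ncard * C₂ ^ n * T ^ (ε / 2)) :=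
        mul_le_mul_of_nonneg_right h3 (by positivity)
    _ = _ := by rw [h5]; ring

end

end Pool.Agent.H26.Big
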