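import Pool.Agent.H26.Big.Base
import Pool.Agent.H26.Big.Mult
import Pool.Agent.H26.Big.Fields

/-!
# Many monic polynomials with a double root modulo a large number
-/

set_option autoImplicit false

open Module NumberField Polynomial IntermediateField Filter
open scoped Classical

namespace Pool.Agent.H26.Big

open Pool.Agent.Helper313LB Pool.Agent.Helper313SN Pool.Agent.H26.Mass

theorem kap_ge {n d : ℕ} : n ≤ kap n d := by
  rw [kap, Fin.sum_univ_succ]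
  simp

theorem exists_many {F : Type} [Field F] [NumberField F] {Ω : Type} [Field Ω] [CharZero Ω]
    [Algebra F Ω] {Q₁ : IntermediateField F Ω → Prop} {n d : ℕ} (hn : 4 ≤ n) (hd : 1 ≤ d)
    (hdn : 2 * d + 1 ≤ n) (hB : Pool.Agent.Helper313WR.Base Q₁ n) {η ε₃ : ℝ} (hη : 0 < η)
    (hη1 : η ≤ 1) (hε₃ : 0 < ε₃) :
    ∃ ε c cc T₀ : ℝ, 0 ≤ ε ∧ ε ≤ 1 ∧ 4 * (n : ℝ) ^ 2 * 2 ^ n * ε ≤ 1 ∧ 0 ≤ c ∧
      n * (3 * 2 ^ n) * (c * ((d + 1) * 2 ^ d) * 4) < 1 ∧ 0 < cc ∧ 1 ≤ T₀ ∧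
      ∀ T : ℝ, T₀ ≤ T → ∃ 𝒜 : Finset (Fin n → 𝓞 F),
        (∀ a ∈ 𝒜, Okb Q₁ n d T ε c (T ^ ((kap n d : ℝ) - η)) a) ∧
        cc * T ^ ((finrank ℚ F * (n * (n + 1)) : ℕ) - ε₃ : ℝ) ≤
          (𝒜.card : ℝ) * (T ^ ((kap n d : ℝ) - η)) ^ finrank ℚ F := by
  obtain ⟨a₀, M₀, hM₀, hbase⟩ := exists_class (by omega : 2 ≤ n) hB
  obtain ⟨M, hMM₀, hM1, c₁, H₁, hc₁, hH₁, hfam⟩ := exists_family F M₀ hM₀
  obtain ⟨cB, hcB, hBox⟩ := exists_le_ncard_Box F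
  have hnR : (4 : ℝ) ≤ n := by exact_mod_cast hn
  set ε : ℝ := 1 / (4 * (n : ℝ) ^ 2 * 2 ^ n) with hεdef
  have hε0 : 0 < ε := by positivity
  have hε : 4 * (n : ℝ) ^ 2 * 2 ^ n * ε ≤ 1 := by
    rw [hεdef]
    exact le_of_eq (mul_one_div_cancel (by positivity))
  have hε1 : ε ≤ 1 := by
    rw [hεdef, div_le_one (by positivity)]
    have h1 : (1 : ℝ) ≤ 2 ^ n := one_le_pow₀ (by norm_num)
    nlinarith
  obtain ⟨c₀, cF, T_F, hc₀, hcF, hT_F, hFam⟩ := exists_le_Fam F hd hdn hε0 M hM1 a₀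
  set D := finrank ℚ F with hD
  have hD0 : 0 < D := finrank_pos
  have hDR : (1 : ℝ) ≤ D := by exact_mod_cast hD0
  set W : ℝ := n * (3 * 2 ^ n) * (((d : ℝ) + 1) * 2 ^ d * 4) with hW
  have hW0 : 0 < W := by positivity
  set cg : ℝ := min c₀ (1 / (2 * W)) with hcg
  have hcg0 : 0 < cg := lt_min hc₀ (by positivity)
  have hcg1 : n * (3 * 2 ^ n) * (cg * ((d + 1) * 2 ^ d) * 4) < 1 := by
    have h1 : n * (3 * 2 ^ n) * (cg * ((d + 1) * 2 ^ d) * 4) = cg * W := by rw [hW]; ring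
    rw [h1]
    calc cg * W ≤ 1 / (2 * W) * W := mul_le_mul_of_nonneg_right (min_le_right _ _) hW0.le
      _ = 1 / 2 := by field_simp
      _ < 1 := by norm_num
  obtain ⟨c₁g, hc₁g, hgood⟩ := exists_good_of_not_short F n d hcg0
  set κ := kap n d with hκ
  have hκn : n ≤ κ := kap_ge
  have hκR : (4 : ℝ) ≤ κ := hnR.trans (by exact_mod_cast hκn)
  set N₀ := D * (d + 1) with hN₀
  have hN₀2 : 2 * D ≤ N₀ := by
    rw [hN₀]
    have := Nat.mul_le_mul_left D (by omega : 2 ≤ d + 1)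
    omega
  have hN₀R : (2 : ℝ) * D ≤ N₀ := by exact_mod_cast hN₀2
  set ζ : ℝ := D * η / (2 * N₀ - 1) with hζ
  have hden : (0 : ℝ) < 2 * N₀ - 1 := by linarith
  have hζ0 : 0 < ζ := by positivity
  have hζN : ζ * (2 * N₀ - 1) = D * η := by
    rw [hζ]
    field_simp
  have hζ1 : 2 * ζ ≤ 1 := by
    rw [hζ, mul_div_assoc', div_le_one hden]
    nlinarith
  obtain ⟨C_b, hC_b, hbad⟩ := exists_bad_le F n d κ hdn (half_pos hζ0)
  obtain ⟨C_m, hC_m, hmult⟩ := exists_mult_le F (by omega : 1 ≤ n) hε₃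
  have ev1 : ∀ᶠ T : ℝ in atTop, (1 + 2 * cg) ^ (N₀ - 1) * T ^ (-ζ) < c₁g := by
    have := (tendsto_rpow_neg_atTop hζ0).const_mul ((1 + 2 * cg) ^ (N₀ - 1))
    rw [mul_zero] at this
    exact this.eventually_lt_const hc₁g
  have ev2 : ∀ᶠ T : ℝ in atTop, C_b * T ^ (-(ζ / 2)) < c₁ * cB / 2 := by
    have := (tendsto_rpow_neg_atTop (half_pos hζ0)).const_mul C_b
    rw [mul_zero] at this
    exact this.eventually_lt_const (by positivity)
  have ev3 : ∀ᶠ T : ℝ in atTop, H₁ ≤ T ^ ((κ : ℝ) - η) :=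
    (tendsto_rpow_atTop (by linarith)).eventually_ge_atTop H₁
  obtain ⟨T₁, hT₁⟩ := (ev1.and (ev2.and ev3)).exists_forall_of_atTop
  refine ⟨ε, cg, c₁ * cB / 2 * cF / C_m, max T_F T₁, hε0.le, hε1, hε, hcg0.le, hcg1,
    by positivity, le_max_of_le_left hT_F, ?_⟩
  intro T hT
  have hTF : T_F ≤ T := (le_max_left _ _).trans hT
  obtain ⟨e1, e2, e3⟩ := hT₁ T ((le_max_right _ _).trans hT)
  have hT1 : 1 ≤ T := hT_F.trans hTF
  have hT0 : 0 < T := by linarith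
  set P : ℝ := T ^ ((κ : ℝ) - η) with hP
  have hP1 : 1 ≤ P := hH₁.trans e3
  have hP0 : 0 < P := by linarith
  have hPT : P ≤ T ^ κ := by
    rw [hP, ← Real.rpow_natCast]
    exact Real.rpow_le_rpow_of_exponent_le hT1 (by linarith)
  have hPD : P ^ D = T ^ ((D : ℝ) * κ - D * η) := by
    rw [hP, ← Real.rpow_natCast, ← Real.rpow_mul hT0.le]
    congr 1
    ring
  set δ : ℝ := T ^ (-(2 * ζ)) with hδ
  have hδ0 : 0 < δ := by positivity
  have hδ1 : δ ≤ 1 := Real.rpow_le_one_of_one_le_of_nonpos hT1 (by linarith)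
  have hδT : 1 / T ≤ δ := by
    rw [hδ, one_div, ← Real.rpow_neg_one]
    exact Real.rpow_le_rpow_of_exponent_le hT1 (by linarith)
  obtain ⟨A, hAcard, hA⟩ := hfam P e3
  let R : Finset (𝓞 F) := (finite_Box F P).toFinset
  have hR : ∀ r, r ∈ R ↔ r ∈ Box F P := fun r => Set.Finite.mem_toFinset _
  have hRcard : cB * P ^ D ≤ (R.card : ℝ) := by
    have := hBox P hP0.le
    rwa [Set.ncard_eq_toFinset_card _ (finite_Box F _)] at this
  have hA0 : ∀ m ∈ A, m ≠ 0 := by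
    intro m hm h0
    obtain ⟨σ⟩ : Nonempty (F →+* ℂ) := inferInstance
    have := ((hA m hm).2.2 σ).1
    rw [h0] at this
    simp at this
    linarith
  have hNm : ∀ m ∈ A, (Ideal.absNorm (Ideal.span {m}) : ℝ) ≤ P ^ D := fun m hm =>
    absNorm_span_le fun σ => ((hA m hm).2.2 σ).2
  let pr : 𝓞 F × 𝓞 F → Prop := fun x => ∃ v : Fin (d + 1) → 𝓞 F, v ≠ 0 ∧ v ∈ SmI F n d T δ x.1 x.2
  let Bd : Finset (𝓞 F × 𝓞 F) := (A ×ˢ R).filter pr
  let Gd : Finset (𝓞 F × 𝓞 F) := (A ×ˢ R).filter fun x => ¬ pr x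
  have hsplit : (Bd.card : ℝ) + Gd.card = (A.card : ℝ) * R.card := by
    have h1 := Finset.card_filter_add_card_filter_not (s := A ×ˢ R) pr
    rw [Finset.card_product] at h1
    exact_mod_cast h1
  have hBd : (Bd.card : ℝ) ≤ c₁ * cB / 2 * (P ^ D * P ^ D) := by
    have h1 := hbad T hT1 P hP1 hPT δ hδT hδ1 A R (fun m hm σ => (hA m hm).2.2 σ)
      (fun r hr => (hR r).1 hr) Bd (by
        intro x hx
        obtain ⟨hx1, hx2⟩ := Finset.mem_filter.1 hx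
        obtain ⟨hx3, hx4⟩ := Finset.mem_product.1 hx1
        exact ⟨hx3, hx4, hx2⟩)
    refine h1.trans ?_
    have h2 : δ ^ N₀ * T ^ (D * κ) * T ^ (ζ / 2) = P ^ D * T ^ (-(ζ / 2)) := by
      rw [hPD, hδ, ← Real.rpow_natCast (T ^ (-(2 * ζ))), ← Real.rpow_mul hT0.le,
        ← Real.rpow_natCast T, ← Real.rpow_add hT0, ← Real.rpow_add hT0, ← Real.rpow_add hT0]
      congr 1
      push_cast
      linear_combination -hζN
    calc C_b * (δ ^ N₀ * T ^ (D * κ)) * (P ^ D * T ^ (ζ / 2)) =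
          C_b * (δ ^ N₀ * T ^ (D * κ) * T ^ (ζ / 2)) * P ^ D := by ring
      _ = (C_b * T ^ (-(ζ / 2))) * (P ^ D * P ^ D) := by rw [h2]; ring
      _ ≤ _ := mul_le_mul_of_nonneg_right e2.le (by positivity)
  have hGd : c₁ * cB / 2 * (P ^ D * P ^ D) ≤ (Gd.card : ℝ) := by
    have h1 : (c₁ * P ^ D) * (cB * P ^ D) ≤ (A.card : ℝ) * R.card :=
      mul_le_mul hAcard hRcard (by positivity) (by positivity)
    have h2 : (c₁ * P ^ D) * (cB * P ^ D) = c₁ * cB / 2 * (P ^ D * P ^ D) +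
      c₁ * cB / 2 * (P ^ D * P ^ D) := by ring
    linarith
  have hgd : ∀ x ∈ Gd, x.1 ∈ A ∧ x.2 ∈ Box F P ∧ Good F n d T cg x.1 x.2 := by
    intro x hx
    obtain ⟨hx1, hx2⟩ := Finset.mem_filter.1 hx
    obtain ⟨hx3, hx4⟩ := Finset.mem_product.1 hx1
    refine ⟨hx3, (hR _).1 hx4, ?_⟩
    refine hgood T hT1 x.1 x.2 (hA0 _ hx3) δ hδ0 ?_ ?_
    · have h1 : 1 + 2 * cg / δ ≤ (1 + 2 * cg) * T ^ (2 * ζ) := by
        have h2 : 2 * cg / δ = 2 * cg * T ^ (2 * ζ) := by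
          rw [hδ, Real.rpow_neg hT0.le, div_inv_eq_mul]
        have h3 : 1 ≤ T ^ (2 * ζ) := Real.one_le_rpow hT1 (by linarith)
        rw [h2]
        linarith
      have h2 : (T ^ (2 * ζ)) ^ (N₀ - 1) * P ^ D = T ^ (-ζ) * T ^ (D * κ) := by
        rw [hPD, ← Real.rpow_natCast (T ^ (2 * ζ)), ← Real.rpow_mul hT0.le,
          ← Real.rpow_natCast T, ← Real.rpow_add hT0, ← Real.rpow_add hT0]
        congr 1
        rw [Nat.cast_sub (by omega : 1 ≤ N₀)]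
        push_cast
        linear_combination hζN
      calc (1 + 2 * cg / δ) ^ (N₀ - 1) * (Ideal.absNorm (Ideal.span {x.1}) : ℝ) ≤
            ((1 + 2 * cg) * T ^ (2 * ζ)) ^ (N₀ - 1) * P ^ D :=
            mul_le_mul (pow_le_pow_left₀ (by positivity) h1 _) (hNm _ hx3) (by positivity)
              (by positivity)
        _ = (1 + 2 * cg) ^ (N₀ - 1) * ((T ^ (2 * ζ)) ^ (N₀ - 1) * P ^ D) := by
            rw [mul_pow]; ring
        _ = ((1 + 2 * cg) ^ (N₀ - 1) * T ^ (-ζ)) * T ^ (D * κ) := by rw [h2]; ring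
        _ < c₁g * T ^ (D * κ) := mul_lt_mul_of_pos_right e1 (by positivity)
    · intro v hv
      by_contra hv0
      exact hx2 ⟨v, hv0, hv⟩
  -- the polynomials
  let FF : 𝓞 F × 𝓞 F → Finset (Fin n → 𝓞 F) := fun x =>
    (finite_Fam n (ε := ε) hT1 M a₀ x.1 x.2).toFinset
  have hFF : ∀ x a, a ∈ FF x ↔ a ∈ Fam F n T ε M a₀ x.1 x.2 := fun x a => Set.Finite.mem_toFinset _
  have hFFcard : ∀ x ∈ Gd, cF * T ^ (D * (n * (n + 1))) ≤ (P ^ D) ^ 3 * ((FF x).card : ℝ) := by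
    intro x hx
    obtain ⟨h1, h2, h3⟩ := hgd x hx
    have h4 := hFam T hTF cg hcg0.le (min_le_left _ _) x.1 x.2 (hA0 _ h1) (hA _ h1).1 h3
    rw [Set.ncard_eq_toFinset_card _ (finite_Fam n (ε := ε) hT1 M a₀ x.1 x.2)] at h4
    refine h4.trans ?_
    exact mul_le_mul_of_nonneg_right (pow_le_pow_left₀ (by positivity) (hNm _ h1) 3) (by positivity)
  let 𝒜 : Finset (Fin n → 𝓞 F) := Gd.biUnion FF
  have hMdvd : (M₀ : 𝓞 F) ∣ (M : 𝓞 F) := Nat.cast_dvd_cast hMM₀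
  have hok : ∀ a ∈ 𝒜, Okb Q₁ n d T ε cg P a := by
    intro a ha
    obtain ⟨x, hx, hax⟩ := Finset.mem_biUnion.1 ha
    have h1 := (hFF x a).1 hax
    obtain ⟨h2, h3, h4⟩ := hgd x hx
    obtain ⟨h5, h6⟩ := hbase a fun k => hMdvd.trans (h1.1 k)
    exact ⟨h1.2.1, h5, h6, x.1, x.2, fun σ => ((hA _ h2).2.2 σ).1, h1.2.2.1, h1.2.2.2, h4⟩
  refine ⟨𝒜, hok, ?_⟩
  have hdouble := Finset.sum_card_bipartiteAbove_eq_sum_card_bipartiteBelow
    (s := Gd) (t := 𝒜) (fun x a => a ∈ FF x)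
  have hleft : ∀ x ∈ Gd, (𝒜.bipartiteAbove (fun x a => a ∈ FF x) x) = FF x := by
    intro x hx
    ext a
    rw [Finset.mem_bipartiteAbove]
    constructor
    · rintro ⟨-, h⟩
      exact h
    · intro h
      exact ⟨Finset.mem_biUnion.2 ⟨x, hx, h⟩, h⟩
  have hright : ∀ a ∈ 𝒜, ((Gd.bipartiteBelow (fun x a => a ∈ FF x) a).card : ℝ) ≤
      C_m * T ^ ε₃ := by
    intro a ha
    refine hmult T hT1 P hP0 a (box_size hT1 hε1 (hok a ha).box) (hok a ha).irr _ ?_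
    intro x hx
    obtain ⟨h1, h2⟩ := (Finset.mem_bipartiteBelow _).1 hx
    have h3 := (hFF x a).1 h2
    obtain ⟨h4, h5, -⟩ := hgd x h1
    obtain ⟨-, h6, h7⟩ := hA _ h4
    refine ⟨h7, h6, h5, ?_, h3.2.2.2⟩
    exact (Dvd.intro_left (x.1) (by ring)).trans h3.2.2.1
  have hsum : (∑ x ∈ Gd, ((FF x).card : ℝ)) ≤ (𝒜.card : ℝ) * (C_m * T ^ ε₃) := by
    have h1 : (∑ x ∈ Gd, ((FF x).card : ℝ)) =
        ∑ a ∈ 𝒜, ((Gd.bipartiteBelow (fun x a => a ∈ FF x) a).card : ℝ) := by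
      have h2 : ∑ x ∈ Gd, (𝒜.bipartiteAbove (fun x a => a ∈ FF x) x).card =
          ∑ x ∈ Gd, (FF x).card := Finset.sum_congr rfl fun x hx => by rw [hleft x hx]
      rw [h2] at hdouble
      exact_mod_cast hdouble
    rw [h1]
    refine (Finset.sum_le_sum hright).trans (le_of_eq ?_)
    rw [Finset.sum_const, nsmul_eq_mul]
  have hlow : (Gd.card : ℝ) * (cF * T ^ (D * (n * (n + 1)))) ≤
      (P ^ D) ^ 3 * ((𝒜.card : ℝ) * (C_m * T ^ ε₃)) := by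
    calc (Gd.card : ℝ) * (cF * T ^ (D * (n * (n + 1)))) =
          ∑ x ∈ Gd, cF * T ^ (D * (n * (n + 1))) := by
          rw [Finset.sum_const, nsmul_eq_mul]
      _ ≤ ∑ x ∈ Gd, (P ^ D) ^ 3 * ((FF x).card : ℝ) := Finset.sum_le_sum hFFcard
      _ = (P ^ D) ^ 3 * ∑ x ∈ Gd, ((FF x).card : ℝ) := by rw [Finset.mul_sum]
      _ ≤ _ := mul_le_mul_of_nonneg_left hsum (by positivity)
  have hPD0 : 0 < P ^ D := by positivity
  have hTε : 0 < T ^ ε₃ := by positivity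
  have h1 : c₁ * cB / 2 * (P ^ D * P ^ D) * (cF * T ^ (D * (n * (n + 1)))) ≤
      (P ^ D) ^ 3 * ((𝒜.card : ℝ) * (C_m * T ^ ε₃)) :=
    (mul_le_mul_of_nonneg_right hGd (by positivity)).trans hlow
  have h2 : (P ^ D * P ^ D) * (c₁ * cB / 2 * cF * T ^ (D * (n * (n + 1)))) ≤
      (P ^ D * P ^ D) * ((𝒜.card : ℝ) * P ^ D * (C_m * T ^ ε₃)) := by
    calc (P ^ D * P ^ D) * (c₁ * cB / 2 * cF * T ^ (D * (n * (n + 1)))) =
          c₁ * cB / 2 * (P ^ D * P ^ D) * (cF * T ^ (D * (n * (n + 1)))) := by ring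
      _ ≤ (P ^ D) ^ 3 * ((𝒜.card : ℝ) * (C_m * T ^ ε₃)) := h1
      _ = _ := by ring
  have h3 := le_of_mul_le_mul_left h2 (by positivity)
  rw [Real.rpow_sub hT0, Real.rpow_natCast, div_mul_div_comm, div_le_iff₀ (by positivity)]
  exact h3

end Pool.Agent.H26.Big
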