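import Mathlib

/-!
# Polynomials with given coefficients
-/

set_option autoImplicit false

open Polynomial

namespace Pool.Agent.H26.Big

section

variable {R : Type*} [CommRing R]

/-- the polynomial with the given coefficients -/
noncomputable def pol {k : ℕ} (v : Fin k → R) : R[X] := ∑ i, C (v i) * X ^ (i : ℕ)

theorem coeff_pol {k : ℕ} (v : Fin k → R) (j : ℕ) :
    (pol v).coeff j = if h : j < k then v ⟨j, h⟩ else 0 := by
  simp only [pol, finset_sum_coeff, coeff_C_mul, coeff_X_pow]
  split_ifs with h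
  · rw [Finset.sum_eq_single ⟨j, h⟩]
    · simp
    · intro b _ hb
      have h1 : j ≠ (b : ℕ) := fun h' => hb (Fin.ext h'.symm)
      rw [if_neg h1, mul_zero]
    · intro h'
      exact absurd (Finset.mem_univ _) h'
  · refine Finset.sum_eq_zero fun b _ => ?_
    have h1 : j ≠ (b : ℕ) := fun h' => h (by rw [h']; exact b.2)
    rw [if_neg h1, mul_zero]

theorem coeff_pol_fin {k : ℕ} (v : Fin k → R) (i : Fin k) : (pol v).coeff i = v i := by
  rw [coeff_pol, dif_pos i.2]

theorem degree_pol_lt {k : ℕ} (v : Fin k → R) : (pol v).degree < k := by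
  rw [degree_lt_iff_coeff_zero]
  intro j hj
  rw [coeff_pol, dif_neg (by omega)]

theorem eval_pol {k : ℕ} (v : Fin k → R) (x : R) : (pol v).eval x = ∑ i, v i * x ^ (i : ℕ) := by
  simp [pol, eval_finset_sum]

theorem pol_coeff {k : ℕ} (p : R[X]) (hp : p.degree < k) : pol (fun i : Fin k => p.coeff i) = p := by
  ext j
  rw [coeff_pol]
  split_ifs with h
  · rfl
  · exact ((degree_lt_iff_coeff_zero p k).1 hp j (by omega)).symm

theorem pol_injective {k : ℕ} : Function.Injective (pol : (Fin k → R) → R[X]) := by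
  intro v w h
  funext i
  rw [← coeff_pol_fin v i, h, coeff_pol_fin]

theorem pol_add {k : ℕ} (v w : Fin k → R) : pol (v + w) = pol v + pol w := by
  ext j
  rw [coeff_add, coeff_pol, coeff_pol, coeff_pol]
  split_ifs <;> simp

theorem pol_sub {k : ℕ} (v w : Fin k → R) : pol (v - w) = pol v - pol w := by
  ext j
  rw [coeff_sub, coeff_pol, coeff_pol, coeff_pol]
  split_ifs <;> simp

theorem pol_map {S : Type*} [CommRing S] (f : R →+* S) {k : ℕ} (v : Fin k → R) :
    (pol v).map f = pol fun i => f (v i) := by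
  ext j
  rw [coeff_map, coeff_pol, coeff_pol]
  split_ifs <;> simp

/-- the monic polynomial with the given lower coefficients -/
noncomputable def mp {n : ℕ} (a : Fin n → R) : R[X] := X ^ n + pol a

theorem mp_monic [Nontrivial R] {n : ℕ} (a : Fin n → R) : (mp a).Monic :=
  monic_X_pow_add (degree_pol_lt a)

theorem mp_natDegree [Nontrivial R] {n : ℕ} (a : Fin n → R) : (mp a).natDegree = n := by
  rw [mp, natDegree_add_eq_left_of_degree_lt, natDegree_X_pow]
  rw [degree_X_pow]
  exact degree_pol_lt a

theorem mp_coeff {n : ℕ} (a : Fin n → R) (i : Fin n) : (mp a).coeff i = a i := by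
  rw [mp, coeff_add, coeff_pol_fin, coeff_X_pow, if_neg (by have := i.2; omega), zero_add]

theorem mp_coeff_lt {n : ℕ} (a : Fin n → R) {j : ℕ} (hj : j < n) :
    (mp a).coeff j = a ⟨j, hj⟩ := mp_coeff a ⟨j, hj⟩

theorem mp_injective {n : ℕ} : Function.Injective (mp : (Fin n → R) → R[X]) := fun _ _ h =>
  pol_injective (add_left_cancel h)

theorem mp_map {S : Type*} [CommRing S] (f : R →+* S) {n : ℕ} (a : Fin n → R) :
    (mp a).map f = mp fun i => f (a i) := by
  rw [mp, Polynomial.map_add, Polynomial.map_pow, map_X, pol_map, mp]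

theorem mp_coeff_eq [Nontrivial R] {n : ℕ} (p : R[X]) (hp : p.Monic) (hn : p.natDegree = n) :
    mp (fun i : Fin n => p.coeff i) = p := by
  ext j
  rcases lt_trichotomy j n with h | h | h
  · rw [mp_coeff_lt _ h]
  · have h1 := (mp_monic fun i : Fin n => p.coeff i).coeff_natDegree
    rw [mp_natDegree] at h1
    rw [h, h1]
    have h2 := hp.coeff_natDegree
    rw [hn] at h2
    exact h2.symm
  · rw [coeff_eq_zero_of_natDegree_lt (by rw [mp_natDegree]; exact h),
      coeff_eq_zero_of_natDegree_lt (by rw [hn]; exact h)]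

theorem mp_add {n : ℕ} (a b : Fin n → R) : mp (a + b) = mp a + pol b := by
  rw [mp, mp, pol_add, add_assoc]

end

end Pool.Agent.H26.Big
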