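import Pool.Agent.H26.Big.Fam

/-!
# The roots of the polynomials of the family
-/

set_option autoImplicit false

open Module NumberField Polynomial

namespace Pool.Agent.H26.Big

/-- the scaled version -/
theorem scaled_facts {n : ℕ} (hn : 2 ≤ n) {ε : ℝ} (hε0 : 0 ≤ ε) (hε : 4 * (n : ℝ) ^ 2 * 2 ^ n * ε ≤ 1)
    (e : Fin n → ℂ) (he : ∀ k, ‖e k‖ ≤ ε) {w : ℂ} (hw : w ^ n + ∑ k, e k * w ^ (k : ℕ) = 1) :
    ‖w‖ ≤ 2 ∧ 1 ≤ ‖(n : ℂ) * w ^ (n - 1) + ∑ k : Fin n, (k : ℂ) * (e k * w ^ ((k : ℕ) - 1))‖ := by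
  have hnR : (2 : ℝ) ≤ n := by exact_mod_cast hn
  have h2n : (1 : ℝ) ≤ 2 ^ n := one_le_pow₀ (by norm_num)
  have hs : ∀ B : ℝ, 1 ≤ B → ‖w‖ ≤ B → ‖∑ k, e k * w ^ (k : ℕ)‖ ≤ ε * n * B ^ (n - 1) := by
    intro B hB hwB
    refine (norm_sum_le _ _).trans ?_
    have h1 : ∀ k ∈ (Finset.univ : Finset (Fin n)), ‖e k * w ^ (k : ℕ)‖ ≤ ε * B ^ (n - 1) := by
      intro k _
      rw [norm_mul, norm_pow]
      refine mul_le_mul (he k) ?_ (by positivity) hε0
      exact (pow_le_pow_left₀ (norm_nonneg _) hwB _).trans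
        (pow_le_pow_right₀ hB (by have := k.2; omega))
    refine (Finset.sum_le_sum h1).trans (le_of_eq ?_)
    rw [Finset.sum_const, Finset.card_univ, Fintype.card_fin, nsmul_eq_mul]
    ring
  have hεn : ε * n ≤ 1 / 4 := by
    have h1 : ε * n ≤ ε * ((n : ℝ) ^ 2 * 2 ^ n) := by
      refine mul_le_mul_of_nonneg_left ?_ hε0
      nlinarith
    nlinarith
  have hw2 : ‖w‖ ≤ 2 := by
    by_contra hcon
    push Not at hcon
    have h1 := hs ‖w‖ (by linarith) le_rfl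
    have h2 : ‖w‖ ^ n ≤ 1 + ε * n * ‖w‖ ^ (n - 1) := by
      have h3 : w ^ n = 1 - ∑ k, e k * w ^ (k : ℕ) := by rw [← hw]; ring
      rw [← norm_pow, h3]
      refine (norm_sub_le _ _).trans ?_
      rw [norm_one]
      linarith
    have h3 : ‖w‖ ^ n = ‖w‖ ^ (n - 1) * ‖w‖ := by
      rw [← pow_succ]
      congr 1
      omega
    have h4 : 1 ≤ ‖w‖ ^ (n - 1) := one_le_pow₀ (by linarith)
    rw [h3] at h2
    nlinarith
  refine ⟨hw2, ?_⟩
  have h1 := hs 2 (by norm_num) hw2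
  have h2 : ε * n * (2 : ℝ) ^ (n - 1) ≤ 1 / 4 := by
    have h3 : (2 : ℝ) ^ (n - 1) ≤ 2 ^ n := pow_le_pow_right₀ (by norm_num) (by omega)
    have h5 : ε * n * 2 ^ (n - 1) ≤ ε * n * 2 ^ n :=
      mul_le_mul_of_nonneg_left h3 (by positivity)
    have h6 : ε * n * 2 ^ n ≤ ε * n * 2 ^ n * n :=
      le_mul_of_one_le_right (by positivity) (by linarith)
    nlinarith
  have h3 : 3 / 4 ≤ ‖w‖ ^ n := by
    have h4 : (1 : ℂ) = w ^ n + ∑ k, e k * w ^ (k : ℕ) := hw.symm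
    have h5 : ‖(1 : ℂ)‖ ≤ ‖w ^ n‖ + ‖∑ k, e k * w ^ (k : ℕ)‖ := by
      rw [h4]
      exact norm_add_le _ _
    rw [norm_one, norm_pow] at h5
    linarith
  have h4 : 3 / 4 ≤ ‖w‖ ^ (n - 1) := by
    rcases le_or_gt ‖w‖ 1 with h | h
    · refine h3.trans ?_
      exact pow_le_pow_of_le_one (norm_nonneg _) h (by omega)
    · have : 1 ≤ ‖w‖ ^ (n - 1) := one_le_pow₀ h.le
      linarith
  have h5 : ‖∑ k : Fin n, (k : ℂ) * (e k * w ^ ((k : ℕ) - 1))‖ ≤ 1 / 4 := by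
    refine (norm_sum_le _ _).trans ?_
    have h6 : ∀ k ∈ (Finset.univ : Finset (Fin n)),
        ‖((k : ℕ) : ℂ) * (e k * w ^ ((k : ℕ) - 1))‖ ≤ n * (ε * 2 ^ n) := by
      intro k _
      rw [norm_mul, norm_mul, norm_pow, Complex.norm_natCast]
      have hk : ((k : ℕ) : ℝ) ≤ n := by exact_mod_cast k.2.le
      refine mul_le_mul hk ?_ (by positivity) (by positivity)
      refine mul_le_mul (he k) ?_ (by positivity) hε0
      exact (pow_le_pow_left₀ (norm_nonneg _) hw2 _).trans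
        (pow_le_pow_right₀ (by norm_num) (by have := k.2; omega))
    refine (Finset.sum_le_sum h6).trans ?_
    rw [Finset.sum_const, Finset.card_univ, Fintype.card_fin, nsmul_eq_mul]
    nlinarith
  have h6 : ‖(n : ℂ) * w ^ (n - 1)‖ ≤
      ‖(n : ℂ) * w ^ (n - 1) + ∑ k : Fin n, (k : ℂ) * (e k * w ^ ((k : ℕ) - 1))‖ +
        ‖∑ k : Fin n, (k : ℂ) * (e k * w ^ ((k : ℕ) - 1))‖ := by
    have := norm_sub_le ((n : ℂ) * w ^ (n - 1) + ∑ k : Fin n, (k : ℂ) * (e k * w ^ ((k : ℕ) - 1)))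
      (∑ k : Fin n, (k : ℂ) * (e k * w ^ ((k : ℕ) - 1)))
    rwa [add_sub_cancel_right] at this
  rw [norm_mul, norm_pow, Complex.norm_natCast] at h6
  nlinarith

theorem eval_mp {R : Type*} [CommRing R] {n : ℕ} (a : Fin n → R) (z : R) :
    (mp a).eval z = z ^ n + ∑ k, a k * z ^ (k : ℕ) := by
  rw [mp, eval_add, eval_pol, eval_pow, eval_X]

theorem eval_derivative_mp {R : Type*} [CommRing R] {n : ℕ} (a : Fin n → R) (z : R) :
    (derivative (mp a)).eval z = n * z ^ (n - 1) + ∑ k : Fin n, ((k : ℕ) : R) * (a k * z ^ ((k : ℕ) - 1)) := by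
  rw [mp, derivative_add, eval_add, derivative_X_pow, eval_mul, eval_C, eval_pow, eval_X, pol,
    derivative_sum, eval_finsetSum]
  congr 1
  refine Finset.sum_congr rfl fun k _ => ?_
  rw [derivative_C_mul, derivative_X_pow, eval_mul, eval_mul, eval_C, eval_C, eval_pow, eval_X]
  ring

/-- the size of the roots and of the derivative at the roots -/
theorem root_facts {n : ℕ} (hn : 2 ≤ n) {T : ℝ} (hT : 1 ≤ T) {ε : ℝ} (hε0 : 0 ≤ ε)
    (hε : 4 * (n : ℝ) ^ 2 * 2 ^ n * ε ≤ 1) (a : Fin n → ℂ)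
    (ha : ∀ k : Fin n, ‖a k - ctr n T k‖ ≤ ε * T ^ (2 * (n - (k : ℕ)))) {z : ℂ}
    (hz : (mp a).eval z = 0) :
    ‖z‖ ≤ 2 * T ^ 2 ∧ T ^ (2 * (n - 1)) ≤ ‖(derivative (mp a)).eval z‖ := by
  have hT0 : 0 < T := by linarith
  have hTC : (T : ℂ) ≠ 0 := by exact_mod_cast hT0.ne'
  set w : ℂ := z / (T : ℂ) ^ 2 with hw
  have hz' : z = (T : ℂ) ^ 2 * w := by
    rw [hw]
    field_simp
  let e : Fin n → ℂ := fun k => (a k - ctr n T k) / (T : ℂ) ^ (2 * (n - (k : ℕ)))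
  have hak : ∀ k, a k = (T : ℂ) ^ (2 * (n - (k : ℕ))) * e k + ctr n T k := by
    intro k
    simp only [e]
    rw [mul_div_cancel₀ _ (pow_ne_zero _ hTC)]
    ring
  have he : ∀ k, ‖e k‖ ≤ ε := by
    intro k
    simp only [e]
    rw [norm_div, norm_pow, Complex.norm_real, Real.norm_eq_abs, abs_of_pos hT0,
      div_le_iff₀ (by positivity)]
    exact ha k
  have hsum : ∑ k : Fin n, ctr n T k * z ^ (k : ℕ) = -(T : ℂ) ^ (2 * n) := by
    rw [Finset.sum_eq_single (⟨0, by omega⟩ : Fin n)]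
    · rw [ctr, if_pos rfl]
      push_cast
      simp
    · intro k _ hk
      have : (k : ℕ) ≠ 0 := fun h => hk (Fin.ext h)
      rw [ctr, if_neg this, zero_mul]
    · intro h
      exact absurd (Finset.mem_univ _) h
  have h1 : w ^ n + ∑ k, e k * w ^ (k : ℕ) = 1 := by
    rw [eval_mp] at hz
    have h2 : ∑ k, a k * z ^ (k : ℕ) = (T : ℂ) ^ (2 * n) * ∑ k, e k * w ^ (k : ℕ) - (T : ℂ) ^ (2 * n) := by
      have h3 : ∀ k ∈ (Finset.univ : Finset (Fin n)), a k * z ^ (k : ℕ) =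
          (T : ℂ) ^ (2 * n) * (e k * w ^ (k : ℕ)) + ctr n T k * z ^ (k : ℕ) := by
        intro k _
        have h4 : (T : ℂ) ^ (2 * n) = (T : ℂ) ^ (2 * (n - (k : ℕ))) * ((T : ℂ) ^ 2) ^ (k : ℕ) := by
          rw [← pow_mul, ← pow_add]
          congr 1
          have := k.2
          omega
        rw [hak k, add_mul]
        congr 1
        rw [h4, hz', mul_pow]
        ring
      rw [Finset.sum_congr rfl h3, Finset.sum_add_distrib, hsum, ← Finset.mul_sum]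
      ring
    have h5 : z ^ n = (T : ℂ) ^ (2 * n) * w ^ n := by
      rw [hz', mul_pow, ← pow_mul]
    rw [h2, h5] at hz
    have h6 : (T : ℂ) ^ (2 * n) * (w ^ n + ∑ k, e k * w ^ (k : ℕ) - 1) = 0 := by
      rw [← hz]
      ring
    have h7 := (mul_eq_zero.1 h6).resolve_left (pow_ne_zero _ hTC)
    exact sub_eq_zero.1 h7
  obtain ⟨h2, h3⟩ := scaled_facts hn hε0 hε e he h1
  constructor
  · rw [hz', norm_mul, norm_pow, Complex.norm_real, Real.norm_eq_abs, abs_of_pos hT0]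
    nlinarith [sq_nonneg T]
  · have h4 : (derivative (mp a)).eval z = (T : ℂ) ^ (2 * (n - 1)) *
        ((n : ℂ) * w ^ (n - 1) + ∑ k : Fin n, (k : ℂ) * (e k * w ^ ((k : ℕ) - 1))) := by
      rw [eval_derivative_mp, mul_add, Finset.mul_sum]
      congr 1
      · rw [hz', mul_pow, ← pow_mul]
        ring
      · refine Finset.sum_congr rfl fun k _ => ?_
        by_cases hk : (k : ℕ) = 0
        · have : (((k : ℕ) : ℕ) : ℂ) = 0 := by rw [hk]; simp
          rw [this]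
          ring
        · have hc : ctr n T k = 0 := by rw [ctr, if_neg hk]
          have h5 : (T : ℂ) ^ (2 * (n - 1)) =
              (T : ℂ) ^ (2 * (n - (k : ℕ))) * ((T : ℂ) ^ 2) ^ ((k : ℕ) - 1) := by
            rw [← pow_mul, ← pow_add]
            congr 1
            have := k.2
            omega
          rw [hak k, hc, h5, hz', mul_pow]
          ring
    rw [h4, norm_mul, norm_pow, Complex.norm_real, Real.norm_eq_abs, abs_of_pos hT0]
    exact le_mul_of_one_le_right (by positivity) h3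

end Pool.Agent.H26.Big
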