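import Pool.Agent.H26.Big.Pol
import Pool.Agent.H26.Mass.Fiber

/-!
# Spans of many separated vectors; short polynomials with a root modulo a given number
-/

set_option autoImplicit false

open Module NumberField Polynomial

namespace Pool.Agent.H26.Big

open Pool.Agent.Helper313LB

section

variable {F : Type} [Field F] [NumberField F]

/-- many separated vectors in a box span the whole space -/
theorem span_eq_top_of_card {ι : Type} [Fintype ι] (S : Finset (ι → 𝓞 F)) (s : ι → ℝ)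
    (hs : ∀ i, 0 < s i) {c δ : ℝ} (hc : 0 ≤ c) (hδ : 0 < δ)
    (h1 : ∀ v ∈ S, ∀ i, ∀ σ : F →+* ℂ, ‖σ (v i : F)‖ ≤ c * s i)
    (h2 : ∀ v ∈ S, ∀ w ∈ S, v ≠ w → ∃ i, ∃ σ : F →+* ℂ, δ * s i ≤ ‖σ (v i : F) - σ (w i : F)‖)
    (hcard : (1 + 2 * c / δ) ^ (finrank ℚ F * Fintype.card ι - 1) < S.card) :
    Submodule.span ℚ ((fun (v : ι → 𝓞 F) (i : ι) => (v i : F)) '' S) = ⊤ := by
  classical
  by_contra hW
  set W := Submodule.span ℚ ((fun (v : ι → 𝓞 F) (i : ι) => (v i : F)) '' S) with hWdef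
  have hlt : finrank ℚ W < finrank ℚ (ι → F) := Submodule.finrank_lt hW
  have hfr : finrank ℚ (ι → F) = finrank ℚ F * Fintype.card ι := by
    rw [Module.finrank_pi_fintype, Finset.sum_const, Finset.card_univ, smul_eq_mul, mul_comm]
  let f : (ι → F) →ₗ[ℚ] (ι × (F →+* ℂ) → ℂ) :=
    { toFun := fun v x => x.2 (v x.1) / (s x.1 : ℂ)
      map_add' := fun v w => by
        funext x
        simp only [Pi.add_apply, map_add, add_div]
      map_smul' := fun q v => by
        funext x
        simp only [Pi.smul_apply, Algebra.smul_def, eq_ratCast, map_mul, map_ratCast]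
        ring }
  have hf : ∀ v : ι → F, ∀ x : ι × (F →+* ℂ), f v x = x.2 (v x.1) / (s x.1 : ℂ) := fun v x => rfl
  have hnorm : ∀ v : ι → F, ∀ x : ι × (F →+* ℂ), ‖f v x‖ = ‖x.2 (v x.1)‖ / s x.1 := by
    intro v x
    rw [hf, norm_div, Complex.norm_real, Real.norm_eq_abs, abs_of_pos (hs _)]
  obtain ⟨hfd, hle⟩ := finrank_span_le f W
  have hsep : ∀ v ∈ S, ∀ w ∈ S, v ≠ w →
      δ ≤ ‖f (fun i => (v i : F)) - f (fun i => (w i : F))‖ := by
    intro v hv w hw hvw
    obtain ⟨i, σ, h⟩ := h2 v hv w hw hvw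
    rw [← map_sub]
    refine le_trans ?_ (norm_le_pi_norm _ (i, σ))
    rw [hnorm, le_div_iff₀ (hs _)]
    simpa only [Pi.sub_apply, map_sub] using h
  have h3 := card_pack' (Submodule.span ℝ (f '' (W : Set (ι → F))))
    (S.image fun v => f fun i => (v i : F)) (by
      intro x hx
      obtain ⟨v, hv, rfl⟩ := Finset.mem_image.1 hx
      exact Submodule.subset_span ⟨_, Submodule.subset_span ⟨v, hv, rfl⟩, rfl⟩) hδ hc (by
      intro x hx
      obtain ⟨v, hv, rfl⟩ := Finset.mem_image.1 hx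
      rw [pi_norm_le_iff_of_nonneg hc]
      intro x
      rw [hnorm, div_le_iff₀ (hs _)]
      exact h1 v hv _ _) (by
      intro x hx y hy hxy
      obtain ⟨v, hv, rfl⟩ := Finset.mem_image.1 hx
      obtain ⟨w, hw, rfl⟩ := Finset.mem_image.1 hy
      exact hsep v hv w hw fun h => hxy (by rw [h]))
  rw [Finset.card_image_of_injOn] at h3
  · have h4 : (1 + 2 * c / δ) ^ finrank ℝ (Submodule.span ℝ (f '' (W : Set (ι → F)))) ≤
        (1 + 2 * c / δ) ^ (finrank ℚ F * Fintype.card ι - 1) := by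
      refine pow_le_pow_right₀ ?_ (by omega)
      have : 0 ≤ 2 * c / δ := by positivity
      linarith
    linarith
  · intro v hv w hw h
    by_contra hvw
    have h5 := hsep v hv w hw hvw
    have h6 : f (fun i => (v i : F)) = f (fun i => (w i : F)) := h
    rw [h6, sub_self, norm_zero] at h5
    linarith

/-- the coefficients of the short polynomials with the root `r` modulo `m` -/
def SmI (F : Type) [Field F] [NumberField F] (n d : ℕ) (T c : ℝ) (m r : 𝓞 F) :
    Set (Fin (d + 1) → 𝓞 F) :=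
  {v | (∀ i, ∀ σ : F →+* ℂ, ‖σ (v i : F)‖ ≤ c * T ^ (n - 2 * (i : ℕ))) ∧ m ∣ (pol v).eval r}

/-- the short polynomials with the root `r` modulo `m` span the space of polynomials -/
def Good (F : Type) [Field F] [NumberField F] (n d : ℕ) (T c : ℝ) (m r : 𝓞 F) : Prop :=
  Submodule.span ℚ ((fun (v : Fin (d + 1) → 𝓞 F) (i : Fin (d + 1)) => (v i : F)) ''
    SmI F n d T c m r) = ⊤

/-- pigeonhole for the fibres of a map -/
theorem exists_fiber {α β : Type*} [DecidableEq β] (S : Finset α) (hS : S.Nonempty) (f : α → β)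
    (B : Finset β) (hB : ∀ a ∈ S, f a ∈ B) :
    ∃ a ∈ S, (S.card : ℝ) / B.card ≤ ((S.filter fun x => f x = f a).card : ℝ) := by
  classical
  have hBne : B.Nonempty := by
    obtain ⟨a, ha⟩ := hS
    exact ⟨f a, hB a ha⟩
  have hBpos : (0 : ℝ) < B.card := by exact_mod_cast hBne.card_pos
  by_contra hcon
  push Not at hcon
  have h1 : S.card = ∑ b ∈ S.image f, (S.filter fun x => f x = b).card :=
    Finset.card_eq_sum_card_fiberwise (fun p hp => Finset.mem_image_of_mem _ hp)
  have h2 : (S.card : ℝ) = ∑ b ∈ S.image f, ((S.filter fun x => f x = b).card : ℝ) := by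
    exact_mod_cast h1
  have h3 : ∑ b ∈ S.image f, ((S.filter fun x => f x = b).card : ℝ) <
      ∑ b ∈ S.image f, (S.card : ℝ) / B.card := by
    refine Finset.sum_lt_sum_of_nonempty (hS.image f) fun b hb => ?_
    obtain ⟨a, ha, rfl⟩ := Finset.mem_image.1 hb
    exact hcon a ha
  rw [Finset.sum_const, nsmul_eq_mul] at h3
  have h4 : ((S.image f).card : ℝ) ≤ B.card := by
    exact_mod_cast Finset.card_le_card (Finset.image_subset_iff.2 hB)
  have h5 : ((S.image f).card : ℝ) * ((S.card : ℝ) / B.card) ≤ S.card := by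
    calc ((S.image f).card : ℝ) * ((S.card : ℝ) / B.card) ≤ B.card * ((S.card : ℝ) / B.card) :=
          mul_le_mul_of_nonneg_right h4 (by positivity)
      _ = S.card := by field_simp
  linarith

theorem pol_eval_sub {k : ℕ} (v w : Fin k → 𝓞 F) (r : 𝓞 F) :
    (pol (v - w)).eval r = (pol v).eval r - (pol w).eval r := by
  rw [pol_sub, eval_sub]

/-- the sum of the exponents -/
def kap (n d : ℕ) : ℕ := ∑ i : Fin (d + 1), (n - 2 * (i : ℕ))

/-- if there is no very short polynomial, the short polynomials span -/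
theorem exists_good_of_not_short (F : Type) [Field F] [NumberField F] (n d : ℕ) {c₀ : ℝ}
    (hc₀ : 0 < c₀) :
    ∃ c₁ : ℝ, 0 < c₁ ∧ ∀ T : ℝ, 1 ≤ T → ∀ m r : 𝓞 F, m ≠ 0 → ∀ δ : ℝ, 0 < δ →
      (1 + 2 * c₀ / δ) ^ (finrank ℚ F * (d + 1) - 1) * (Ideal.absNorm (Ideal.span {m}) : ℝ) <
        c₁ * T ^ (finrank ℚ F * kap n d) →
      (∀ v ∈ SmI F n d T δ m r, v = 0) → Good F n d T c₀ m r := by
  classical
  obtain ⟨c, hc, hBox⟩ := exists_le_ncard_Box F
  set D := finrank ℚ F with hD
  refine ⟨∏ i : Fin (d + 1), (c * (c₀ / 2) ^ D), Finset.prod_pos fun i _ => by positivity, ?_⟩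
  intro T hT m r hm δ hδ hcond hshort
  have hT0 : 0 < T := by linarith
  have hspan0 : Ideal.span {m} ≠ ⊥ := fun h => hm (Ideal.span_singleton_eq_bot.1 h)
  have : Finite (𝓞 F ⧸ Ideal.span {m}) := Ideal.finiteQuotientOfFreeOfNeBot _ hspan0
  have : Fintype (𝓞 F ⧸ Ideal.span {m}) := Fintype.ofFinite _
  have hNm : (Fintype.card (𝓞 F ⧸ Ideal.span {m}) : ℝ) = Ideal.absNorm (Ideal.span {m}) := by
    rw [Ideal.absNorm_apply, Submodule.cardQuot_apply, Nat.card_eq_fintype_card]
  let B : Fin (d + 1) → Finset (𝓞 F) := fun i => (finite_Box F (c₀ / 2 * T ^ (n - 2 * (i : ℕ)))).toFinset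
  have hB : ∀ i x, x ∈ B i ↔ x ∈ Box F (c₀ / 2 * T ^ (n - 2 * (i : ℕ))) := fun i x =>
    Set.Finite.mem_toFinset _
  let S₀ : Finset (Fin (d + 1) → 𝓞 F) := Fintype.piFinset B
  have hS₀ : ∀ v, v ∈ S₀ ↔ ∀ i : Fin (d + 1), v i ∈ Box F (c₀ / 2 * T ^ (n - 2 * (i : ℕ))) := by
    intro v
    rw [Fintype.mem_piFinset]
    exact forall_congr' fun i => hB i _
  have hcard : (∏ i : Fin (d + 1), (c * (c₀ / 2) ^ D)) * T ^ (D * kap n d) ≤ (S₀.card : ℝ) := by
    rw [Fintype.card_piFinset, Nat.cast_prod, kap, Finset.mul_sum, ← Finset.prod_pow_eq_pow_sum,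
      ← Finset.prod_mul_distrib]
    refine Finset.prod_le_prod (fun i _ => by positivity) fun i _ => ?_
    have h1 := hBox (c₀ / 2 * T ^ (n - 2 * (i : ℕ))) (by positivity)
    rw [Set.ncard_eq_toFinset_card _ (finite_Box F _)] at h1
    refine le_trans (le_of_eq ?_) h1
    rw [mul_pow, ← pow_mul, mul_comm D (n - 2 * (i : ℕ)), mul_assoc]
  have hne : S₀.Nonempty := ⟨0, (hS₀ 0).2 fun i σ => by
    simp only [Pi.zero_apply, map_zero, norm_zero]
    positivity⟩
  obtain ⟨v₀, hv₀, hfib⟩ := exists_fiber S₀ hne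
    (fun v => (Ideal.Quotient.mk (Ideal.span {m}) ((pol v).eval r))) Finset.univ
    fun a _ => Finset.mem_univ _
  rw [Finset.card_univ, hNm] at hfib
  set S₁ := S₀.filter fun x => (Ideal.Quotient.mk (Ideal.span {m}) ((pol x).eval r)) =
    (Ideal.Quotient.mk (Ideal.span {m}) ((pol v₀).eval r)) with hS₁
  let S : Finset (Fin (d + 1) → 𝓞 F) := S₁.image fun v => v - v₀
  have hScard : S.card = S₁.card := Finset.card_image_of_injective _ sub_left_injective
  have hNpos : (0 : ℝ) < Ideal.absNorm (Ideal.span {m}) := by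
    rw [← hNm]
    exact_mod_cast Fintype.card_pos
  have hSmem : ∀ v ∈ S, v ∈ SmI F n d T c₀ m r := by
    intro v hv
    obtain ⟨w, hw, rfl⟩ := Finset.mem_image.1 hv
    obtain ⟨hw1, hw2⟩ := Finset.mem_filter.1 hw
    constructor
    · intro i σ
      have h1 := (hS₀ w).1 hw1 i σ
      have h2 := (hS₀ v₀).1 hv₀ i σ
      have e : σ (((w - v₀) i : 𝓞 F) : F) = σ (w i : F) - σ (v₀ i : F) := by
        rw [Pi.sub_apply]
        simp
      rw [e]
      refine (norm_sub_le _ _).trans ?_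
      linarith
    · rw [pol_eval_sub]
      exact Ideal.mem_span_singleton.1 (Ideal.Quotient.eq.1 hw2)
  have htop := span_eq_top_of_card S (fun i => T ^ (n - 2 * (i : ℕ))) (fun i => by positivity)
    hc₀.le hδ (fun v hv => (hSmem v hv).1) (by
      intro v hv w hw hvw
      by_contra hcon
      push Not at hcon
      apply hvw
      have h1 : v - w ∈ SmI F n d T δ m r := by
        constructor
        · intro i σ
          have e : σ (((v - w) i : 𝓞 F) : F) = σ (v i : F) - σ (w i : F) := by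
            rw [Pi.sub_apply]
            simp
          rw [e]
          exact (hcon i σ).le
        · rw [pol_eval_sub]
          exact dvd_sub (hSmem v hv).2 (hSmem w hw).2
      exact sub_eq_zero.1 (hshort _ h1)) (by
      rw [Fintype.card_fin, ← hD, hScard]
      refine lt_of_lt_of_le ?_ hfib
      rw [lt_div_iff₀ hNpos]
      exact lt_of_lt_of_le hcond hcard)
  rw [Good, eq_top_iff, ← htop]
  refine Submodule.span_mono ?_
  rintro _ ⟨v, hv, rfl⟩
  exact ⟨v, hSmem v hv, rfl⟩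

end

end Pool.Agent.H26.Big
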