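import Pool.Agent.H26.Big.Many
import Pool.Agent.H26.Mass.Sum

/-!
# The sum over the fields
-/

set_option autoImplicit false

open Module NumberField Polynomial IntermediateField Filter
open scoped Classical

namespace Pool.Agent.H26.Big

open Pool.Agent.Helper313LB Pool.Agent.Helper313SN Pool.Agent.Helper313WR Pool.Agent.H26.Mass

/-- The sum of `|d_L|^(-1/2)` over the extensions with property `Q₁`. -/
theorem sum_lower {F : Type} [Field F] [NumberField F] {Ω : Type} [Field Ω] [CharZero Ω]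
    [Algebra F Ω] [IsAlgClosed Ω] {Q₁ : IntermediateField F Ω → Prop}
    {n d : ℕ} (hn : 4 ≤ n) (hd : 1 ≤ d) (hdn : 2 * d + 1 ≤ n) (hκn : kap n d < n * (n - 1))
    (hB : Base Q₁ n) {ε : ℝ} (hε : 0 < ε) :
    ∃ c : ℝ, 0 < c ∧ ∀ᶠ X : ℝ in atTop,
      c * X ^ (((n : ℝ) - 1) / ((n : ℝ) * (n - 1) - kap n d) - ε) ≤
      ∑ L ∈ (finite_QFld' Q₁ n X).toFinset, (Real.sqrt (dsc L))⁻¹ := by
  set D := finrank ℚ F with hD
  have hD0 : 0 < D := finrank_pos
  have hDR : (0 : ℝ) < D := by exact_mod_cast hD0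
  have hnR : (4 : ℝ) ≤ n := by exact_mod_cast hn
  set κ := kap n d with hκ
  have hκR : (κ : ℝ) < (n : ℝ) * (n - 1) := by
    have h1 : ((κ : ℕ) : ℝ) < ((n * (n - 1) : ℕ) : ℝ) := by exact_mod_cast hκn
    rwa [Nat.cast_mul, Nat.cast_sub (by omega : 1 ≤ n), Nat.cast_one] at h1
  set β : ℝ := ((n : ℝ) - 1) / ((n : ℝ) * (n - 1) - κ) with hβ
  have hβ0 : 0 < β := div_pos (by linarith) (by linarith)
  set μ₀ : ℝ := 2 * D * ((n : ℝ) * (n - 1) - κ) with hμ₀
  have hμ₀0 : 0 < μ₀ := mul_pos (by positivity) (by linarith)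
  have hβμ : β * μ₀ = 2 * D * ((n : ℝ) - 1) := by
    rw [hβ, hμ₀]
    have : (n : ℝ) * (n - 1) - κ ≠ 0 := by linarith
    field_simp
  set ε₃ : ℝ := ε * μ₀ / 2 with hε₃
  have hε₃0 : 0 < ε₃ := by positivity
  set η : ℝ := min 1 (ε * μ₀ / (4 * D * (β + 1))) with hη
  have hη0 : 0 < η := lt_min one_pos (by positivity)
  have hη1 : η ≤ 1 := min_le_left _ _
  have hη2 : 2 * D * (β + 1) * η ≤ ε * μ₀ / 2 := by
    calc 2 * D * (β + 1) * η ≤ 2 * D * (β + 1) * (ε * μ₀ / (4 * D * (β + 1))) :=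
          mul_le_mul_of_nonneg_left (min_le_right _ _) (by positivity)
      _ = _ := by
          field_simp
          ring
  obtain ⟨ε', c, cc, T₀, hε'0, hε'1, hε', hc, hc1, hcc, hT₀, hmany⟩ :=
    exists_many hn hd hdn hB hη0 hη1 hε₃0
  obtain ⟨K, T₁, hK, hT₁, hfield⟩ := field_facts (Q := Q₁) hn hdn hε'0 hε'1 hε' hc hc1
  set μ : ℝ := μ₀ + 2 * D * η with hμ
  have hμ0 : 0 < μ := by positivity
  set e₁ : ℝ := (2 * D * ((n : ℝ) - 1) - ε₃) / μ with he₁
  have he₁le : β - ε ≤ e₁ := by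
    rw [he₁, le_div_iff₀ hμ0, hμ, ← hβμ]
    have h1 : 0 ≤ 2 * D * η * (1 + ε) := by positivity
    nlinarith
  refine ⟨cc / K * (1 / K ^ 2) ^ e₁, by positivity, ?_⟩
  filter_upwards [eventually_ge_atTop (1 : ℝ), eventually_ge_atTop (K ^ 2 * (max T₀ T₁) ^ μ)] with X hX1 hX
  have hX0 : 0 < X := by linarith
  set T : ℝ := (X / K ^ 2) ^ (1 / μ) with hT
  have hTμ : T ^ μ = X / K ^ 2 := by
    rw [hT, ← Real.rpow_mul (by positivity), one_div_mul_cancel hμ0.ne', Real.rpow_one]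
  have hTT : max T₀ T₁ ≤ T := by
    have h1 : (max T₀ T₁) ^ μ ≤ X / K ^ 2 := by
      rw [le_div_iff₀ (by positivity)]
      linarith
    have h2 := Real.rpow_le_rpow (by positivity) h1 (by positivity : 0 ≤ 1 / μ)
    rwa [← Real.rpow_mul (by positivity), mul_one_div_cancel hμ0.ne', Real.rpow_one] at h2
  have hTT₀ : T₀ ≤ T := (le_max_left _ _).trans hTT
  have hTT₁ : T₁ ≤ T := (le_max_right _ _).trans hTT
  have hT1 : 1 ≤ T := hT₀.trans hTT₀
  have hTpos : 0 < T := by linarith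
  set P : ℝ := T ^ ((κ : ℝ) - η) with hP
  have hP0 : 0 < P := by positivity
  have hPD : P ^ D = T ^ ((D : ℝ) * κ - D * η) := by
    rw [hP, ← Real.rpow_natCast, ← Real.rpow_mul hTpos.le]
    congr 1
    ring
  obtain ⟨𝒜, hok, hcard⟩ := hmany T hTT₀
  -- the roots
  have hex : ∀ a ∈ 𝒜, ∃ z : Ω, minpoly F z = (mp a).map (algebraMap (𝓞 F) F) := by
    intro a ha
    have hmon : ((mp a).map (algebraMap (𝓞 F) F)).Monic := (mp_monic a).map _
    obtain ⟨z, hz⟩ := IsAlgClosed.exists_aeval_eq_zero Ω ((mp a).map (algebraMap (𝓞 F) F)) (by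
      rw [degree_eq_natDegree hmon.ne_zero, mp_map, mp_natDegree]
      exact_mod_cast (by omega : n ≠ 0))
    exact ⟨z, (minpoly.eq_of_irreducible_of_monic (hok a ha).irr hz hmon).symm⟩
  choose! r hr using hex
  have hrinj : Set.InjOn r (𝒜 : Finset (Fin n → 𝓞 F)) := by
    intro a ha b hb h
    have h2 : (mp a).map (algebraMap (𝓞 F) F) = (mp b).map (algebraMap (𝓞 F) F) := by
      rw [← hr a ha, ← hr b hb, h]
    exact mp_injective (Polynomial.map_injective _ RingOfIntegers.coe_injective h2)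
  let E : Finset Ω := 𝒜.image r
  have hEcard : E.card = 𝒜.card := Finset.card_image_of_injOn hrinj
  have hEp : ∀ z ∈ E, ∃ a : Fin n → 𝓞 F, Okb Q₁ n d T ε' c P a ∧
      (minpoly F z = (mp a).map (algebraMap (𝓞 F) F)) := by
    intro z hz
    obtain ⟨a, ha, rfl⟩ := Finset.mem_image.1 hz
    exact ⟨a, hok a ha, hr a ha⟩
  let g : Ω → IntermediateField F Ω := fun z => F⟮z⟯
  have hfacts : ∀ L ∈ E.image g, ∃ _ : NumberField L, finrank F L = n ∧ Q₁ L ∧
      Real.sqrt ((|discr L| : ℤ) : ℝ) * P ^ D ≤ K * T ^ (D * (n * (n - 1))) ∧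
      ((E.filter fun z => g z = L).card : ℝ) * Real.sqrt ((|discr L| : ℤ) : ℝ) * P ^ D ≤
        K * T ^ (D * (n * (n - 1) + 2)) := by
    intro L hL
    obtain ⟨z, hz, hzL⟩ := Finset.mem_image.1 hL
    refine hfield T hTT₁ P hP0 L (E.filter fun z => g z = L) ⟨z, Finset.mem_filter.2 ⟨hz, hzL⟩⟩ ?_
    intro z' hz'
    obtain ⟨h1, h2⟩ := Finset.mem_filter.1 hz'
    obtain ⟨a, h3, h4⟩ := hEp z' h1
    exact ⟨a, h3, h4, h2⟩
  have hnn : ((n * (n - 1) : ℕ) : ℝ) = (n : ℝ) * (n - 1) := by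
    rw [Nat.cast_mul, Nat.cast_sub (by omega : 1 ≤ n), Nat.cast_one]
  have hsub : E.image g ⊆ (finite_QFld' Q₁ n X).toFinset := by
    intro L hL
    obtain ⟨hnf, h1, h2, h3, -⟩ := hfacts L hL
    rw [Set.Finite.mem_toFinset]
    refine ⟨h1, h2, hnf, ?_⟩
    have h4 : Real.sqrt ((|discr L| : ℤ) : ℝ) ≤ K * T ^ (D * (n * (n - 1))) / P ^ D := by
      rw [le_div_iff₀ (by positivity)]
      exact h3
    have h5 : (K * T ^ (D * (n * (n - 1))) / P ^ D) ^ 2 = X := by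
      have h6 : (T ^ (D * (n * (n - 1))) / P ^ D) ^ 2 = T ^ μ := by
        rw [hPD, ← Real.rpow_natCast T, ← Real.rpow_sub hTpos, ← Real.rpow_natCast _ 2,
          ← Real.rpow_mul hTpos.le]
        congr 1
        rw [Nat.cast_mul, hnn, hμ, hμ₀]
        push_cast
        ring
      rw [mul_div_assoc, mul_pow, h6, hTμ]
      field_simp
    have h6 : ((|discr L| : ℤ) : ℝ) = Real.sqrt ((|discr L| : ℤ) : ℝ) ^ 2 :=
      (Real.sq_sqrt (by positivity)).symm
    rw [h6, ← h5]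
    exact pow_le_pow_left₀ (Real.sqrt_nonneg _) h4 2
  have hterm : ∀ L ∈ E.image g, ((E.filter fun z => g z = L).card : ℝ) * P ^ D ≤
      K * T ^ (D * (n * (n - 1) + 2)) * (Real.sqrt (dsc L))⁻¹ := by
    intro L hL
    obtain ⟨hnf, -, -, -, h4⟩ := hfacts L hL
    have h5 : 0 < Real.sqrt (dsc L) := Real.sqrt_pos.2 (by linarith [one_le_dsc L])
    rw [← div_eq_mul_inv, le_div_iff₀ h5, dsc_eq]
    calc _ = ((E.filter fun z => g z = L).card : ℝ) * Real.sqrt ((|discr L| : ℤ) : ℝ) * P ^ D := by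
          ring
      _ ≤ _ := h4
  set Sg := ∑ L ∈ (finite_QFld' Q₁ n X).toFinset, (Real.sqrt (dsc L))⁻¹ with hSg
  have hsum : (E.card : ℝ) * P ^ D ≤ K * T ^ (D * (n * (n - 1) + 2)) * Sg := by
    have h1 : E.card = ∑ L ∈ E.image g, (E.filter fun z => g z = L).card :=
      Finset.card_eq_sum_card_fiberwise (fun p hp => Finset.mem_image_of_mem _ hp)
    have h2 : (E.card : ℝ) = ∑ L ∈ E.image g, ((E.filter fun z => g z = L).card : ℝ) := by
      exact_mod_cast h1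
    rw [h2, Finset.sum_mul]
    refine (Finset.sum_le_sum hterm).trans ?_
    rw [← Finset.mul_sum]
    refine mul_le_mul_of_nonneg_left ?_ (by positivity)
    exact Finset.sum_le_sum_of_subset_of_nonneg hsub fun L _ _ => by positivity
  have h6 : cc * T ^ ((D * (n * (n + 1)) : ℕ) - ε₃ : ℝ) ≤ K * T ^ (D * (n * (n - 1) + 2)) * Sg := by
    refine hcard.trans (le_trans (le_of_eq ?_) hsum)
    rw [hEcard]
  have h7 : T ^ ((D * (n * (n + 1)) : ℕ) - ε₃ : ℝ) =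
      T ^ (D * (n * (n - 1) + 2)) * T ^ (2 * D * ((n : ℝ) - 1) - ε₃) := by
    rw [← Real.rpow_natCast T (D * (n * (n - 1) + 2)), ← Real.rpow_add hTpos]
    congr 1
    rw [Nat.cast_mul D (n * (n - 1) + 2), Nat.cast_add, hnn]
    push_cast
    ring
  have h8 : cc * T ^ (2 * D * ((n : ℝ) - 1) - ε₃) ≤ K * Sg := by
    rw [h7] at h6
    have h9 : 0 < T ^ (D * (n * (n - 1) + 2)) := by positivity
    refine le_of_mul_le_mul_left ?_ h9
    calc T ^ (D * (n * (n - 1) + 2)) * (cc * T ^ (2 * D * ((n : ℝ) - 1) - ε₃)) =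
        cc * (T ^ (D * (n * (n - 1) + 2)) * T ^ (2 * D * ((n : ℝ) - 1) - ε₃)) := by ring
      _ ≤ K * T ^ (D * (n * (n - 1) + 2)) * Sg := h6
      _ = _ := by ring
  have h9 : T ^ (2 * D * ((n : ℝ) - 1) - ε₃) = (1 / K ^ 2) ^ e₁ * X ^ e₁ := by
    rw [← Real.mul_rpow (by positivity) hX0.le, hT, ← Real.rpow_mul (by positivity)]
    have e1 : 1 / K ^ 2 * X = X / K ^ 2 := by ring
    rw [e1, he₁]
    congr 1
    field_simp
  rw [h9] at h8
  calc cc / K * (1 / K ^ 2) ^ e₁ * X ^ (β - ε) ≤ cc / K * (1 / K ^ 2) ^ e₁ * X ^ e₁ :=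
        mul_le_mul_of_nonneg_left (Real.rpow_le_rpow_of_exponent_le hX1 he₁le) (by positivity)
    _ = (cc * ((1 / K ^ 2) ^ e₁ * X ^ e₁)) / K := by ring
    _ ≤ Sg := by
        rw [div_le_iff₀ hK]
        linarith

end Pool.Agent.H26.Big
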